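import Pool.Agent.Run7.h347.Iface
import Pool.Agent.Run7.h347.Sub

set_option autoImplicit false

/-! Piece AMALGAM: ping-pong with a height function. -/

namespace Run7.h78.MP33A

open Run7.h347

section

variable {Γ : Type} [Group Γ]

/-- the two letters are in opposite factors -/
def Opp (A B : Subgroup Γ) (g h : Γ) : Prop := (g ∈ A ∧ h ∈ B) ∨ (g ∈ B ∧ h ∈ A)

/-- a letter of the amalgam -/
def Good (A B : Subgroup Γ) (d g : Γ) : Prop := (g ∈ A ∨ g ∈ B) ∧ g ∉ Subgroup.zpowers d

variable {A B : Subgroup Γ} {d : Γ}

lemma Opp.symm {g h : Γ} (H : Opp A B g h) : Opp A B h g := by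
  rcases H with ⟨h1, h2⟩ | ⟨h1, h2⟩
  · exact Or.inr ⟨h2, h1⟩
  · exact Or.inl ⟨h2, h1⟩

lemma Opp.inv_right {g h : Γ} (H : Opp A B g h) : Opp A B g h⁻¹ := by
  rcases H with ⟨h1, h2⟩ | ⟨h1, h2⟩
  · exact Or.inl ⟨h1, B.inv_mem h2⟩
  · exact Or.inr ⟨h1, A.inv_mem h2⟩

lemma Good.inv {g : Γ} (H : Good A B d g) : Good A B d g⁻¹ := by
  refine ⟨?_, fun h => H.2 ((Subgroup.inv_mem_iff _).1 h)⟩
  rcases H.1 with h | h
  · exact Or.inl (A.inv_mem h)
  · exact Or.inr (B.inv_mem h)

/-- the ping-pong hypotheses -/
structure PP {C : Type} [MulAction Γ C] (Y : C → ℝ) (A B : Subgroup Γ) (d : Γ) : Prop where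
  dA : d ∈ A
  dB : d ∈ B
  nonneg : ∀ x, 0 ≤ Y x
  h1 : ∀ x a b, Good A B d a → Good A B d b → Opp A B a b → 0 < Y x →
    Y x < Y (a • x) ∨ Y x < Y (b • x)
  h2 : ∀ x a, Good A B d a → Y x = 0 → 0 < Y (a • x)

variable {C : Type} [MulAction Γ C] {Y : C → ℝ}

lemma PP.zA (H : PP Y A B d) {q : Γ} (hq : q ∈ Subgroup.zpowers d) : q ∈ A :=
  (Subgroup.zpowers_le.2 H.dA) hq

lemma PP.zB (H : PP Y A B d) {q : Γ} (hq : q ∈ Subgroup.zpowers d) : q ∈ B :=
  (Subgroup.zpowers_le.2 H.dB) hq

lemma PP.chain_pos (H : PP Y A B d) {x0 : C} (hx0 : Y x0 = 0) (L : List Γ) :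
    (∀ g ∈ L, Good A B d g) → L.IsChain (Opp A B) → L ≠ [] →
    0 < Y (L.prod • x0) ∧ Y (L.tail.prod • x0) < Y (L.prod • x0) := by
  induction L with
  | nil => intro _ _ h; exact absurd rfl h
  | cons g M ih =>
    intro hg hc _
    cases M with
    | nil =>
      have := H.h2 x0 g (hg g (by simp)) hx0
      simp only [List.prod_cons, List.prod_nil, mul_one, List.tail_cons, one_smul]
      exact ⟨this, by rw [hx0]; exact this⟩
    | cons h M =>
      rw [List.isChain_cons_cons] at hc
      obtain ⟨i1, i2⟩ := ih (fun g' hg' => hg g' (List.mem_cons_of_mem _ hg')) hc.2 (by simp)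
      set x := (h :: M).prod • x0 with hx
      have h3 : h⁻¹ • x = M.prod • x0 := by
        rw [hx, List.prod_cons, mul_smul, inv_smul_smul]
      have h4 := H.h1 x g h⁻¹ (hg g (by simp)) ((hg h (by simp)).inv) hc.1.inv_right i1
      have h5 : Y x < Y (g • x) := by
        rcases h4 with h4 | h4
        · exact h4
        · rw [h3] at h4
          simp only [List.tail_cons] at i2
          exact absurd h4 i2.not_gt
      have h6 : (g :: h :: M).prod • x0 = g • x := by
        rw [List.prod_cons, mul_smul]
      rw [h6, List.tail_cons]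
      exact ⟨i1.trans h5, h5⟩

lemma PP.inter (H : PP Y A B d) (hex : ∃ x, Y x = 0) : A ⊓ B = Subgroup.zpowers d := by
  obtain ⟨x0, hx0⟩ := hex
  apply le_antisymm
  · rintro g ⟨hA, hB⟩
    by_contra hg
    have hgood : Good A B d g := ⟨Or.inl hA, hg⟩
    have h1 := H.h2 x0 g hgood hx0
    have h2 := H.h1 (g • x0) g⁻¹ g⁻¹ hgood.inv hgood.inv (Or.inl ⟨A.inv_mem hA, B.inv_mem hB⟩) h1
    rw [inv_smul_smul, hx0] at h2
    rcases h2 with h2 | h2 <;> linarith
  · rw [Subgroup.zpowers_le]
    exact ⟨H.dA, H.dB⟩

/-- normal form in the join -/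
def NF (A B : Subgroup Γ) (d m : Γ) : Prop :=
  m ∈ Subgroup.zpowers d ∨ ∃ L : List Γ, L ≠ [] ∧ (∀ g ∈ L, Good A B d g) ∧
    L.IsChain (Opp A B) ∧ m = L.prod

lemma PP.opp_mul_left (H : PP Y A B d) {q g h : Γ} (hq : q ∈ Subgroup.zpowers d)
    (ho : Opp A B g h) : Opp A B (q * g) h := by
  rcases ho with ⟨h1, h2⟩ | ⟨h1, h2⟩
  · exact Or.inl ⟨A.mul_mem (H.zA hq) h1, h2⟩
  · exact Or.inr ⟨B.mul_mem (H.zB hq) h1, h2⟩

lemma PP.good_mul_left (H : PP Y A B d) {q g : Γ} (hq : q ∈ Subgroup.zpowers d)
    (hg : Good A B d g) : Good A B d (q * g) := by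
  refine ⟨?_, fun h => hg.2 ((Subgroup.mul_mem_cancel_left _ hq).1 h)⟩
  rcases hg.1 with h | h
  · exact Or.inl (A.mul_mem (H.zA hq) h)
  · exact Or.inr (B.mul_mem (H.zB hq) h)

lemma PP.NF_zmul (H : PP Y A B d) {q m : Γ} (hq : q ∈ Subgroup.zpowers d) (hm : NF A B d m) :
    NF A B d (q * m) := by
  rcases hm with hm | ⟨L, hL, hg, hc, rfl⟩
  · exact Or.inl (Subgroup.mul_mem _ hq hm)
  · cases L with
    | nil => exact absurd rfl hL
    | cons g M =>
      refine Or.inr ⟨(q * g) :: M, by simp, ?_, ?_, by simp [mul_assoc]⟩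
      · intro g' hg'
        rcases List.mem_cons.1 hg' with rfl | hg'
        · exact H.good_mul_left hq (hg g (by simp))
        · exact hg g' (List.mem_cons_of_mem _ hg')
      · cases M with
        | nil => exact List.isChain_singleton _
        | cons h M =>
          rw [List.isChain_cons_cons] at hc ⊢
          exact ⟨H.opp_mul_left hq hc.1, hc.2⟩

lemma PP.NF_mul (H : PP Y A B d) {a m : Γ} (ha : a ∈ A ∨ a ∈ B) (hm : NF A B d m) :
    NF A B d (a * m) := by
  by_cases had : a ∈ Subgroup.zpowers d
  · exact H.NF_zmul had hm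
  rcases hm with hm | ⟨L, hL, hg, hc, rfl⟩
  · refine Or.inr ⟨[a * m], by simp, ?_, List.isChain_singleton _, by simp⟩
    intro g hg
    rw [List.mem_singleton] at hg
    subst hg
    refine ⟨?_, fun h => had ((Subgroup.mul_mem_cancel_right _ hm).1 h)⟩
    rcases ha with h | h
    · exact Or.inl (A.mul_mem h (H.zA hm))
    · exact Or.inr (B.mul_mem h (H.zB hm))
  · cases L with
    | nil => exact absurd rfl hL
    | cons g M =>
      have hgg := hg g (by simp)
      by_cases ho : Opp A B a g
      · refine Or.inr ⟨a :: g :: M, by simp, ?_, ?_, by simp⟩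
        · intro g' hg'
          rcases List.mem_cons.1 hg' with rfl | hg'
          · exact ⟨ha, had⟩
          · exact hg g' hg'
        · rw [List.isChain_cons_cons]; exact ⟨ho, hc⟩
      · -- same factor
        have hsame : (a ∈ A ∧ g ∈ A) ∨ (a ∈ B ∧ g ∈ B) := by
          rcases ha with h | h <;> rcases hgg.1 with h' | h'
          · exact Or.inl ⟨h, h'⟩
          · exact absurd (Or.inl ⟨h, h'⟩) ho
          · exact absurd (Or.inr ⟨h, h'⟩) ho
          · exact Or.inr ⟨h, h'⟩
        by_cases hq : a * g ∈ Subgroup.zpowers d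
        · have hM : NF A B d M.prod := by
            cases M with
            | nil => exact Or.inl (by rw [List.prod_nil]; exact Subgroup.one_mem _)
            | cons h M =>
              exact Or.inr ⟨h :: M, by simp, fun g' hg' => hg g' (List.mem_cons_of_mem _ hg'),
                hc.tail, rfl⟩
          have h1 := H.NF_zmul hq hM
          rwa [mul_assoc, ← List.prod_cons] at h1
        · refine Or.inr ⟨(a * g) :: M, by simp, ?_, ?_, by simp [mul_assoc]⟩
          · intro g' hg'
            rcases List.mem_cons.1 hg' with rfl | hg'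
            · refine ⟨?_, hq⟩
              rcases hsame with ⟨h, h'⟩ | ⟨h, h'⟩
              · exact Or.inl (A.mul_mem h h')
              · exact Or.inr (B.mul_mem h h')
            · exact hg g' (List.mem_cons_of_mem _ hg')
          · cases M with
            | nil => exact List.isChain_singleton _
            | cons h M =>
              rw [List.isChain_cons_cons] at hc ⊢
              refine ⟨?_, hc.2⟩
              rcases hc.1 with ⟨k1, k2⟩ | ⟨k1, k2⟩
              · -- `g ∈ A`, `h ∈ B`
                rcases hsame with ⟨h3, h4⟩ | ⟨h3, h4⟩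
                · exact Or.inl ⟨A.mul_mem h3 h4, k2⟩
                · exact absurd (Or.inr ⟨h3, k1⟩) ho
              · rcases hsame with ⟨h3, h4⟩ | ⟨h3, h4⟩
                · exact absurd (Or.inl ⟨h3, k1⟩) ho
                · exact Or.inr ⟨B.mul_mem h3 h4, k2⟩

lemma PP.exists_NF (H : PP Y A B d) {m : Γ} (hm : m ∈ A ⊔ B) : NF A B d m := by
  rw [← Subgroup.closure_eq A, ← Subgroup.closure_eq B, ← Subgroup.closure_union] at hm
  induction hm using Subgroup.closure_induction_left with
  | one => exact Or.inl (Subgroup.one_mem _)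
  | mul_left x hx y _ ih => exact H.NF_mul hx ih
  | inv_mul_cancel x hx y _ ih =>
    refine H.NF_mul ?_ ih
    rcases hx with h | h
    · exact Or.inl (A.inv_mem h)
    · exact Or.inr (B.inv_mem h)

/-- a cyclically alternating word has no fixed point -/
lemma PP.no_fix (H : PP Y A B d) (N : List Γ) (hN : N ≠ []) (hg : ∀ g ∈ N, Good A B d g)
    (hc : N.IsChain (Opp A B)) (hl : ∀ g ∈ N.getLast?, ∀ h ∈ N.head?, Opp A B g h) (x : C) :
    N.prod • x ≠ x := by
  intro hfix
  have hn : 0 < N.length := List.length_pos_iff.2 hN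
  let y : ℕ → C := fun i => (N.drop i).prod • x
  have hy0 : y 0 = x := by simp only [y, List.drop_zero]; exact hfix
  have hyn : y N.length = x := by simp [y]
  have hstep : ∀ (i : ℕ) (hi : i < N.length), y i = N[i] • y (i + 1) := by
    intro i hi
    simp only [y]
    rw [List.drop_eq_getElem_cons hi, List.prod_cons, mul_smul]
  obtain ⟨i, hi, hmax⟩ := Finset.exists_max_image (Finset.range N.length) (fun i => Y (y i))
    ⟨0, Finset.mem_range.2 hn⟩
  have hi' := Finset.mem_range.1 hi
  have hmax' : ∀ j ≤ N.length, Y (y j) ≤ Y (y i) := by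
    intro j hj
    rcases Nat.lt_or_eq_of_le hj with h | h
    · exact hmax j (Finset.mem_range.2 h)
    · rw [h, hyn, ← hy0]; exact hmax 0 (Finset.mem_range.2 hn)
  -- the previous letter
  obtain ⟨b, hb, hob, hyb⟩ : ∃ b, Good A B d b ∧ Opp A B b N[i] ∧ Y (b • y i) ≤ Y (y i) := by
    cases i with
    | zero =>
      have hlast : N.length - 1 < N.length := by omega
      refine ⟨N[N.length - 1], hg _ (List.getElem_mem _), ?_, ?_⟩
      · apply hl
        · rw [List.getLast?_eq_getElem?, List.getElem?_eq_getElem hlast]; simp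
        · rw [List.head?_eq_getElem?, List.getElem?_eq_getElem hi']; simp
      · have h1 := hstep (N.length - 1) hlast
        have h2 : N.length - 1 + 1 = N.length := by omega
        rw [h2, hyn, ← hy0] at h1
        rw [← h1]
        exact hmax' _ (by omega)
    | succ i =>
      have hii : i < N.length := by omega
      refine ⟨N[i], hg _ (List.getElem_mem _), ?_, ?_⟩
      · exact List.isChain_iff_getElem.1 hc i hi'
      · rw [← hstep i hii]
        exact hmax' _ (by omega)
  have hgi := hg N[i] (List.getElem_mem _)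
  have hnext : (N[i])⁻¹ • y i = y (i + 1) := by rw [hstep i hi', inv_smul_smul]
  rcases (H.nonneg (y i)).lt_or_eq with hpos | h0
  · rcases H.h1 (y i) b (N[i])⁻¹ hb hgi.inv hob.inv_right hpos with h | h
    · exact absurd h hyb.not_gt
    · rw [hnext] at h
      exact absurd h (hmax' (i + 1) (by omega)).not_gt
  · have := H.h2 (y i) b hb h0.symm
    rw [← h0] at hyb
    exact absurd this hyb.not_gt

/-- the conclusion for one element -/
def Conc (C : Type) [MulAction Γ C] (A B : Subgroup Γ) (m : Γ) : Prop :=
  (∃ h ∈ A ⊔ B, ∃ a, (a ∈ A ∨ a ∈ B) ∧ m = h * a * h⁻¹) ∨ ∀ k : ℕ, 0 < k → ∀ x : C, m ^ k • x ≠ x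

lemma conc_conj {g m : Γ} (hg : g ∈ A ⊔ B) (h : Conc C A B (g⁻¹ * m * g)) : Conc C A B m := by
  rcases h with ⟨h, hh, a, ha, hm⟩ | h
  · refine Or.inl ⟨g * h, Subgroup.mul_mem _ hg hh, a, ha, ?_⟩
    have : m = g * (g⁻¹ * m * g) * g⁻¹ := by group
    rw [this, hm]; group
  · refine Or.inr fun k hk x hx => h k hk (g⁻¹ • x) ?_
    have : (g⁻¹ * m * g) ^ k = g⁻¹ * m ^ k * g := by
      have := conj_pow (i := k) (a := g⁻¹) (b := m)
      rwa [inv_inv] at this
    rw [this, mul_smul, smul_inv_smul, mul_smul, hx]

lemma PP.conc_word (H : PP Y A B d) (n : ℕ) : ∀ L : List Γ, L.length = n → L ≠ [] →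
    (∀ g ∈ L, Good A B d g) → L.IsChain (Opp A B) → Conc C A B L.prod := by
  induction n using Nat.strong_induction_on with
  | _ n ih =>
    intro L hn hL hg hc
    by_cases hopp : ∀ g ∈ L.getLast?, ∀ h ∈ L.head?, Opp A B g h
    · right
      intro k hk x
      have hne : [] ∉ List.replicate k L := by
        intro h
        exact hL (List.eq_of_mem_replicate h).symm
      have h1 := H.no_fix (List.replicate k L).flatten ?_ ?_ ?_ ?_ x
      · rwa [List.prod_flatten, List.map_replicate, List.prod_replicate] at h1
      · intro h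
        rw [List.flatten_eq_nil_iff] at h
        exact hL (h L (List.mem_replicate.2 ⟨hk.ne', rfl⟩))
      · intro g hg'
        obtain ⟨l, hl, hgl⟩ := List.mem_flatten.1 hg'
        rw [List.eq_of_mem_replicate hl] at hgl
        exact hg g hgl
      · rw [List.isChain_flatten hne]
        refine ⟨fun l hl => ?_, ?_⟩
        · rw [List.eq_of_mem_replicate hl]; exact hc
        · exact List.isChain_replicate_of_rel _ hopp
      · obtain ⟨k, rfl⟩ := Nat.exists_eq_succ_of_ne_zero hk.ne'
        intro g hg' h hh
        have h2 : g ∈ L.getLast? := by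
          rw [List.replicate_succ', List.flatten_append, List.flatten_singleton,
            List.getLast?_append_of_ne_nil _ hL] at hg'
          exact hg'
        have h3 : h ∈ L.head? := by
          rw [List.replicate_succ, List.flatten_cons, List.head?_append_of_ne_nil _ hL] at hh
          exact hh
        exact hopp g h2 h h3
    · push Not at hopp
      obtain ⟨g', hg', g, hgh, hno⟩ := hopp
      obtain ⟨M, rfl⟩ : ∃ M, L = g :: M := by
        cases L with
        | nil => exact absurd rfl hL
        | cons a M =>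
          simp only [List.head?_cons, Option.mem_def, Option.some.injEq] at hgh
          exact ⟨M, by rw [hgh]⟩
      have hgg := hg g (by simp)
      have hgAB : g ∈ A ⊔ B := by
        rcases hgg.1 with h | h
        · exact Subgroup.mem_sup_left h
        · exact Subgroup.mem_sup_right h
      rcases List.eq_nil_or_concat' M with hM | ⟨M, g'', hM⟩
      · subst hM
        left
        exact ⟨1, Subgroup.one_mem _, g, hgg.1, by simp⟩
      · subst hM
        have h0 : g'' = g' := by
          rw [← List.cons_append, List.getLast?_append_of_ne_nil _ (by simp)] at hg'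
          simpa using hg'
        subst h0
        have hgg' := hg g'' (by simp)
        rcases List.eq_nil_or_concat' M with hM | ⟨M, r, hM⟩
        · subst hM
          exfalso
          rw [List.nil_append, List.isChain_cons_cons] at hc
          exact hno hc.1.symm
        · subst hM
          have hgr := hg r (by simp)
          have hcM : (M ++ [r]).IsChain (Opp A B) :=
            chainSub hc ⟨[g], [g''], by simp⟩
          have hor : Opp A B r g'' := by
            have : [r, g''].IsChain (Opp A B) :=
              chainSub hc ⟨g :: M, [], by simp⟩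
            rw [List.isChain_cons_cons] at this
            exact this.1
          have hoq : Opp A B r (g'' * g) := by
            rcases hor with ⟨h1, h2⟩ | ⟨h1, h2⟩
            · rcases hgg.1 with h3 | h3
              · exact absurd (Or.inr ⟨h2, h3⟩) hno
              · exact Or.inl ⟨h1, B.mul_mem h2 h3⟩
            · rcases hgg.1 with h3 | h3
              · exact Or.inr ⟨h1, A.mul_mem h2 h3⟩
              · exact absurd (Or.inl ⟨h2, h3⟩) hno
          apply conc_conj hgAB
          by_cases hq : g'' * g ∈ Subgroup.zpowers d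
          · have hprod : g⁻¹ * (g :: (M ++ [r] ++ [g''])).prod * g =
                (M ++ [r * (g'' * g)]).prod := by
              simp only [List.prod_cons, List.prod_append, List.prod_nil, mul_one]; group
            rw [hprod]
            refine ih (M ++ [r * (g'' * g)]).length ?_ _ rfl (by simp) ?_ ?_
            · rw [← hn]; simp
            · intro h hh
              rcases List.mem_append.1 hh with hh | hh
              · exact hg h (by simp [hh])
              · rw [List.mem_singleton] at hh
                subst hh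
                refine ⟨?_, fun h => hgr.2 ((Subgroup.mul_mem_cancel_right _ hq).1 h)⟩
                rcases hgr.1 with h | h
                · exact Or.inl (A.mul_mem h (H.zA hq))
                · exact Or.inr (B.mul_mem h (H.zB hq))
            · rw [List.isChain_append] at hcM ⊢
              refine ⟨hcM.1, List.isChain_singleton _, ?_⟩
              intro s hs t ht
              simp only [List.head?_cons, Option.mem_def, Option.some.injEq] at ht
              subst ht
              rcases hcM.2.2 s hs r (by simp) with ⟨h1, h2⟩ | ⟨h1, h2⟩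
              · exact Or.inl ⟨h1, B.mul_mem h2 (H.zB hq)⟩
              · exact Or.inr ⟨h1, A.mul_mem h2 (H.zA hq)⟩
          · have hprod : g⁻¹ * (g :: (M ++ [r] ++ [g''])).prod * g =
                ((M ++ [r]) ++ [g'' * g]).prod := by
              simp only [List.prod_cons, List.prod_append, List.prod_nil, mul_one]; group
            rw [hprod]
            refine ih ((M ++ [r]) ++ [g'' * g]).length ?_ _ rfl (by simp) ?_ ?_
            · rw [← hn]; simp
            · intro h hh
              rcases List.mem_append.1 hh with hh | hh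
              · exact hg h (List.mem_cons_of_mem _ (List.mem_append_left _ hh))
              · rw [List.mem_singleton] at hh
                subst hh
                refine ⟨?_, hq⟩
                rcases hoq with ⟨_, h⟩ | ⟨_, h⟩
                · exact Or.inr h
                · exact Or.inl h
            · rw [List.isChain_append]
              refine ⟨hcM, List.isChain_singleton _, ?_⟩
              intro s hs t ht
              simp only [List.head?_cons, Option.mem_def, Option.some.injEq] at ht
              simp only [List.getLast?_append, List.getLast?_singleton, Option.some_or,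
                Option.mem_def, Option.some.injEq] at hs
              subst hs ht
              exact hoq

lemma PP.conc (H : PP Y A B d) {m : Γ} (hm : m ∈ A ⊔ B) : Conc C A B m := by
  rcases H.exists_NF hm with h | ⟨L, hL, hg, hc, rfl⟩
  · exact Or.inl ⟨1, Subgroup.one_mem _, m, Or.inl (H.zA h), by simp⟩
  · exact H.conc_word L.length L rfl hL hg hc

lemma inv_zpowers (hY : ∀ x, Y (d • x) = Y x) {q : Γ} (hq : q ∈ Subgroup.zpowers d) (x : C) :
    Y (q • x) = Y x := by
  obtain ⟨n, rfl⟩ := Subgroup.mem_zpowers_iff.1 hq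
  induction n generalizing x with
  | zero => rw [zpow_zero, one_smul]
  | succ n ih =>
    rw [zpow_add_one, mul_smul, ih _ (Subgroup.zpow_mem _ (Subgroup.mem_zpowers _) _), hY]
  | pred n ih =>
    rw [zpow_sub_one, mul_smul, ih _ (Subgroup.zpow_mem _ (Subgroup.mem_zpowers _) _),
      ← hY (d⁻¹ • x), smul_inv_smul]

section
open Monoid Monoid.PushoutI

/-- the natural homomorphism for a family -/
noncomputable def natF {Γ : Type} [Group Γ] {ι : Type} (F : ι → Subgroup Γ) (d : Γ)
    (h : ∀ i, Subgroup.zpowers d ≤ F i) :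
    Monoid.PushoutI (fun i => Subgroup.inclusion (h i)) →* Γ :=
  Monoid.PushoutI.lift (fun i => (F i).subtype) (Subgroup.zpowers d).subtype
    (fun _ => rfl)

theorem natF_base {Γ : Type} [Group Γ] {ι : Type} (F : ι → Subgroup Γ) (d : Γ)
    (h : ∀ i, Subgroup.zpowers d ≤ F i) (x : Subgroup.zpowers d) :
    natF F d h (base (fun i => Subgroup.inclusion (h i)) x) = (x : Γ) := by
  unfold natF
  exact lift_base _ _ _ x

theorem natF_of {Γ : Type} [Group Γ] {ι : Type} (F : ι → Subgroup Γ) (d : Γ)
    (h : ∀ i, Subgroup.zpowers d ≤ F i) (i : ι) (x : F i) :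
    natF F d h (of (φ := fun i => Subgroup.inclusion (h i)) i x) = (x : Γ) := by
  have := lift_of (φ := fun i => Subgroup.inclusion (h i)) (fun i => (F i).subtype)
    (Subgroup.zpowers d).subtype (fun _ => rfl) (i := i) x
  exact this

theorem natHom2_eq {Γ : Type} [Group Γ] (A B : Subgroup Γ) (d : Γ)
    (h : ∀ i, Subgroup.zpowers d ≤ (![A, B] : Fin 2 → Subgroup Γ) i) :
    natHom2 A B d h = natF ![A, B] d h := rfl

theorem PP.inj (H : PP Y A B d) (hY : ∀ x, Y (d • x) = Y x) (hex : ∃ x, Y x = 0)
    (h : ∀ i, Subgroup.zpowers d ≤ (![A, B] : Fin 2 → Subgroup Γ) i) :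
    Function.Injective (natHom2 A B d h) := by
  classical
  rw [injective_iff_map_eq_one]
  intro g hg
  obtain ⟨x0, hx0⟩ := hex
  obtain ⟨D⟩ := NormalWord.transversal_nonempty (fun i => Subgroup.inclusion (h i))
    (fun i => Subgroup.inclusion_injective (h i))
  obtain ⟨w, rfl⟩ : ∃ w : NormalWord D, w.prod = g :=
    ⟨NormalWord.equiv g, NormalWord.equiv.symm_apply_apply g⟩
  let L : List Γ := w.toList.map (fun x => (x.2 : Γ))
  have hval : natHom2 A B d h w.prod = (w.head : Γ) * L.prod := by
    have h1 : natHom2 A B d h (base _ w.head) = (w.head : Γ) := natF_base ![A, B] d h _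
    have h2 : natHom2 A B d h (ofCoprodI w.toWord.prod) = L.prod := by
      unfold CoprodI.Word.prod
      rw [map_list_prod, map_list_prod, List.map_map, List.map_map]
      refine congrArg List.prod (List.map_congr_left ?_)
      rintro ⟨i, a⟩ _
      exact natF_of ![A, B] d h i a
    rw [NormalWord.prod, map_mul, h1, h2]
  by_cases hne : w.toList = []
  · have hL : L = [] := by simp only [L, hne, List.map_nil]
    rw [hval, hL, List.prod_nil, mul_one] at hg
    have hhead : w.head = 1 := Subtype.ext hg
    rw [NormalWord.prod, hhead, map_one, one_mul]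
    unfold CoprodI.Word.prod
    rw [hne]; simp
  · exfalso
    have hgood : ∀ a ∈ L, Good A B d a := by
      intro a ha
      obtain ⟨⟨i, b⟩, hb, rfl⟩ := List.mem_map.1 ha
      refine ⟨?_, fun hz => ?_⟩
      · fin_cases i
        · exact Or.inl b.2
        · exact Or.inr b.2
      · have hb1 : b ≠ 1 := w.ne_one _ hb
        have hb2 := w.normalized i b hb
        have hb3 : b ∈ (Subgroup.inclusion (h i)).range := ⟨⟨b, hz⟩, rfl⟩
        apply hb1
        have hcomp := (D.compl i).1
        have := @hcomp (⟨b, hb3⟩, ⟨1, D.one_mem i⟩) (⟨1, Subgroup.one_mem _⟩, ⟨b, hb2⟩)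
          (by simp)
        simp only [Prod.mk.injEq, Subtype.mk.injEq] at this
        exact this.1
    have hchain : L.IsChain (Opp A B) := by
      simp only [L]
      rw [List.isChain_map]
      refine List.IsChain.imp ?_ w.chain_ne
      rintro ⟨i, a⟩ ⟨j, b⟩ hij
      simp only at hij
      fin_cases i <;> fin_cases j
      · exact absurd rfl hij
      · exact Or.inl ⟨a.2, b.2⟩
      · exact Or.inr ⟨a.2, b.2⟩
      · exact absurd rfl hij
    have hLne : L ≠ [] := by simp only [L]; simpa using hne
    have hpos := (H.chain_pos hx0 L hgood hchain hLne).1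
    rw [hval] at hg
    have hLp : L.prod = ((w.head)⁻¹ : Subgroup.zpowers d) := by
      rw [eq_comm, Subgroup.coe_inv, inv_eq_iff_mul_eq_one]
      exact hg
    rw [hLp, inv_zpowers hY (Subtype.mem _), hx0] at hpos
    exact lt_irrefl _ hpos

end

end

theorem statementAmalgam : StatementAmalgam := by
  intro Γ _ C _ Y A B d hA hB h0 hY h1 h2 hex
  have H : PP Y A B d := by
    refine ⟨hA, hB, h0, ?_, ?_⟩
    · rintro x a b ⟨_, ha⟩ ⟨_, hb⟩ (⟨ha', hb'⟩ | ⟨ha', hb'⟩) hx
      · exact h1 x a ha' ha b hb' hb hx
      · exact (h1 x b hb' hb a ha' ha hx).symm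
    · rintro x a ⟨ha', ha⟩ hx
      exact h2 x a ha' ha hx
  exact ⟨H.inter hex, fun h => H.inj hY hex h, fun m hm => H.conc hm⟩

end Run7.h78.MP33A
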