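import Pool.Agent.Run7.h78.MP33_HE

set_option autoImplicit false

/-! Piece HECKE. -/

open MatrixGroups

namespace Run7.h78.MP33H

open Run7.h347

section

variable {G : Type} [Group G] {S T : G} {D : G →* SL(2, ℝ)}

/-- conjugate to a standard element -/
def Good (S T w : G) : Prop := ∃ (g : G) (i : ℤ),
  (∃ L, w = g * (S ^ (2 * i) * pr S T L) * g⁻¹) ∨ w = g * (S ^ (2 * i) * S) * g⁻¹ ∨
    ∃ k : ℕ, 1 ≤ k ∧ k ≤ 4 ∧ w = g * (S ^ (2 * i) * (T * S) ^ k) * g⁻¹

lemma Good.conj {w : G} (h : Good S T w) (x : G) : Good S T (x * w * x⁻¹) := by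
  obtain ⟨g, i, h⟩ := h
  refine ⟨x * g, i, ?_⟩
  rcases h with ⟨L, rfl⟩ | rfl | ⟨k, h1, h2, rfl⟩
  · exact Or.inl ⟨L, by group⟩
  · exact Or.inr (Or.inl (by group))
  · exact Or.inr (Or.inr ⟨k, h1, h2, by generalize T * S = U; group⟩)

variable (H : HeckeData G S T D)
include H

lemma Good.smul {w : G} (h : Good S T w) (j : ℤ) : Good S T (S ^ (2 * j) * w) := by
  obtain ⟨g, i, h⟩ := h
  have hc := Seven H (2 * j) (even_two_mul j) g
  have e : ∀ v : G, S ^ (2 * j) * (g * (S ^ (2 * i) * v) * g⁻¹) =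
      g * (S ^ (2 * (j + i)) * v) * g⁻¹ := by
    intro v
    rw [mul_add, zpow_add]
    calc S ^ (2 * j) * (g * (S ^ (2 * i) * v) * g⁻¹)
        = (S ^ (2 * j) * g) * (S ^ (2 * i) * v) * g⁻¹ := by simp only [mul_assoc]
      _ = (g * S ^ (2 * j)) * (S ^ (2 * i) * v) * g⁻¹ := by rw [hc]
      _ = _ := by simp only [mul_assoc]
  refine ⟨g, j + i, ?_⟩
  rcases h with ⟨L, rfl⟩ | rfl | ⟨k, h1, h2, rfl⟩
  · exact Or.inl ⟨L, e _⟩
  · exact Or.inr (Or.inl (e _))
  · exact Or.inr (Or.inr ⟨k, h1, h2, e _⟩)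

omit H in
lemma Good_pr (L : List (Fin 4)) : Good S T (pr S T L) :=
  ⟨1, 0, Or.inl ⟨L, by simp⟩⟩

lemma S_pow_two_smul {w : G} (h : Good S T w) : Good S T (S ^ 2 * w) := by
  have := Good.smul H h 1
  rwa [show S ^ (2 * (1 : ℤ)) = S ^ 2 by norm_cast] at this

lemma Good_prS (n : ℕ) : ∀ L : List (Fin 4), L.length ≤ n → Good S T (pr S T L * S) := by
  induction n with
  | zero =>
    intro L hL
    have : L = [] := List.eq_nil_of_length_eq_zero (by omega)
    subst this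
    exact ⟨1, 0, Or.inr (Or.inl (by simp [pr_nil]))⟩
  | succ n ih =>
    intro L hL
    rcases L with _ | ⟨k, L'⟩
    · exact ⟨1, 0, Or.inr (Or.inl (by simp [pr_nil]))⟩
    rcases List.eq_nil_or_concat L' with rfl | ⟨M, j, rfl⟩
    · refine ⟨1, 0, Or.inr (Or.inr ⟨(k : ℕ) + 1, by omega, by have := k.2; omega, ?_⟩)⟩
      rw [pr_singleton, al]; simp
    · have hM : M.length ≤ n := by
        simp only [List.concat_eq_append, List.length_cons, List.length_append] at hL
        omega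
      have hk := k.2
      have hj := j.2
      -- conjugation
      have e0 : pr S T (k :: M.concat j) * S = ((T * S) ^ ((j : ℕ) + 1))⁻¹ *
          ((T * S) ^ ((j : ℕ) + 1 + ((k : ℕ) + 1)) * S⁻¹ * pr S T M) *
          (((T * S) ^ ((j : ℕ) + 1))⁻¹)⁻¹ := by
        rw [pr_cons, List.concat_eq_append, pr_append, pr_singleton, al, al, pow_add _ ((j : ℕ) + 1)]
        generalize T * S = U
        group
      rw [e0]
      apply Good.conj
      rcases (by omega : (j : ℕ) + 1 + ((k : ℕ) + 1) ≤ 4 ∨ (j : ℕ) + 1 + ((k : ℕ) + 1) = 5 ∨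
        6 ≤ (j : ℕ) + 1 + ((k : ℕ) + 1)) with h | h | h
      · have e1 : (T * S) ^ ((j : ℕ) + 1 + ((k : ℕ) + 1)) * S⁻¹ =
            al S T (⟨(j : ℕ) + (k : ℕ) + 1, by omega⟩ : Fin 4) := by
          rw [al]; congr 2; simp only; omega
        rw [e1, ← pr_cons]
        exact Good_pr _
      · rw [h, H.U5]
        have e1 : S ^ 2 * S⁻¹ * pr S T M = S * (pr S T M * S) * S⁻¹ := by group
        rw [e1]
        exact (ih M hM).conj S
      · have e1 : (T * S) ^ ((j : ℕ) + 1 + ((k : ℕ) + 1)) * S⁻¹ =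
            S ^ 2 * al S T (⟨(j : ℕ) + (k : ℕ) - 4, by omega⟩ : Fin 4) := by
          rw [al, ← H.U5, ← mul_assoc, ← pow_add]; congr 2; simp only; omega
        rw [e1, mul_assoc, ← pr_cons]
        exact S_pow_two_smul H (Good_pr _)

lemma Good_all (w : G) : Good S T w := by
  obtain ⟨i, L, e | e | e | e⟩ := NF2 H w
  · rw [e]; exact Good.smul H (Good_pr L) i
  · rw [e]; exact Good.smul H (Good_prS H _ L le_rfl) i
  · rw [e]
    apply Good.smul H
    have e1 : S * pr S T L = S * (pr S T L * S) * S⁻¹ := by group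
    rw [e1]
    exact (Good_prS H _ L le_rfl).conj S
  · rw [e]
    apply Good.smul H
    have e1 : S * pr S T L * S = S * (S ^ 2 * pr S T L) * S⁻¹ := by
      rw [S2_comm H]; group
    rw [e1]
    exact (S_pow_two_smul H (Good_pr L)).conj S

omit H in
lemma tr_conj (g w : G) : m00 D (g * w * g⁻¹) + m11 D (g * w * g⁻¹) = m00 D w + m11 D w := by
  have e0 : m00 D (g⁻¹ * g) = 1 := by rw [inv_mul_cancel, m00_one]
  have e1 : m01 D (g⁻¹ * g) = 0 := by rw [inv_mul_cancel, m01_one]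
  have e2 : m10 D (g⁻¹ * g) = 0 := by rw [inv_mul_cancel, m10_one]
  have e3 : m11 D (g⁻¹ * g) = 1 := by rw [inv_mul_cancel, m11_one]
  rw [m00_mul] at e0
  rw [m01_mul] at e1
  rw [m10_mul] at e2
  rw [m11_mul] at e3
  rw [m00_mul (g * w), m11_mul (g * w), m00_mul g, m01_mul g, m10_mul g, m11_mul g]
  linear_combination (m00 D w) * e0 + (m01 D w) * e2 + (m10 D w) * e1 + (m11 D w) * e3

lemma conj_form {a g : G} {i k : ℤ} (ha : a ∈ commutator G)
    (h : a = g * (S ^ (2 * i) * T ^ k) * g⁻¹) :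
    ∃ h ∈ commutator G, ∃ k : ℤ, a = h * (S ^ 2 * T ^ 10) ^ k * h⁻¹ := by
  have h1 : S ^ (2 * i) * T ^ k ∈ commutator G := by
    have h2 := (inferInstance : (commutator G).Normal).conj_mem a ha g⁻¹
    have h3 : g⁻¹ * a * g⁻¹⁻¹ = S ^ (2 * i) * T ^ k := by rw [h]; group
    rwa [h3] at h2
  obtain ⟨l, hl⟩ := form_mem H h1
  simp only at hl
  obtain ⟨n, hn, j, rfl⟩ := coset H g
  refine ⟨n, hn, l, ?_⟩
  have hc : Commute (T ^ j) ((S ^ 2 * T ^ 10) ^ l) := by
    apply Commute.zpow_right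
    apply Commute.mul_right
    · exact (S2_comm H (T ^ j)).symm
    · exact (Commute.refl T).zpow_left j |>.pow_right 10
  rw [h, ← hl]
  have e := hc.eq
  calc n * T ^ j * (S ^ 2 * T ^ 10) ^ l * (n * T ^ j)⁻¹
      = n * (T ^ j * (S ^ 2 * T ^ 10) ^ l) * (T ^ j)⁻¹ * n⁻¹ := by
        simp only [mul_assoc, mul_inv_rev]
    _ = n * ((S ^ 2 * T ^ 10) ^ l * T ^ j) * (T ^ j)⁻¹ * n⁻¹ := by rw [e]
    _ = _ := by simp only [mul_assoc, mul_inv_cancel_left]

theorem part7 (a : G) (ha : a ∈ commutator G) :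
    (∃ h ∈ commutator G, ∃ k : ℤ, a = h * (S ^ 2 * T ^ 10) ^ k * h⁻¹) ∨
      2 < |Matrix.trace (D a : Matrix (Fin 2) (Fin 2) ℝ)| := by
  have hchi := (comm_iff H a).1 ha
  have hconj : ∀ g v : G, chi H (g * v * g⁻¹) = chi H v := by
    intro g v
    rw [map_mul, map_mul, map_inv, mul_comm (chi H g), mul_assoc, mul_inv_cancel, mul_one]
  obtain ⟨g, i, h⟩ := Good_all H a
  rcases h with ⟨L, h⟩ | h | ⟨k, h1, h2, h⟩
  · by_cases h10 : m10 D (pr S T L) = 0
    · left
      rw [pr_m10 H h10, ← zpow_natCast] at h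
      exact conj_form H ha h
    by_cases h01 : m01 D (pr S T L) = 0
    · left
      rw [pr_m01 H h01, ← zpow_natCast, ← zpow_neg] at h
      have e : a = g * S * (S ^ (2 * i) * T ^ (-(L.length : ℤ))) * (g * S)⁻¹ := by
        have hc := Seven H (2 * i) (even_two_mul i) S
        rw [h]
        calc g * (S ^ (2 * i) * (S * T ^ (-(L.length : ℤ)) * S⁻¹)) * g⁻¹
            = g * (S ^ (2 * i) * S) * T ^ (-(L.length : ℤ)) * S⁻¹ * g⁻¹ := by
              simp only [mul_assoc]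
          _ = g * (S * S ^ (2 * i)) * T ^ (-(L.length : ℤ)) * S⁻¹ * g⁻¹ := by rw [hc]
          _ = _ := by simp only [mul_assoc, mul_inv_rev]
      exact conj_form H ha e
    right
    have P := PM_pr H L
    have h3 : 1 ≤ m10 D (pr S T L) := (Phi_cases P.e10).resolve_left h10
    have h4 : 1 ≤ m01 D (pr S T L) := (Phi_cases P.e01).resolve_left h01
    have hd := m_det (D := D) (pr S T L)
    have hd0 := P.d0
    have hd1 := P.d1
    have h5 : 2 < m00 D (pr S T L) + m11 D (pr S T L) := by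
      have h6 : 1 ≤ m01 D (pr S T L) * m10 D (pr S T L) := by nlinarith
      have h7 : 2 ≤ m00 D (pr S T L) * m11 D (pr S T L) := by linarith
      nlinarith [sq_nonneg (m00 D (pr S T L) - m11 D (pr S T L))]
    rw [Matrix.trace_fin_two]
    change 2 < |m00 D a + m11 D a|
    rw [h, tr_conj]
    rcases S_even H i with e | e
    · rw [e, one_mul, abs_of_pos (by linarith)]; exact h5
    · rw [e, (m_Sq H _).1, (m_Sq H _).2.2.2, ← neg_add, abs_neg, abs_of_pos (by linarith)]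
      exact h5
  · exfalso
    rw [h, hconj, map_mul, map_zpow, chi_S, ← ofAdd_zsmul, ← ofAdd_add] at hchi
    have h1 : ((2 * i) • (5 : ZMod 20) + 5) = ((10 * i + 5 : ℤ) : ZMod 20) := by
      rw [zsmul_eq_mul]; push_cast; ring
    rw [h1, ofAdd_int_eq_one] at hchi
    omega
  · exfalso
    rw [h, hconj, map_mul, map_zpow, map_pow, map_mul, chi_S, chi_T, ← ofAdd_zsmul, ← ofAdd_add,
      ← ofAdd_nsmul, ← ofAdd_add] at hchi
    have h1 : ((2 * i) • (5 : ZMod 20) + k • (1 + 5)) = ((10 * i + 6 * (k : ℤ) : ℤ) : ZMod 20) := by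
      rw [zsmul_eq_mul, nsmul_eq_mul]; push_cast; ring
    rw [h1, ofAdd_int_eq_one] at hchi
    omega

end

theorem statementHecke : StatementHecke := by
  intro G _ S T D H
  exact ⟨inj H, cusp H, part3 H, part4 H, part5 H, part6 H, fun a ha _ => part7 H a ha⟩

end Run7.h78.MP33H
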