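import Pool.Agent.Run7.h78.MP33_HC

set_option autoImplicit false

/-! Pieces NORM and HYP. -/

open MatrixGroups

namespace Run7.h78.MP33H

open Run7.h347 Real

section

variable {G : Type} [Group G] {S T : G} {D : G →* SL(2, ℝ)}

/-- the hypotheses on the norm function -/
structure NormData (S T : G) (N : G → ℝ) : Prop where
  nonneg : ∀ w, 0 ≤ N w
  right_T : ∀ w, N (w * T) = N w
  right_S2 : ∀ w, N (w * S ^ 2) = N w
  conv : ∀ (w : G) (m : ℤ), |(m : ℝ)| * goldenRatio * N w ≤ N (w * T ^ m * S) + N (w * S)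

lemma NormData.left {N : G → ℝ} (hN : NormData S T N) (u : G) :
    NormData S T (fun w => N (u * w)) where
  nonneg w := hN.nonneg _
  right_T w := by rw [← mul_assoc]; exact hN.right_T _
  right_S2 w := by rw [← mul_assoc]; exact hN.right_S2 _
  conv w m := by
    have := hN.conv (u * w) m
    simpa only [mul_assoc] using this

lemma NormData.Tpow {N : G → ℝ} (hN : NormData S T N) (w : G) (m : ℤ) : N (w * T ^ m) = N w := by
  induction m using Int.induction_on with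
  | zero => simp
  | succ n ih => rw [zpow_add, zpow_one, ← mul_assoc, hN.right_T, ih]
  | pred n ih =>
    rw [← hN.right_T (w * T ^ (-(n : ℤ) - 1)), ← ih]
    congr 1; group

/-- the excess -/
def ex (D : G →* SL(2, ℝ)) (S : G) (N : G → ℝ) (w : G) : ℝ :=
  N w - m10 D w * N S + m00 D w * N 1

/-- comparison of two neighbours -/
def II (D : G →* SL(2, ℝ)) (S : G) (N : G → ℝ) (u v : G) : Prop :=
  0 ≤ ex D S N u ∧ 0 ≤ ex D S N v ∧ ex D S N u * m00 D v ≤ ex D S N v * m00 D u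

/-- the property of a matrix -/
def KK (D : G →* SL(2, ℝ)) (S T : G) (N : G → ℝ) (w : G) : Prop :=
  ∀ k : ℕ, II D S N (w * S) (w * (S * T ^ (-(k : ℤ)) * S⁻¹))

variable (H : HeckeData G S T D)
include H

lemma m_low (k : ℤ) : m00 D (S * T ^ (-k) * S⁻¹) = 1 ∧ m01 D (S * T ^ (-k) * S⁻¹) = 0 ∧
    m10 D (S * T ^ (-k) * S⁻¹) = k * goldenRatio ∧ m11 D (S * T ^ (-k) * S⁻¹) = 1 := by
  obtain ⟨t0, t1, t2, t3⟩ := m_T H (-k)
  obtain ⟨s0, s1, s2, s3⟩ := mSi H
  have e := m_S H (T ^ (-k))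
  rw [m00_mul (S * T ^ (-k)), m01_mul (S * T ^ (-k)), m10_mul (S * T ^ (-k)),
    m11_mul (S * T ^ (-k)), e.1, e.2.1, e.2.2.1, e.2.2.2, t0, t1, t2, t3, s0, s1, s2, s3]
  push_cast
  refine ⟨?_, ?_, ?_, ?_⟩ <;> ring

omit H in
lemma NormData.Sinv {N : G → ℝ} (hN : NormData S T N) (w : G) : N (w * S⁻¹) = N (w * S) := by
  have : w * S = w * S⁻¹ * S ^ 2 := by group
  rw [this, hN.right_S2]

lemma m_low_col (w : G) (k : ℤ) :
    m00 D (w * (S * T ^ (-k) * S⁻¹)) = m00 D w + k * goldenRatio * m01 D w ∧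
    m10 D (w * (S * T ^ (-k) * S⁻¹)) = m10 D w + k * goldenRatio * m11 D w := by
  obtain ⟨t0, t1, t2, t3⟩ := m_low H k
  rw [m00_mul w, m10_mul w, t0, t2]
  constructor <;> ring

lemma KK_one {N : G → ℝ} (hN : NormData S T N) : KK D S T N 1 := by
  intro k
  have h1 : ex D S N (1 * S) = 0 := by
    rw [one_mul, ex, (mS H).1, (mS H).2.2.1]; ring
  have c := hN.conv S (-(k : ℤ))
  have h2 : N (S * T ^ (-(k : ℤ)) * S⁻¹) = N (S * T ^ (-(k : ℤ)) * S) :=
    NormData.Sinv hN _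
  have h3 : N (S * S) = N 1 := by rw [← sq, ← one_mul (S ^ 2), hN.right_S2]
  have h4 : |((-(k : ℤ) : ℤ) : ℝ)| = k := by
    push_cast; rw [abs_neg]; exact abs_of_nonneg (Nat.cast_nonneg k)
  obtain ⟨t0, -, t2, -⟩ := m_low H (k : ℤ)
  refine ⟨h1.ge, ?_, ?_⟩
  · rw [ex, one_mul, t0, t2, h2]
    rw [h3, h4] at c
    push_cast
    linarith
  · rw [h1, one_mul (S * _ * _), one_mul S, (mS H).1]; simp

lemma KK_al3 {N : G → ℝ} (hN : NormData S T N) {w : G} (hw : KK D S T N w) :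
    KK D S T N (w * al S T 3) := by
  intro k
  have e := hw (k + 1)
  have a1 : w * al S T 3 * S = w * S * T⁻¹ := by rw [al3_eq H]; group
  have a2 : w * al S T 3 * (S * T ^ (-(k : ℤ)) * S⁻¹) =
      w * (S * T ^ (-((k + 1 : ℕ) : ℤ)) * S⁻¹) := by
    rw [al3_eq H]; push_cast; group
  have b0 : N (w * S * T⁻¹) = N (w * S) := by
    have := hN.Tpow (w * S) (-1); rwa [zpow_neg_one] at this
  have t := m_T H (-1)
  rw [zpow_neg_one] at t
  have b1 : m00 D (w * S * T⁻¹) = m00 D (w * S) := by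
    rw [m00_mul (w * S), t.1, t.2.2.1]; ring
  have b2 : m10 D (w * S * T⁻¹) = m10 D (w * S) := by
    rw [m10_mul (w * S), t.1, t.2.2.1]; ring
  have b3 : ex D S N (w * S * T⁻¹) = ex D S N (w * S) := by rw [ex, ex, b0, b1, b2]
  rw [a1, a2]
  unfold II at e ⊢
  rw [b3, b1]
  exact e

omit H in
lemma al_step (k : Fin 4) (hk : (k : ℕ) + 1 < 4) :
    al S T ⟨(k : ℕ) + 1, hk⟩ * (T⁻¹ * S⁻¹) = al S T k := by
  rw [al, al, pow_succ]
  have : T * S * S⁻¹ * (T⁻¹ * S⁻¹) = S⁻¹ := by group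
  calc (T * S) ^ ((k : ℕ) + 1) * (T * S) * S⁻¹ * (T⁻¹ * S⁻¹)
      = (T * S) ^ ((k : ℕ) + 1) * (T * S * S⁻¹ * (T⁻¹ * S⁻¹)) := by group
    _ = _ := by rw [this]

lemma KK_rule {N : G → ℝ} (hN : NormData S T N) {w : G} (hw : II D S N (w * S) w)
    (hp : 0 < m00 D w) (hq : 0 ≤ m00 D (w * (T⁻¹ * S⁻¹))) :
    KK D S T N (w * (T⁻¹ * S⁻¹)) := by
  intro k
  obtain ⟨hu, hv, huv⟩ := hw
  have g := gr_pos
  have t := m_T H (-1)
  rw [zpow_neg_one] at t
  have a1 : w * (T⁻¹ * S⁻¹) * S = w * T⁻¹ := by group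
  have a2 : w * (T⁻¹ * S⁻¹) * (S * T ^ (-(k : ℤ)) * S⁻¹) = w * T ^ (-((k : ℤ) + 1)) * S⁻¹ := by
    group
  have b0 : N (w * T⁻¹) = N w := by
    have := hN.Tpow w (-1); rwa [zpow_neg_one] at this
  have b1 : m00 D (w * T⁻¹) = m00 D w := by rw [m00_mul, t.1, t.2.2.1]; ring
  have b2 : m10 D (w * T⁻¹) = m10 D w := by rw [m10_mul, t.1, t.2.2.1]; ring
  have b3 : ex D S N (w * T⁻¹) = ex D S N w := by rw [ex, ex, b0, b1, b2]
  have c := hN.conv w (-((k : ℤ) + 1))
  have c2 : N (w * T ^ (-((k : ℤ) + 1)) * S⁻¹) = N (w * T ^ (-((k : ℤ) + 1)) * S) :=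
    NormData.Sinv hN _
  have c3 : |((-((k : ℤ) + 1) : ℤ) : ℝ)| = (k : ℝ) + 1 := by
    push_cast; rw [abs_neg]; exact abs_of_nonneg (by positivity)
  rw [c3] at c
  obtain ⟨t0, t1, t2, t3⟩ := m_T H (-((k : ℤ) + 1))
  obtain ⟨s0, s1, s2, s3⟩ := mSi H
  have d0 : m00 D (w * T ^ (-((k : ℤ) + 1)) * S⁻¹) =
      ((k : ℝ) + 1) * goldenRatio * m00 D w - m01 D w := by
    rw [m00_mul (w * T ^ (-((k : ℤ) + 1))), m00_mul, m01_mul, t0, t1, t2, t3, s0, s2]
    push_cast; ring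
  have d1 : m10 D (w * T ^ (-((k : ℤ) + 1)) * S⁻¹) =
      ((k : ℝ) + 1) * goldenRatio * m10 D w - m11 D w := by
    rw [m10_mul (w * T ^ (-((k : ℤ) + 1))), m10_mul, m11_mul, t0, t1, t2, t3, s0, s2]
    push_cast; ring
  have q0 : m00 D (w * (T⁻¹ * S⁻¹)) = goldenRatio * m00 D w - m01 D w := by
    rw [← mul_assoc, m00_mul (w * T⁻¹), m00_mul w, m01_mul w, t.1, t.2.1, t.2.2.1, t.2.2.2,
      s0, s2]
    push_cast; ring
  rw [q0] at hq
  have r := m_Sr H w
  rw [r.1] at huv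
  have exS : ex D S N (w * S) = N (w * S) - m11 D w * N S + m01 D w * N 1 := by
    rw [ex, r.1, r.2.2.1]
  set E := ex D S N (w * T ^ (-((k : ℤ) + 1)) * S⁻¹) with hE
  have exV : E = N (w * T ^ (-((k : ℤ) + 1)) * S) -
      (((k : ℝ) + 1) * goldenRatio * m10 D w - m11 D w) * N S +
      (((k : ℝ) + 1) * goldenRatio * m00 D w - m01 D w) * N 1 := by
    rw [hE, ex, d0, d1, c2]
  have exW : ex D S N w = N w - m10 D w * N S + m00 D w * N 1 := rfl
  have key : ((k : ℝ) + 1) * goldenRatio * ex D S N w ≤ E + ex D S N (w * S) := by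
    rw [exV, exS, exW]
    linarith
  have hk : (0 : ℝ) ≤ k := Nat.cast_nonneg k
  have key2 : ex D S N w * (((k : ℝ) + 1) * goldenRatio * m00 D w - m01 D w) ≤ E * m00 D w := by
    have := mul_le_mul_of_nonneg_right key hp.le
    linarith
  have hpos : 0 ≤ ((k : ℝ) + 1) * goldenRatio * m00 D w - m01 D w := by
    have : 0 ≤ (k : ℝ) * goldenRatio * m00 D w := by positivity
    linarith
  rw [a1, a2]
  refine ⟨by rw [b3]; exact hv, ?_, ?_⟩
  · by_contra hneg
    push Not at hneg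
    have h1 : E * m00 D w < 0 := mul_neg_of_neg_of_pos hneg hp
    have h2 : 0 ≤ ex D S N w * (((k : ℝ) + 1) * goldenRatio * m00 D w - m01 D w) :=
      mul_nonneg hv hpos
    linarith
  · rw [b3, b1, d0]; exact key2

omit H in
lemma KK_II {N : G → ℝ} {w : G} (hw : KK D S T N w) : II D S N (w * S) w := by
  have := hw 0
  have e : w * (S * T ^ (-((0 : ℕ) : ℤ)) * S⁻¹) = w := by simp
  rwa [e] at this

lemma KK_pr {N : G → ℝ} (hN : NormData S T N) (L : List (Fin 4)) : KK D S T N (pr S T L) := by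
  induction L using List.reverseRecOn with
  | nil => exact KK_one H hN
  | append_singleton L k ih =>
    rw [pr_append, pr_singleton]
    have P := PM_pr H L
    have st : ∀ (j : Fin 4) (hj : (j : ℕ) + 1 < 4),
        KK D S T N (pr S T L * al S T ⟨(j : ℕ) + 1, hj⟩) → KK D S T N (pr S T L * al S T j) := by
      intro j hj hK
      have h1 := KK_rule H hN (KK_II hK)
        (lt_of_lt_of_le one_pos (P.mul (PM_al H _)).d0) (by
          rw [mul_assoc, al_step j hj]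
          exact le_trans zero_le_one (P.mul (PM_al H j)).d0)
      rwa [mul_assoc, al_step j hj] at h1
    have K3 : KK D S T N (pr S T L * al S T 3) := KK_al3 H hN ih
    have K2 : KK D S T N (pr S T L * al S T 2) := st 2 (by decide) K3
    have K1 : KK D S T N (pr S T L * al S T 1) := st 1 (by decide) K2
    have K0 : KK D S T N (pr S T L * al S T 0) := st 0 (by decide) K1
    fin_cases k
    · exact K0
    · exact K1
    · exact K2
    · exact K3

/-- first half -/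
lemma lemA {N : G → ℝ} (hN : NormData S T N) (L : List (Fin 4)) :
    m10 D (pr S T L) * N S ≤ N (pr S T L) + m00 D (pr S T L) * N 1 ∧
    m11 D (pr S T L) * N S ≤ N (pr S T L * S) + m01 D (pr S T L) * N 1 := by
  obtain ⟨h1, h2, -⟩ := KK_II (KK_pr H hN L)
  have r := m_Sr H (pr S T L)
  rw [ex] at h1 h2
  rw [r.1, r.2.2.1] at h1
  constructor <;> linarith

/-- the mirrored homomorphism -/
def Dm (D : G →* SL(2, ℝ)) : G →* SL(2, ℝ) where
  toFun w := ⟨!![m11 D w, m10 D w; m01 D w, m00 D w], by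
    rw [Matrix.det_fin_two_of]
    have := m_det (D := D) w
    linarith⟩
  map_one' := by
    ext i j
    fin_cases i <;> fin_cases j <;> simp [m00_one, m01_one, m10_one, m11_one]
  map_mul' v w := by
    apply Subtype.ext
    change !![m11 D (v * w), m10 D (v * w); m01 D (v * w), m00 D (v * w)] =
      !![m11 D v, m10 D v; m01 D v, m00 D v] * !![m11 D w, m10 D w; m01 D w, m00 D w]
    rw [Matrix.mul_fin_two, m00_mul, m01_mul, m10_mul, m11_mul]
    ext i j
    fin_cases i <;> fin_cases j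
    · change _ = m11 D v * m11 D w + m10 D v * m01 D w
      change m10 D v * m01 D w + m11 D v * m11 D w = _
      ring
    · change m10 D v * m00 D w + m11 D v * m10 D w = m11 D v * m10 D w + m10 D v * m00 D w
      ring
    · change m00 D v * m01 D w + m01 D v * m11 D w = m01 D v * m11 D w + m00 D v * m01 D w
      ring
    · change m00 D v * m00 D w + m01 D v * m10 D w = m01 D v * m10 D w + m00 D v * m00 D w
      ring

omit H in
lemma m_Dm (w : G) : m00 (Dm D) w = m11 D w ∧ m01 (Dm D) w = m10 D w ∧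
    m10 (Dm D) w = m01 D w ∧ m11 (Dm D) w = m00 D w := ⟨rfl, rfl, rfl, rfl⟩

lemma mirU : S * T⁻¹ * S⁻¹ * S⁻¹ = (T * S)⁻¹ := by
  have h := S2_comm H T⁻¹
  calc S * T⁻¹ * S⁻¹ * S⁻¹ = S * (T⁻¹ * S ^ 2) * (S ^ 2)⁻¹ * (S ^ 2)⁻¹ := by group
    _ = S * (S ^ 2 * T⁻¹) * (S ^ 2)⁻¹ * (S ^ 2)⁻¹ := by rw [h]
    _ = S⁻¹ * S ^ 4 * (T⁻¹ * (S ^ 4)⁻¹) := by group
    _ = (T * S)⁻¹ := by rw [H.S4]; group

lemma mirror : HeckeData G S⁻¹ (S * T⁻¹ * S⁻¹) (Dm D) where
  gen := by
    rw [eq_top_iff, ← H.gen, Subgroup.closure_le]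
    have hS : S ∈ Subgroup.closure {S⁻¹, S * T⁻¹ * S⁻¹} := by
      have : S⁻¹ ∈ Subgroup.closure {S⁻¹, S * T⁻¹ * S⁻¹} := Subgroup.subset_closure (by simp)
      simpa using Subgroup.inv_mem _ this
    have hT : T ∈ Subgroup.closure {S⁻¹, S * T⁻¹ * S⁻¹} := by
      have h1 : S * T⁻¹ * S⁻¹ ∈ Subgroup.closure {S⁻¹, S * T⁻¹ * S⁻¹} :=
        Subgroup.subset_closure (by simp)
      have h2 := Subgroup.mul_mem _ (Subgroup.mul_mem _ (Subgroup.inv_mem _ hS) h1) hS
      have h3 : (S⁻¹ * (S * T⁻¹ * S⁻¹) * S)⁻¹ = T := by group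
      have h4 := Subgroup.inv_mem _ h2
      rwa [h3] at h4
    rintro x (rfl | rfl)
    · exact hS
    · exact hT
  S4 := by rw [inv_pow, H.S4, inv_one]
  cent := by
    have h := S2_comm H (S * T⁻¹ * S⁻¹)
    have h2 : (S⁻¹) ^ 2 = (S ^ 2)⁻¹ := by group
    rw [h2, inv_mul_eq_iff_eq_mul, ← mul_assoc, h]; group
  U5 := by
    rw [mirU H, inv_pow, H.U5]; group
  DS := by
    obtain ⟨s0, s1, s2, s3⟩ := mSi H
    change !![m11 D S⁻¹, m10 D S⁻¹; m01 D S⁻¹, m00 D S⁻¹] = _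
    rw [s0, s1, s2, s3]
  DT := by
    have h := m_low H 1
    rw [zpow_neg_one] at h
    obtain ⟨s0, s1, s2, s3⟩ := h
    change !![m11 D (S * T⁻¹ * S⁻¹), m10 D (S * T⁻¹ * S⁻¹); m01 D (S * T⁻¹ * S⁻¹),
      m00 D (S * T⁻¹ * S⁻¹)] = _
    rw [s0, s1, s2, s3]; norm_num

lemma mir_al (k : Fin 4) : al S⁻¹ (S * T⁻¹ * S⁻¹) k = al S T k.rev := by
  have h5 := H.U5
  have h10 := U10 H
  have c4 : (T * S)⁻¹ ^ ((k : ℕ) + 1) = (T * S) ^ 5 * (T * S) ^ ((k.rev : ℕ) + 1) := by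
    rw [inv_pow, inv_eq_iff_mul_eq_one, ← pow_add, ← pow_add]
    have : (k : ℕ) + 1 + (5 + ((k.rev : ℕ) + 1)) = 10 := by
      rw [Fin.val_rev]; have := k.2; omega
    rw [this, h10]
  rw [al, al, mirU H, c4, h5, S2_comm H]
  have h6 : S ^ 2 * (S⁻¹)⁻¹ = S⁻¹ := by rw [inv_inv]; exact (inv_S H).symm
  rw [mul_assoc, h6]

lemma mir_pr (L : List (Fin 4)) : pr S⁻¹ (S * T⁻¹ * S⁻¹) (L.map Fin.rev) = pr S T L := by
  induction L with
  | nil => rfl
  | cons k L ih => rw [List.map_cons, pr_cons, pr_cons, ih, mir_al H, Fin.rev_rev]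

omit H in
lemma mir_norm {N : G → ℝ} (hN : NormData S T N) :
    NormData S⁻¹ (S * T⁻¹ * S⁻¹) (fun w => N (w * S)) where
  nonneg w := hN.nonneg _
  right_T w := by
    have h : w * (S * T⁻¹ * S⁻¹) * S = w * S * T⁻¹ := by group
    have h2 := hN.Tpow (w * S) (-1)
    rw [zpow_neg_one] at h2
    rw [h, h2]
  right_S2 w := by
    have h : w * S⁻¹ ^ 2 * S * S ^ 2 = w * S := by group
    rw [← hN.right_S2 (w * S⁻¹ ^ 2 * S), h]
  conv w m := by
    have h := hN.conv (w * S) (-m)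
    have h1 : (S * T⁻¹ * S⁻¹) ^ m = S * T ^ (-m) * S⁻¹ := by
      rw [conj_zpow]; rw [inv_zpow, zpow_neg]
    have h2 : N (w * S * S) = N w := by rw [mul_assoc, ← sq, hN.right_S2]
    have h3 : N (w * S * T ^ (-m) * S) = N (w * S * T ^ (-m) * S⁻¹) := (NormData.Sinv hN _).symm
    rw [h2, h3] at h
    have h4 : |((-m : ℤ) : ℝ)| = |(m : ℝ)| := by push_cast; rw [abs_neg]
    rw [h4] at h
    have h5 : w * (S * T⁻¹ * S⁻¹) ^ m * S⁻¹ * S = w * S * T ^ (-m) * S⁻¹ := by rw [h1]; group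
    have h6 : w * S⁻¹ * S = w := by group
    rw [h5, h6]
    exact h

/-- second half -/
lemma lemB {N : G → ℝ} (hN : NormData S T N) (L : List (Fin 4)) :
    m01 D (pr S T L) * N 1 ≤ N (pr S T L * S) + m11 D (pr S T L) * N S ∧
    m00 D (pr S T L) * N 1 ≤ N (pr S T L) + m10 D (pr S T L) * N S := by
  have h := lemA (mirror H) (mir_norm hN) (L.map Fin.rev)
  rw [mir_pr H] at h
  obtain ⟨d0, d1, d2, d3⟩ := m_Dm (D := D) (pr S T L)
  rw [d0, d1, d2, d3] at h
  simpa using h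

/-- the conclusion of the norm lemma for one element -/
def NC (D : G →* SL(2, ℝ)) (S : G) (N : G → ℝ) (w : G) : Prop :=
  (m10 D w ≠ 0 → 1 ≤ |m10 D w|) ∧ |m10 D w| * N S ≤ N w + |m00 D w| * N 1

theorem norm_all {N : G → ℝ} (hN : NormData S T N) (w : G) : NC D S N w := by
  have hev : ∀ (i : ℤ) (v : G), NC D S N v → NC D S N (S ^ (2 * i) * v) := by
    intro i v hv
    rcases S_even H i with e | e
    · rwa [e, one_mul]
    · rw [e]
      obtain ⟨m0, m1, m2, m3⟩ := m_Sq H v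
      have h1 : N (S ^ 2 * v) = N v := by rw [S2_comm H, hN.right_S2]
      rw [NC, m0, m2, h1, abs_neg, abs_neg]
      simpa [NC] using hv
  have hPhi : ∀ x : ℝ, x ∈ Phi → x ≠ 0 → 1 ≤ |x| := by
    intro x hx h0
    rw [abs_of_nonneg (Phi_nonneg hx)]
    rcases Phi_cases hx with h | h
    · exact absurd h h0
    · exact h
  have hSN : NormData S T (fun w => N (S * w)) := hN.left S
  have hSS : N (S * S) = N 1 := by rw [← sq, ← one_mul (S ^ 2), hN.right_S2]
  obtain ⟨i, L, e | e | e | e⟩ := NF2 H w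
  · rw [e]
    apply hev
    have P := PM_pr H L
    refine ⟨hPhi _ P.e10, ?_⟩
    rw [abs_of_nonneg (Phi_nonneg P.e10), abs_of_nonneg (Phi_nonneg P.e00)]
    exact (lemA H hN L).1
  · rw [e]
    apply hev
    have P := PM_pr H L
    obtain ⟨m0, m1, m2, m3⟩ := m_Sr H (pr S T L)
    rw [NC, m0, m2]
    refine ⟨hPhi _ P.e11, ?_⟩
    rw [abs_of_nonneg (Phi_nonneg P.e11), abs_of_nonneg (Phi_nonneg P.e01)]
    exact (lemA H hN L).2
  · rw [e]
    apply hev
    have P := PM_pr H L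
    obtain ⟨m0, m1, m2, m3⟩ := m_S H (pr S T L)
    rw [NC, m0, m2]
    refine ⟨hPhi _ P.e00, ?_⟩
    rw [abs_of_nonneg (Phi_nonneg P.e00), abs_neg, abs_of_nonneg (Phi_nonneg P.e10)]
    have := (lemB H hSN L).2
    simp only [mul_one] at this
    rwa [hSS] at this
  · rw [e]
    apply hev
    have P := PM_pr H L
    obtain ⟨m0, m1, m2, m3⟩ := m_Sr H (S * pr S T L)
    obtain ⟨n0, n1, n2, n3⟩ := m_S H (pr S T L)
    rw [NC, m0, m2, n1, n3]
    refine ⟨hPhi _ P.e01, ?_⟩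
    rw [abs_of_nonneg (Phi_nonneg P.e01), abs_neg, abs_of_nonneg (Phi_nonneg P.e11)]
    have := (lemB H hSN L).1
    simp only [mul_one] at this
    rw [hSS, ← mul_assoc] at this
    exact this

end

theorem statementNorm : StatementNorm := by
  intro G _ S T D H N h0 h1 h2 h3 w
  exact norm_all H ⟨h0, h1, h2, h3⟩ w

/-- a nonempty set of values in `Phi` has a least element -/
lemma Phi_min {A : Set ℝ} (hA : A ⊆ Phi) (hne : A.Nonempty) : ∃ x ∈ A, ∀ y ∈ A, x ≤ y := by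
  obtain ⟨x0, hx0⟩ := hne
  obtain ⟨n, hn⟩ := exists_nat_ge x0
  have hfin : (A ∩ Set.Iic x0).Finite := by
    apply Set.Finite.subset (((Finset.range (n + 1) ×ˢ Finset.range (n + 1)).image
      (fun p : ℕ × ℕ => ((p.1 : ℝ) + goldenRatio * p.2))).finite_toSet)
    rintro y ⟨hy, hy2⟩
    obtain ⟨i, j, rfl⟩ := hA hy
    have g := gr_gt
    have hi : (0 : ℝ) ≤ i := Nat.cast_nonneg i
    have hj : (0 : ℝ) ≤ j := Nat.cast_nonneg j
    have hy3 : (i : ℝ) + goldenRatio * j ≤ n := le_trans hy2 hn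
    have h1 : i ≤ n := by
      have : (i : ℝ) ≤ n := by nlinarith
      exact_mod_cast this
    have h2 : j ≤ n := by
      have : (j : ℝ) ≤ n := by nlinarith
      exact_mod_cast this
    rw [Finset.mem_coe, Finset.mem_image]
    exact ⟨(i, j), by simp; omega, rfl⟩
  obtain ⟨x, hx, hmin⟩ := Set.exists_min_image _ (fun x => x) hfin
    ⟨x0, hx0, le_refl x0⟩
  refine ⟨x, hx.1, fun y hy => ?_⟩
  by_cases h : y ≤ x0
  · exact hmin y ⟨hy, h⟩
  · have : x ≤ x0 := hx.2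
    linarith

section

variable {G : Type} [Group G] {S T : G} {D : G →* SL(2, ℝ)}

lemma m10_sq (h : G) : m10 D (h * h) = (m00 D h + m11 D h) * m10 D h := by
  rw [m10_mul]; ring

lemma tr_sq (h : G) : m00 D (h * h) + m11 D (h * h) = (m00 D h + m11 D h) ^ 2 - 2 := by
  rw [m00_mul, m11_mul]
  have := m_det (D := D) h
  linarith

lemma m10_double {h : G} (ht : 2 < |m00 D h + m11 D h|) :
    2 < |m00 D (h * h) + m11 D (h * h)| ∧ 2 * |m10 D h| ≤ |m10 D (h * h)| := by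
  constructor
  · rw [tr_sq]
    have : 4 < (m00 D h + m11 D h) ^ 2 := by
      rw [← sq_abs]; nlinarith
    rw [abs_of_pos (by linarith)]; linarith
  · rw [m10_sq, abs_mul]
    have := abs_nonneg (m10 D h)
    nlinarith

variable (H : HeckeData G S T D)
include H

/-- the trace of elements fixing the cusp -/
lemma tr_cusp {w : G} (h : m10 D w = 0) : |m00 D w + m11 D w| = 2 := by
  obtain ⟨i, k, rfl⟩ := cusp H w h
  obtain ⟨t0, t1, t2, t3⟩ := m_T H k
  rcases S_even H i with e | e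
  · rw [e, one_mul, t0, t3]; norm_num
  · rw [e, (m_Sq H _).1, (m_Sq H _).2.2.2, t0, t3]; norm_num

end

theorem statementHyp : StatementHyp := by
  intro G _ S T D H N hPhi h1 h2 h3 h4 g hg hfix
  have hN : NormData S T N := by
    refine ⟨fun w => ?_, h1, h2, h3⟩
    obtain ⟨i, j, h⟩ := hPhi w
    exact Phi_nonneg ⟨i, j, h⟩
  obtain ⟨x, ⟨w0, rfl⟩, hmin⟩ := Phi_min (A := Set.range N)
    (by rintro _ ⟨w, rfl⟩; exact hPhi w) ⟨_, 1, rfl⟩
  have hmin2 : ∀ w, N w0 ≤ N w := fun w => hmin _ ⟨w, rfl⟩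
  -- the conjugate
  set c : G := w0⁻¹ * g * w0 with hc
  have htr : m00 D c + m11 D c = Matrix.trace (D g : Matrix (Fin 2) (Fin 2) ℝ) := by
    rw [Matrix.trace_fin_two]
    change _ = m00 D g + m11 D g
    rw [hc, mul_assoc, m00_mul w0⁻¹, m11_mul w0⁻¹, m00_mul g, m10_mul g, m01_mul g, m11_mul g]
    have e0 : m00 D (w0 * w0⁻¹) = 1 := by rw [mul_inv_cancel, m00_one]
    have e1 : m01 D (w0 * w0⁻¹) = 0 := by rw [mul_inv_cancel, m01_one]
    have e2 : m10 D (w0 * w0⁻¹) = 0 := by rw [mul_inv_cancel, m10_one]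
    have e3 : m11 D (w0 * w0⁻¹) = 1 := by rw [mul_inv_cancel, m11_one]
    rw [m00_mul] at e0
    rw [m01_mul] at e1
    rw [m10_mul] at e2
    rw [m11_mul] at e3
    linear_combination (m00 D g) * e0 + (m01 D g) * e2 + (m10 D g) * e1 + (m11 D g) * e3
  have hct : 2 < |m00 D c + m11 D c| := by rw [htr]; exact hg
  have hc0 : m10 D c ≠ 0 := by
    intro h
    have := tr_cusp H h
    linarith
  have hc1 : 1 ≤ |m10 D c| := (norm_all H hN c).1 hc0
  -- powers
  have d1 := m10_double hct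
  have d2 := m10_double d1.1
  have d3 := m10_double d2.1
  set c8 : G := c * c * (c * c) * (c * c * (c * c)) with hc8
  have hs : 8 ≤ |m10 D c8| := by linarith [d1.2, d2.2, d3.2]
  have hNc : ∀ w, N (w0 * (c * w)) = N (w0 * w) := by
    intro w
    have : w0 * (c * w) = g * (w0 * w) := by rw [hc]; group
    rw [this, hfix]
  have hN8 : N (w0 * c8) = N w0 := by
    rw [hc8]
    simp only [mul_assoc]
    rw [hNc, hNc, hNc, hNc, hNc, hNc, hNc]
    have := hNc 1
    rwa [mul_one, mul_one] at this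
  -- the inequality
  have key : ∀ k : ℤ, |m10 D c8| * N (w0 * T ^ k * S) ≤
      N w0 + |m00 D c8 - k * goldenRatio * m10 D c8| * N w0 := by
    intro k
    have h := (norm_all H (hN.left (w0 * T ^ k)) (T ^ (-k) * c8)).2
    obtain ⟨t0, t1, t2, t3⟩ := m_T H (-k)
    rw [m10_mul (T ^ (-k)), m00_mul (T ^ (-k)), t0, t1, t2, t3] at h
    simp only at h
    have e1 : w0 * T ^ k * (T ^ (-k) * c8) = w0 * c8 := by group
    have e2 : w0 * T ^ k * 1 = w0 * T ^ k := mul_one _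
    rw [e1, e2, hN8, hN.Tpow] at h
    have e3 : 0 * m00 D c8 + 1 * m10 D c8 = m10 D c8 := by ring
    have e4 : 1 * m00 D c8 + ((-k : ℤ) : ℝ) * goldenRatio * m10 D c8 =
      m00 D c8 - k * goldenRatio * m10 D c8 := by push_cast; ring
    rw [e3, e4] at h
    exact h
  have hs0 : m10 D c8 ≠ 0 := by
    intro h; rw [h, abs_zero] at hs; norm_num at hs
  have hn0 := hN.nonneg w0
  -- the minimum is zero
  have hzero : N w0 = 0 := by
    by_contra hne
    have hpos : 0 < N w0 := lt_of_le_of_ne hn0 (Ne.symm hne)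
    set q : ℝ := m00 D c8 / (m10 D c8 * goldenRatio) with hq
    set k : ℤ := round q with hk
    have hr : |q - k| ≤ 1 / 2 := abs_sub_round q
    have g0 := gr_pos
    have g2 := gr_lt
    have e1 : m00 D c8 - k * goldenRatio * m10 D c8 = (q - k) * goldenRatio * m10 D c8 := by
      rw [hq]; field_simp
    have h5 := key k
    have h6 : |m00 D c8 - k * goldenRatio * m10 D c8| ≤ goldenRatio / 2 * |m10 D c8| := by
      rw [e1, abs_mul, abs_mul, abs_of_pos g0]
      have := abs_nonneg (m10 D c8)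
      have h7 : |q - k| * goldenRatio ≤ goldenRatio / 2 := by nlinarith
      exact mul_le_mul_of_nonneg_right h7 this
    have h7 := hmin2 (w0 * T ^ k * S)
    have h8 : |m10 D c8| * N w0 ≤ N w0 + goldenRatio / 2 * |m10 D c8| * N w0 := by
      calc |m10 D c8| * N w0 ≤ |m10 D c8| * N (w0 * T ^ k * S) :=
            mul_le_mul_of_nonneg_left h7 (abs_nonneg _)
        _ ≤ _ := h5
        _ ≤ _ := by
          have := mul_le_mul_of_nonneg_right h6 hn0
          linarith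
    have h9 : |m10 D c8| ≤ 1 + goldenRatio / 2 * |m10 D c8| := by
      by_contra hcon
      push Not at hcon
      have := mul_lt_mul_of_pos_right hcon hpos
      linarith
    have g3 : goldenRatio < 1.7 := by
      have h5 : Real.sqrt 5 < 2.4 := by
        rw [Real.sqrt_lt' (by norm_num)]; norm_num
      rw [Real.goldenRatio]; linarith
    nlinarith
  have h5 := key 0
  rw [hzero] at h5
  have h6 : N (w0 * S) = 0 := by
    have e : w0 * T ^ (0 : ℤ) * S = w0 * S := by simp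
    rw [e] at h5
    have h7 := hN.nonneg (w0 * S)
    have h8 : |m10 D c8| * N (w0 * S) ≤ 0 := by linarith
    nlinarith
  exact h4 w0 ⟨hzero, h6⟩

end Run7.h78.MP33H
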