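import Pool.Agent.Run7.h78.MP33_AMALGAM

set_option autoImplicit false

/-! Piece SURFACE: the amalgam of two one-holed genus two surface groups. -/

namespace Run7.h78.MP33S

open Run7.h347 Run7.h78.MP33A Monoid

/-- product of two commutators -/
def w2 {K : Type} [Group K] (a b c e : K) : K := a * b * a⁻¹ * b⁻¹ * (c * e * c⁻¹ * e⁻¹)

lemma lift_rel2 {K : Type} [Group K] (v : Gen 2 → K) :
    FreeGroup.lift v (relator 2) =
      w2 (v (Sum.inl 0)) (v (Sum.inr 0)) (v (Sum.inl 1)) (v (Sum.inr 1)) := by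
  simp [relator, List.ofFn_succ, w2]

lemma lift_rel4 {K : Type} [Group K] (v : Gen 4 → K) :
    FreeGroup.lift v (relator 4) =
      w2 (v (Sum.inl 0)) (v (Sum.inr 0)) (v (Sum.inl 1)) (v (Sum.inr 1)) *
      w2 (v (Sum.inl 2)) (v (Sum.inr 2)) (v (Sum.inl 3)) (v (Sum.inr 3)) := by
  simp [relator, List.ofFn_succ, w2, mul_assoc]

lemma w2_inv {K : Type} [Group K] (a b c e : K) : (w2 a b c e)⁻¹ = w2 e c b a := by
  unfold w2; group

/-- values of the generators of the genus 4 group, given values of the two halves -/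
def val4 {K : Type} (u v : Gen 2 → K) : Gen 4 → K
  | Sum.inl i => ![u (Sum.inl 0), u (Sum.inl 1), v (Sum.inr 1), v (Sum.inr 0)] i
  | Sum.inr i => ![u (Sum.inr 0), u (Sum.inr 1), v (Sum.inl 1), v (Sum.inl 0)] i

lemma lift_val4 {K : Type} [Group K] (u v : Gen 2 → K)
    (h : FreeGroup.lift u (relator 2) = FreeGroup.lift v (relator 2)) :
    FreeGroup.lift (val4 u v) (relator 4) = 1 := by
  rw [lift_rel2, lift_rel2] at h
  rw [lift_rel4]
  have h1 : w2 (val4 u v (Sum.inl 0)) (val4 u v (Sum.inr 0)) (val4 u v (Sum.inl 1))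
      (val4 u v (Sum.inr 1)) = w2 (u (Sum.inl 0)) (u (Sum.inr 0)) (u (Sum.inl 1)) (u (Sum.inr 1)) :=
    rfl
  have h2 : w2 (val4 u v (Sum.inl 2)) (val4 u v (Sum.inr 2)) (val4 u v (Sum.inl 3))
      (val4 u v (Sum.inr 3)) = w2 (v (Sum.inr 1)) (v (Sum.inl 1)) (v (Sum.inr 0)) (v (Sum.inl 0)) :=
    rfl
  rw [h1, h2, h, ← w2_inv, inv_mul_cancel]

/-- the homomorphism from the genus 4 group -/
def hom4 {K : Type} [Group K] (u v : Gen 2 → K)
    (h : FreeGroup.lift u (relator 2) = FreeGroup.lift v (relator 2)) : SurfaceGroup 4 →* K :=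
  PresentedGroup.toGroup (f := val4 u v) (by
    intro r hr
    rw [Set.mem_singleton_iff] at hr
    subst hr
    exact lift_val4 u v h)

lemma hom4_of {K : Type} [Group K] (u v : Gen 2 → K)
    (h : FreeGroup.lift u (relator 2) = FreeGroup.lift v (relator 2)) (x : Gen 4) :
    hom4 u v h (PresentedGroup.of x) = val4 u v x := by
  unfold hom4
  exact PresentedGroup.toGroup.of _

lemma sg4_rel : toSurf 4 (relator 4) = 1 := by
  unfold toSurf
  exact PresentedGroup.one_of_mem (Set.mem_singleton _)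

/-- first half -/
def hA : Gen 2 → SurfaceGroup 4
  | Sum.inl i => ![ga 0, ga 1] i
  | Sum.inr i => ![gb 0, gb 1] i

/-- second half -/
def hB : Gen 2 → SurfaceGroup 4
  | Sum.inl i => ![gb 3, gb 2] i
  | Sum.inr i => ![ga 3, ga 2] i

lemma hAB : FreeGroup.lift hA (relator 2) = FreeGroup.lift hB (relator 2) := by
  rw [lift_rel2, lift_rel2]
  have h1 : toSurf 4 (relator 4) = FreeGroup.lift (fun x => toSurf 4 (FreeGroup.of x)) (relator 4) := by
    have : toSurf 4 = FreeGroup.lift (fun x => toSurf 4 (FreeGroup.of x)) := by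
      ext x; simp
    conv_lhs => rw [this]
  rw [sg4_rel, lift_rel4] at h1
  have h2 : w2 (hA (Sum.inl 0)) (hA (Sum.inr 0)) (hA (Sum.inl 1)) (hA (Sum.inr 1)) *
      w2 (ga (g := 4) 2) (gb 2) (ga 3) (gb 3) = 1 := h1.symm
  have h3 : w2 (hB (Sum.inl 0)) (hB (Sum.inr 0)) (hB (Sum.inl 1)) (hB (Sum.inr 1)) =
      (w2 (ga (g := 4) 2) (gb 2) (ga 3) (gb 3))⁻¹ := by
    rw [w2_inv]; rfl
  rw [h3]
  exact eq_inv_of_mul_eq_one_left h2

theorem statementSurface : StatementSurface := by
  classical
  rintro Γ _ A B d ⟨fA, hfA⟩ ⟨fB, hfB⟩ ⟨h, hinj⟩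
  -- the homomorphism to `Γ`
  let uA : FreeGroup (Gen 2) →* Γ := A.subtype.comp fA.toMonoidHom
  let uB : FreeGroup (Gen 2) →* Γ := B.subtype.comp fB.toMonoidHom
  have hcomp : ∀ (K : Type) [Group K] (g : FreeGroup (Gen 2) →* K) (x : FreeGroup (Gen 2)),
      FreeGroup.lift (fun y => g (FreeGroup.of y)) x = g x := by
    intro K _ g x
    have : FreeGroup.lift (fun y => g (FreeGroup.of y)) = g := by ext y; simp
    rw [this]
  have hrel : FreeGroup.lift (fun y => uA (FreeGroup.of y)) (relator 2) =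
      FreeGroup.lift (fun y => uB (FreeGroup.of y)) (relator 2) := by
    rw [hcomp, hcomp]
    exact hfA.trans hfB.symm
  let Ψ : SurfaceGroup 4 →* Γ := hom4 _ _ hrel
  -- the homomorphism to the pushout
  let P := Monoid.PushoutI (fun i => Subgroup.inclusion (h i))
  let vA : FreeGroup (Gen 2) →* P := (PushoutI.of (φ := fun i => Subgroup.inclusion (h i)) 0).comp
    fA.toMonoidHom
  let vB : FreeGroup (Gen 2) →* P := (PushoutI.of (φ := fun i => Subgroup.inclusion (h i)) 1).comp
    fB.toMonoidHom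
  have hNA : ∀ x, natHom2 A B d h (vA x) = uA x := fun x => natF_of ![A, B] d h 0 (fA x)
  have hNB : ∀ x, natHom2 A B d h (vB x) = uB x := fun x => natF_of ![A, B] d h 1 (fB x)
  have hrelP : FreeGroup.lift (fun y => vA (FreeGroup.of y)) (relator 2) =
      FreeGroup.lift (fun y => vB (FreeGroup.of y)) (relator 2) := by
    rw [hcomp, hcomp]
    apply hinj
    rw [hNA, hNB]
    exact hfA.trans hfB.symm
  let Ψ' : SurfaceGroup 4 →* P := hom4 _ _ hrelP
  have hNΨ : (natHom2 A B d h).comp Ψ' = Ψ := by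
    apply PresentedGroup.ext
    intro x
    rw [MonoidHom.comp_apply, hom4_of, hom4_of]
    rcases x with i | i <;> fin_cases i
    · exact hNA _
    · exact hNA _
    · exact hNB _
    · exact hNB _
    · exact hNA _
    · exact hNA _
    · exact hNB _
    · exact hNB _
  -- the homomorphism from the pushout
  let gA : A →* SurfaceGroup 4 := (FreeGroup.lift hA).comp fA.symm.toMonoidHom
  let gB : B →* SurfaceGroup 4 := (FreeGroup.lift hB).comp fB.symm.toMonoidHom
  let gg : ∀ i, (![A, B] : Fin 2 → Subgroup Γ) i →* SurfaceGroup 4 := fun i =>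
    match i with
    | 0 => gA
    | 1 => gB
  have hdA : (⟨d, h 0 (Subgroup.mem_zpowers d)⟩ : A) = fA (relator 2) := Subtype.ext hfA.symm
  have hdB : (⟨d, h 1 (Subgroup.mem_zpowers d)⟩ : B) = fB (relator 2) := Subtype.ext hfB.symm
  have hgen : ∀ (K : Type) [Group K] (f g : Subgroup.zpowers d →* K),
      f ⟨d, Subgroup.mem_zpowers d⟩ = g ⟨d, Subgroup.mem_zpowers d⟩ → f = g := by
    intro K _ f g hfg
    ext ⟨x, hx⟩
    obtain ⟨n, rfl⟩ := Subgroup.mem_zpowers_iff.1 hx
    have : (⟨d ^ n, hx⟩ : Subgroup.zpowers d) = ⟨d, Subgroup.mem_zpowers d⟩ ^ n := rfl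
    rw [this, map_zpow, map_zpow, hfg]
  have hgA : gA ⟨d, h 0 (Subgroup.mem_zpowers d)⟩ = FreeGroup.lift hA (relator 2) := by
    rw [hdA]
    show FreeGroup.lift hA (fA.symm (fA (relator 2))) = _
    rw [MulEquiv.symm_apply_apply]
  have hgB : gB ⟨d, h 1 (Subgroup.mem_zpowers d)⟩ = FreeGroup.lift hB (relator 2) := by
    rw [hdB]
    show FreeGroup.lift hB (fB.symm (fB (relator 2))) = _
    rw [MulEquiv.symm_apply_apply]
  let k : Subgroup.zpowers d →* SurfaceGroup 4 := gA.comp (Subgroup.inclusion (h 0))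
  have hk : ∀ i, (gg i).comp (Subgroup.inclusion (h i)) = k := by
    intro i
    fin_cases i
    · rfl
    · apply hgen
      exact (hgB.trans hAB.symm).trans hgA.symm
  let Φ : P →* SurfaceGroup 4 := PushoutI.lift gg k hk
  have hΦA : ∀ x, Φ (vA x) = FreeGroup.lift hA x := by
    intro x
    have h1 : Φ (PushoutI.of (φ := fun i => Subgroup.inclusion (h i)) 0 (fA x)) = gA (fA x) :=
      PushoutI.lift_of (φ := fun i => Subgroup.inclusion (h i)) gg k hk (i := 0) (fA x)
    refine h1.trans ?_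
    show FreeGroup.lift hA (fA.symm (fA x)) = _
    rw [MulEquiv.symm_apply_apply]
  have hΦB : ∀ x, Φ (vB x) = FreeGroup.lift hB x := by
    intro x
    have h1 : Φ (PushoutI.of (φ := fun i => Subgroup.inclusion (h i)) 1 (fB x)) = gB (fB x) :=
      PushoutI.lift_of (φ := fun i => Subgroup.inclusion (h i)) gg k hk (i := 1) (fB x)
    refine h1.trans ?_
    show FreeGroup.lift hB (fB.symm (fB x)) = _
    rw [MulEquiv.symm_apply_apply]
  have hΦΨ : Φ.comp Ψ' = MonoidHom.id _ := by
    apply PresentedGroup.ext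
    intro x
    rw [MonoidHom.comp_apply, hom4_of, MonoidHom.id_apply]
    rcases x with i | i <;> fin_cases i
    · exact (hΦA _).trans (FreeGroup.lift_apply_of)
    · exact (hΦA _).trans (FreeGroup.lift_apply_of)
    · exact (hΦB _).trans (FreeGroup.lift_apply_of)
    · exact (hΦB _).trans (FreeGroup.lift_apply_of)
    · exact (hΦA _).trans (FreeGroup.lift_apply_of)
    · exact (hΦA _).trans (FreeGroup.lift_apply_of)
    · exact (hΦB _).trans (FreeGroup.lift_apply_of)
    · exact (hΦB _).trans (FreeGroup.lift_apply_of)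
  have hΨinj : Function.Injective Ψ := by
    rw [injective_iff_map_eq_one]
    intro s hs
    rw [← hNΨ, MonoidHom.comp_apply] at hs
    have h1 : Ψ' s = 1 := hinj (by rw [hs, map_one])
    have h2 := DFunLike.congr_fun hΦΨ s
    rw [MonoidHom.comp_apply, h1, map_one] at h2
    exact h2.symm
  have hrange : Ψ.range = A ⊔ B := by
    apply le_antisymm
    · rintro _ ⟨s, rfl⟩
      have : Ψ.range ≤ A ⊔ B := by
        rw [MonoidHom.range_eq_map, ← PresentedGroup.closure_range_of, MonoidHom.map_closure,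
          Subgroup.closure_le]
        rintro _ ⟨_, ⟨x, rfl⟩, rfl⟩
        show Ψ (PresentedGroup.of x) ∈ A ⊔ B
        rw [hom4_of]
        rcases x with i | i <;> fin_cases i
        · exact Subgroup.mem_sup_left (fA _).2
        · exact Subgroup.mem_sup_left (fA _).2
        · exact Subgroup.mem_sup_right (fB _).2
        · exact Subgroup.mem_sup_right (fB _).2
        · exact Subgroup.mem_sup_left (fA _).2
        · exact Subgroup.mem_sup_left (fA _).2
        · exact Subgroup.mem_sup_right (fB _).2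
        · exact Subgroup.mem_sup_right (fB _).2
      exact this ⟨s, rfl⟩
    · rw [sup_le_iff]
      constructor
      · intro a ha
        obtain ⟨x, hx⟩ := fA.surjective ⟨a, ha⟩
        have h1 : uA x = a := congrArg Subtype.val hx
        rw [← h1]
        have : uA.range ≤ Ψ.range := by
          rw [MonoidHom.range_eq_map, ← FreeGroup.closure_range_of, MonoidHom.map_closure,
            Subgroup.closure_le]
          rintro _ ⟨_, ⟨y, rfl⟩, rfl⟩
          rcases y with i | i <;> fin_cases i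
          · exact ⟨PresentedGroup.of (Sum.inl 0), hom4_of _ _ _ _⟩
          · exact ⟨PresentedGroup.of (Sum.inl 1), hom4_of _ _ _ _⟩
          · exact ⟨PresentedGroup.of (Sum.inr 0), hom4_of _ _ _ _⟩
          · exact ⟨PresentedGroup.of (Sum.inr 1), hom4_of _ _ _ _⟩
        exact this ⟨x, rfl⟩
      · intro a ha
        obtain ⟨x, hx⟩ := fB.surjective ⟨a, ha⟩
        have h1 : uB x = a := congrArg Subtype.val hx
        rw [← h1]
        have : uB.range ≤ Ψ.range := by
          rw [MonoidHom.range_eq_map, ← FreeGroup.closure_range_of, MonoidHom.map_closure,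
            Subgroup.closure_le]
          rintro _ ⟨_, ⟨y, rfl⟩, rfl⟩
          rcases y with i | i <;> fin_cases i
          · exact ⟨PresentedGroup.of (Sum.inr 3), hom4_of _ _ _ _⟩
          · exact ⟨PresentedGroup.of (Sum.inr 2), hom4_of _ _ _ _⟩
          · exact ⟨PresentedGroup.of (Sum.inl 3), hom4_of _ _ _ _⟩
          · exact ⟨PresentedGroup.of (Sum.inl 2), hom4_of _ _ _ _⟩
        exact this ⟨x, rfl⟩
  exact ⟨((MonoidHom.ofInjective hΨinj).trans (MulEquiv.subgroupCongr hrange)).symm⟩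

end Run7.h78.MP33S
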