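import Pool.Agent.Run7.h78.MP33_T6

set_option autoImplicit false

/-! Piece T: slides, finiteness, and the statement. -/

namespace Run7.h78.MP33

open Run7.h347 FreeGroup

lemma hd_cases (e : Ed) : hd e = xF ∨ hd e = xE := by
  unfold hd; split_ifs <;> simp

lemma noDD_hd_mul (p : F3) (hp : NoDD p) (e : Ed) : NoDD (p * hd e) := by
  rcases hd_cases e with h | h
  · rw [h]; exact noDD_mul p hp 1 (by decide)
  · rw [h]; exact noDD_mul p hp 0 (by decide)

lemma noDD_pos (e : Ed) (a : ℤ) : NoDD (pos e a) := by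
  unfold pos
  split_ifs with h1 h2
  · rcases hd_cases e with h | h <;> rw [h]
    · exact noDD_3 (Subgroup.zpow_mem _ mem_r _)
    · exact noDD_4 (Subgroup.zpow_mem _ mem_l _)
  · rw [mul_one]
    rcases hd_cases e with h | h <;> rw [h]
    · exact noDD_4 (Subgroup.zpow_mem _ mem_r _)
    · exact noDD_3 (Subgroup.zpow_mem _ mem_l _)
  · apply noDD_hd_mul
    rcases hd_cases e with h | h <;> rw [h]
    · exact noDD_4 (Subgroup.zpow_mem _ mem_r _)
    · exact noDD_3 (Subgroup.zpow_mem _ mem_l _)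

lemma ge_mul_pos (e : Ed) (i a : ℤ) : ∃ a', ge e ^ i * pos e a = pos e a' := by
  by_cases h : e.1 = 0
  · refine ⟨i + a, ?_⟩
    simp only [pos, ge, if_pos h]
    rw [zpow_add]
  · refine ⟨a + 2 * i, ?_⟩
    simp only [pos, ge, if_neg h]
    have h1 : (a + 2 * i) / 2 = i + a / 2 := by omega
    have h2 : (a + 2 * i) % 2 = a % 2 := by omega
    rw [h1, h2, zpow_add, mul_assoc]

lemma pos_eq (e : Ed) (a : ℤ) : ∃ (i : ℤ) (δ : F3), pos e a = ge e ^ i * δ ∧ δ.norm ≤ 1 := by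
  by_cases h : e.1 = 0
  · exact ⟨a, 1, by simp only [pos, ge, if_pos h, mul_one], by simp⟩
  · refine ⟨a / 2, if a % 2 = 0 then 1 else hd e, by simp only [pos, ge, if_neg h], ?_⟩
    split_ifs
    · simp
    · rcases hd_cases e with h | h
      · rw [h, xF, norm_of]
      · rw [h, xE, norm_of]

lemma thF_ge (K : ℤ) (e : Ed) : thF K (ge e) = xD ^ (K * s1 e) * ge e * xD ^ (-(K * s1 e)) := by
  rcases s2_cases e with h2 | h2 <;> rcases s1_cases e with h1 | h1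
  · rw [ge_of.1 h2 h1, h1, thF_xE]; group
  · rw [ge_of.2.1 h2 h1, h1, thF_xF]; group
  · rw [ge_of.2.2.1 h2 h1, h1, MonoidHom.map_mul, thF_xE, thF_xD]; group
  · rw [ge_of.2.2.2 h2 h1, h1, MonoidHom.map_mul, thF_xF, thF_xD]; group

lemma tgF_ge (k : ℤ) (e : Ed) : tgF k (ge e) = gam ^ (k * s2 e) * ge e * gam ^ (-(k * s2 e)) := by
  rcases s2_cases e with h2 | h2 <;> rcases s1_cases e with h1 | h1
  · rw [ge_of.1 h2 h1, h2, tgF_xE]; group
  · rw [ge_of.2.1 h2 h1, h2, tgF_xF]; group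
  · rw [ge_of.2.2.1 h2 h1, h2, mul_one]
    exact tgF_conj k mem_l
  · rw [ge_of.2.2.2 h2 h1, h2, mul_one]
    apply tgF_conj k
    have : xF * xD = gam⁻¹ * (xE * xD) := by rw [gam]; group
    rw [this]
    exact Subgroup.mul_mem _ (Subgroup.inv_mem _ mem_r) mem_l

lemma thP_slide (K : ℤ) (e : Ed) (m : F3) (f : Ed) (i j : ℤ) :
    thP K e (ge e ^ i * m * ge (einv f) ^ j) f = ge e ^ i * thP K e m f * ge (einv f) ^ j := by
  have h1 : thF K (ge e ^ i) = xD ^ (K * s1 e) * ge e ^ i * xD ^ (-(K * s1 e)) := by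
    rw [MonoidHom.map_zpow, thF_ge, zpow_neg, conj_zpow]
  have h2 : thF K (ge (einv f) ^ j) =
      xD ^ (K * s1 (einv f)) * ge (einv f) ^ j * xD ^ (-(K * s1 (einv f))) := by
    rw [MonoidHom.map_zpow, thF_ge, zpow_neg, conj_zpow]
  rw [thP_eq, thP_eq, MonoidHom.map_mul, MonoidHom.map_mul, h1, h2]
  group

lemma tgP_slide (k : ℤ) (e : Ed) (m : F3) (f : Ed) (i j : ℤ) :
    tgP k e (ge e ^ i * m * ge (einv f) ^ j) f = ge e ^ i * tgP k e m f * ge (einv f) ^ j := by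
  have h1 : tgF k (ge e ^ i) = gam ^ (k * s2 e) * ge e ^ i * gam ^ (-(k * s2 e)) := by
    rw [MonoidHom.map_zpow, tgF_ge, zpow_neg, conj_zpow]
  have h2 : tgF k (ge (einv f) ^ j) =
      gam ^ (k * s2 (einv f)) * ge (einv f) ^ j * gam ^ (-(k * s2 (einv f))) := by
    rw [MonoidHom.map_zpow, tgF_ge, zpow_neg, conj_zpow]
  rw [tgP_eq, tgP_eq, MonoidHom.map_mul, MonoidHom.map_mul, h1, h2]
  group

lemma norm_eq (x : F3) : x.norm = nrm1 x + nrm2 x := by
  unfold nrm1 nrm2 FreeGroup.norm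
  generalize x.toWord = L
  induction L with
  | nil => rfl
  | cons a L ih =>
    rw [List.length_cons, List.countP_cons, List.countP_cons, ih]
    by_cases h : a.1 = 2 <;> simp [h] <;> omega

lemma finite_norm_le (n : ℕ) : {m : F3 | m.norm ≤ n}.Finite := by
  have h := List.finite_length_le (Fin 3 × Bool) n
  have h2 := h.preimage (f := fun m : F3 => m.toWord) (toWord_injective.injOn)
  exact h2

lemma small_slide {R : ℕ} {e : Ed} {m : F3} {f : Ed} (h : Small R e m f) :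
    ∃ (i j : ℤ) (m' : F3), m = ge e ^ i * m' * ge (einv f) ^ j ∧ m'.norm ≤ R + 2 := by
  obtain ⟨a, b, hab⟩ := h
  obtain ⟨i, δ, hi, hδ⟩ := pos_eq e a
  obtain ⟨j, δ', hj, hδ'⟩ := pos_eq (einv f) b
  rw [← norm_eq] at hab
  refine ⟨i, -j, δ * ((pos e a)⁻¹ * m * pos (einv f) b) * δ'⁻¹, ?_, ?_⟩
  · rw [hi, hj]; group
  · have h1 := norm_mul_le (δ * ((pos e a)⁻¹ * m * pos (einv f) b)) δ'⁻¹
    have h2 := norm_mul_le δ ((pos e a)⁻¹ * m * pos (einv f) b)
    rw [norm_inv_eq] at h1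
    omega

lemma nonPinch_slide {e : Ed} {m : F3} {f : Ed} {i j : ℤ} {m' : F3}
    (hm : m = ge e ^ i * m' * ge (einv f) ^ j) (h : NonPinch e m f) : NonPinch e m' f := by
  intro hf hmem
  apply h hf
  rw [hm]
  have h1 : ge (einv f) ∈ Subgroup.zpowers (ge e) := by
    rw [hf]
    have : einv (einv e) = e := by simp [einv]
    rw [this]
    exact Subgroup.mem_zpowers _
  exact Subgroup.mul_mem _ (Subgroup.mul_mem _ (Subgroup.zpow_mem _ (Subgroup.mem_zpowers _) _) hmem)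
    (Subgroup.zpow_mem _ h1 _)

theorem statementT : StatementT := by
  classical
  intro R
  have hfin := finite_norm_le (R + 2)
  let S : Finset (Ed × F3 × Ed) := Finset.univ ×ˢ hfin.toFinset ×ˢ Finset.univ
  have hS : ∀ (e : Ed) (m : F3) (f : Ed), m.norm ≤ R + 2 → (e, m, f) ∈ S := by
    intro e m f hm
    simp only [S, Finset.mem_product, Finset.mem_univ, true_and, and_true, Set.Finite.mem_toFinset]
    exact hm
  have hk0 : ∀ x : Ed × F3 × Ed, ∃ k0 : ℕ, NonPinch x.1 x.2.1 x.2.2 → ∀ k : ℕ, k0 ≤ k →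
      ∃ C : ℕ, ∀ K : ℕ, Blk (thP K x.1 (tgP k x.1 x.2.1 x.2.2) x.2.2) ((K : ℤ) - C) := by
    intro x
    by_cases h : NonPinch x.1 x.2.1 x.2.2
    · obtain ⟨k0, hk⟩ := key x.1 x.2.1 x.2.2 h
      exact ⟨k0, fun _ => hk⟩
    · exact ⟨0, fun h' => absurd h' h⟩
  choose k0 hk0 using hk0
  let k : ℕ := S.sup k0
  have hC : ∀ x : Ed × F3 × Ed, ∃ C : ℕ, NonPinch x.1 x.2.1 x.2.2 → x ∈ S →
      ∀ K : ℕ, Blk (thP K x.1 (tgP k x.1 x.2.1 x.2.2) x.2.2) ((K : ℤ) - C) := by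
    intro x
    by_cases h : NonPinch x.1 x.2.1 x.2.2 ∧ x ∈ S
    · obtain ⟨C, hC⟩ := hk0 x h.1 k (Finset.le_sup h.2)
      exact ⟨C, fun _ _ => hC⟩
    · exact ⟨0, fun h1 h2 => absurd ⟨h1, h2⟩ h⟩
  choose C hC using hC
  refine ⟨k, S.sup C + 2, ?_⟩
  intro K e m f hNP hSm a b
  obtain ⟨i, j, m', hm, hnorm⟩ := small_slide hSm
  have hx := hS e m' f hnorm
  obtain ⟨u, v, N, h1, h2, h3, h4⟩ := hC (e, m', f) (nonPinch_slide hm hNP) hx K
  obtain ⟨a', ha⟩ := ge_mul_pos e (-i) a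
  obtain ⟨b', hb⟩ := ge_mul_pos (einv f) j b
  have hW : (pos e a)⁻¹ * thP K e (tgP k e m f) f * pos (einv f) b =
      (pos e a')⁻¹ * thP K e (tgP k e m' f) f * pos (einv f) b' := by
    rw [hm, tgP_slide, thP_slide, ← ha, ← hb]
    group
  rw [hW]
  have h5 := nrm2_block _ _ _ (noDD_pos e a') (noDD_pos (einv f) b') u v N h1 h2 h3
  have h6 : C (e, m', f) ≤ S.sup C := Finset.le_sup hx
  push_cast
  have h7 : (C (e, m', f) : ℤ) ≤ ((S.sup C : ℕ) : ℤ) := by exact_mod_cast h6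
  linarith

end Run7.h78.MP33
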