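import Pool.Agent.Run7.h78.MaxCent

set_option autoImplicit false

open scoped commutatorElement

namespace Run7.h78

/-- A homomorphic image of a group with the normalizer condition has the normalizer condition. -/
theorem normalizerCondition_of_surjective {G H : Type*} [Group G] [Group H]
    (hN : NormalizerCondition G) (f : G →* H) (hf : Function.Surjective f) :
    NormalizerCondition H := by
  rw [normalizerCondition_iff_only_full_group_self_normalizing] at hN ⊢
  intro K hK
  have h1 := Subgroup.comap_normalizer_eq_of_surjective K hf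
  rw [hK] at h1
  have h2 := hN _ h1.symm
  rw [Subgroup.eq_top_iff']
  intro x
  obtain ⟨y, rfl⟩ := hf x
  have : y ∈ Subgroup.comap f K := by rw [h2]; exact Subgroup.mem_top y
  exact this

variable {A : Type*} [Ring A]

/-- The group `1 + I` of all units congruent to `1` modulo a left ideal `I`; if `I` is a nil
two-sided ideal this is the adjoint group of the ring `I`. -/
def adj (I : Ideal A) : Subgroup Aˣ where
  carrier := {u | (u : A) - 1 ∈ I}
  one_mem' := by simp
  mul_mem' := by
    intro u v hu hv
    have h : ((u * v : Aˣ) : A) - 1 = (u : A) * ((v : A) - 1) + ((u : A) - 1) := by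
      rw [Units.val_mul]; noncomm_ring
    show ((u * v : Aˣ) : A) - 1 ∈ I
    rw [h]
    exact I.add_mem (I.mul_mem_left _ hv) hu
  inv_mem' := by
    intro u hu
    have h : ((u⁻¹ : Aˣ) : A) - 1 = -(((u⁻¹ : Aˣ) : A) * ((u : A) - 1)) := by
      rw [mul_sub, Units.inv_mul]; noncomm_ring
    show ((u⁻¹ : Aˣ) : A) - 1 ∈ I
    rw [h]
    exact I.neg_mem (I.mul_mem_left _ hu)

theorem mem_adj {I : Ideal A} {u : Aˣ} : u ∈ adj I ↔ (u : A) - 1 ∈ I := Iff.rfl

/-- elements `1 + r` of the adjoint group -/
theorem exists_adj {I : Ideal A} (hnil : ∀ x ∈ I, IsNilpotent x) (r : A) (hr : r ∈ I) :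
    ∃ u : adj I, ((u : Aˣ) : A) = 1 + r := by
  obtain ⟨u, hu⟩ := (hnil r hr).isUnit_one_add
  refine ⟨⟨u, ?_⟩, hu⟩
  rw [mem_adj, hu]
  simpa using hr

theorem commute_adj_iff {I : Ideal A} (u v : adj I) (r s : A)
    (hu : ((u : Aˣ) : A) = 1 + r) (hv : ((v : Aˣ) : A) = 1 + s) :
    Commute u v ↔ r * s = s * r := by
  have h1 : Commute u v ↔ ((u : Aˣ) : A) * ((v : Aˣ) : A) = ((v : Aˣ) : A) * ((u : Aˣ) : A) := by
    constructor
    · intro h
      have := congrArg (fun z : adj I => ((z : Aˣ) : A)) h.eq
      simpa using this
    · intro h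
      apply Subtype.ext
      apply Units.ext
      simpa using h
  rw [h1, hu, hv]
  constructor
  · intro h
    have h2 : (1 + r) * (1 + s) - (1 + s) * (1 + r) = r * s - s * r := by noncomm_ring
    rw [h, sub_self] at h2
    exact (sub_eq_zero.1 h2.symm)
  · intro h
    have h2 : (1 + r) * (1 + s) - (1 + s) * (1 + r) = r * s - s * r := by noncomm_ring
    rw [h, sub_self] at h2
    exact sub_eq_zero.1 h2

/-- The adjoint group of a nonzero nil ideal of a prime ring never satisfies the normalizer
condition. -/
theorem prime_not_normalizerCondition (J : Ideal A)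
    (hJr : ∀ j ∈ J, ∀ s : A, j * s ∈ J) (hnil : ∀ x ∈ J, IsNilpotent x)
    (hprime : ∀ a b : A, (∀ r : A, a * r * b = 0) → a = 0 ∨ b = 0)
    (hne : ∃ y ∈ J, y ≠ 0) : ¬ NormalizerCondition (adj J) := by
  intro hN
  obtain ⟨y₀, hy₀, hy₀ne⟩ := hne
  -- primeness relative to `J`
  have hpJ : ∀ a b : A, (∀ r ∈ J, a * r * b = 0) → a = 0 ∨ b = 0 := by
    intro a b h
    by_cases hb : b = 0
    · exact Or.inr hb
    left
    -- `a * y₀ * r * b = 0` for all `r`, hence `a * s * y₀ = 0` for all `s`
    have h1 : ∀ s : A, a * s * y₀ = 0 := by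
      intro s
      have h2 : ∀ r : A, (a * s * y₀) * r * b = 0 := by
        intro r
        have h3 := h (s * y₀ * r) (hJr _ (J.mul_mem_left s hy₀) r)
        have h4 : a * s * y₀ * r * b = a * (s * y₀ * r) * b := by noncomm_ring
        rw [h4, h3]
      rcases hprime _ _ h2 with h5 | h5
      · exact h5
      · exact absurd h5 hb
    rcases hprime _ _ h1 with h5 | h5
    · exact h5
    · exact absurd h5 hy₀ne
  -- a square-zero element
  obtain ⟨x, hxJ, hx0, hxx⟩ : ∃ x ∈ J, x ≠ 0 ∧ x * x = 0 := by
    classical
    have hex : ∃ n, y₀ ^ n = 0 := hnil y₀ hy₀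
    have hfind := Nat.find_spec hex
    have hmin := fun m => Nat.find_min hex (m := m)
    set n := Nat.find hex with hn
    have h0 : n ≠ 0 := by
      intro h
      rw [h, pow_zero] at hfind
      exact hy₀ne (by rw [← one_mul y₀, hfind, zero_mul])
    have h1 : n ≠ 1 := by
      intro h
      rw [h, pow_one] at hfind
      exact hy₀ne hfind
    refine ⟨y₀ ^ (n - 1), ?_, hmin (n - 1) (by omega), ?_⟩
    · obtain ⟨k, hk⟩ : ∃ k, n - 1 = k + 1 := ⟨n - 2, by omega⟩
      rw [hk, pow_succ]
      exact J.mul_mem_left _ hy₀
    · rw [← pow_add]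
      obtain ⟨k, hk⟩ : ∃ k, n - 1 + (n - 1) = n + k := ⟨n - 2, by omega⟩
      rw [hk, pow_add, hfind, zero_mul]
  obtain ⟨ux, hux⟩ := exists_adj hnil x hxJ
  -- the centralizer of `1 + x` is maximal
  have hcen := central_of_maximal_centralizer hN ux
    (by
      intro h
      rw [h] at hux
      apply hx0
      have : (1 : A) = 1 + x := by simpa using hux
      simpa using this.symm)
    (by
      intro v hv1 hCv c hc
      obtain ⟨w, hw, hwJ⟩ : ∃ w, ((v : Aˣ) : A) = 1 + w ∧ w ∈ J :=
        ⟨((v : Aˣ) : A) - 1, by noncomm_ring, v.2⟩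
      have hw0 : w ≠ 0 := by
        intro h
        apply hv1
        apply Subtype.ext
        apply Units.ext
        simpa [h] using hw
      -- everything in `J` commuting with `x` commutes with `w`
      have hCw : ∀ d ∈ J, d * x = x * d → d * w = w * d := by
        intro d hd hdx
        obtain ⟨ud, hud⟩ := exists_adj hnil d hd
        have h1 := hCv ud ((commute_adj_iff ud ux d x hud hux).2 hdx)
        exact (commute_adj_iff ud v d w hud hw).1 h1
      have hxw : x * w = w * x := hCw x hxJ rfl
      have hstar : ∀ y ∈ J, w * (x * y) + w * (y * x) = x * y * w + y * x * w := by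
        intro y hy
        have hmem : x * y + y * x ∈ J := J.add_mem (J.mul_mem_left x hy) (J.mul_mem_left y hxJ)
        have h1 := hCw (x * y + y * x) hmem (by
          have e1 : (x * y + y * x) * x = x * y * x + y * (x * x) := by noncomm_ring
          have e2 : x * (x * y + y * x) = x * x * y + x * y * x := by noncomm_ring
          rw [e1, e2, hxx]; simp)
        have e1 : (x * y + y * x) * w = x * y * w + y * x * w := by noncomm_ring
        have e2 : w * (x * y + y * x) = w * (x * y) + w * (y * x) := by noncomm_ring
        rw [e1, e2] at h1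
        exact h1.symm
      -- `w x = 0`
      have hone : ∀ y ∈ J, (w * x) * y * x = x * y * (w * x) := by
        intro y hy
        have h1 := congrArg (fun t => x * t) (hstar y hy)
        simp only [mul_add] at h1
        have e1 : x * (w * (x * y)) = w * (x * x) * y := by
          calc x * (w * (x * y)) = (x * w) * (x * y) := by noncomm_ring
            _ = (w * x) * (x * y) := by rw [hxw]
            _ = w * (x * x) * y := by noncomm_ring
        have e2 : x * (w * (y * x)) = (w * x) * y * x := by
          calc x * (w * (y * x)) = (x * w) * (y * x) := by noncomm_ring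
            _ = (w * x) * (y * x) := by rw [hxw]
            _ = (w * x) * y * x := by noncomm_ring
        have e3 : x * (x * y * w) = (x * x) * y * w := by noncomm_ring
        have e4 : x * (y * x * w) = x * y * (w * x) := by
          calc x * (y * x * w) = x * y * (x * w) := by noncomm_ring
            _ = x * y * (w * x) := by rw [hxw]
        rw [e1, e2, e3, e4, hxx] at h1
        simpa using h1
      have hwx : w * x = 0 := by
        obtain ⟨m, hm⟩ := hnil w hwJ
        -- descend: `w ^ k * x = 0` for all `k ≥ 1`
        have hdesc : ∀ k : ℕ, w ^ (k + 2) * x = 0 → w ^ (k + 1) * x = 0 := by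
          intro k hk
          have h1 : ∀ y ∈ J, (w ^ (k + 1) * x) * y * (w * x) = 0 := by
            intro y hy
            have h2 := congrArg (fun t => w ^ (k + 1) * t) (hone y hy)
            have e1 : w ^ (k + 1) * (w * x * y * x) = w ^ (k + 2) * x * y * x := by
              rw [pow_succ w (k + 1)]; noncomm_ring
            have e2 : w ^ (k + 1) * (x * y * (w * x)) = (w ^ (k + 1) * x) * y * (w * x) := by
              noncomm_ring
            rw [e1, e2, hk] at h2
            rw [← h2]; noncomm_ring
          rcases hpJ _ _ h1 with h3 | h3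
          · exact h3
          · have : w ^ (k + 1) * x = w ^ k * (w * x) := by rw [pow_succ]; noncomm_ring
            rw [this, h3, mul_zero]
        have hall : ∀ k : ℕ, w ^ (k + 1) * x = 0 → w * x = 0 := by
          intro k
          induction k with
          | zero => intro h; simpa using h
          | succ k ih => intro h; exact ih (hdesc k h)
        exact hall m (by rw [pow_succ, hm]; simp)
      have hxw0 : x * w = 0 := by rw [hxw, hwx]
      -- `w y x = x y w`
      have htwo : ∀ y ∈ J, w * y * x = x * y * w := by
        intro y hy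
        have h1 := hstar y hy
        have e1 : w * (x * y) = (w * x) * y := by noncomm_ring
        have e2 : y * x * w = y * (x * w) := by noncomm_ring
        have e3 : w * (y * x) = w * y * x := by noncomm_ring
        rw [e1, e2, e3, hwx, hxw0] at h1
        simpa using h1
      -- conclude
      obtain ⟨d, hd, hdJ⟩ : ∃ d, ((c : Aˣ) : A) = 1 + d ∧ d ∈ J :=
        ⟨((c : Aˣ) : A) - 1, by noncomm_ring, c.2⟩
      have hdw : d * w = w * d := (commute_adj_iff c v d w hd hw).1 hc
      rw [commute_adj_iff c ux d x hd hux]
      have h1 : ∀ y ∈ J, (d * x - x * d) * y * w = 0 := by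
        intro y hy
        have e1 : (d * x - x * d) * y * w = d * (x * y * w) - x * (d * y) * w := by noncomm_ring
        have hdy : d * y ∈ J := J.mul_mem_left d hy
        rw [e1, ← htwo y hy, ← htwo (d * y) hdy]
        have e2 : d * (w * y * x) - w * (d * y) * x = (d * w - w * d) * y * x := by noncomm_ring
        rw [e2, hdw, sub_self]; noncomm_ring
      rcases hpJ _ _ h1 with h3 | h3
      · exact sub_eq_zero.1 h3
      · exact absurd h3 hw0)
  -- hence `x` is central in `J` and `x J x = 0`
  have h1 : ∀ y ∈ J, x * y * x = 0 := by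
    intro y hy
    obtain ⟨uy, huy⟩ := exists_adj hnil y hy
    have h2 := (commute_adj_iff uy ux y x huy hux).1 (hcen uy)
    rw [← h2, mul_assoc, hxx, mul_zero]
  rcases hpJ _ _ h1 with h3 | h3 <;> exact hx0 h3

end Run7.h78
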