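import Pool.Agent.Run7.h78.Adjoint

set_option autoImplicit false

namespace Run7.h78

variable {A : Type*} [Ring A]

/-- the right annihilator `{m : ∀ s ∈ S, ∀ r, s r m ∈ K}` modulo `K` -/
def annR (K : Ideal A) (S : Set A) : Ideal A where
  carrier := {m | ∀ s ∈ S, ∀ r : A, s * r * m ∈ K}
  add_mem' := by
    intro a b ha hb s hs r
    rw [mul_add]
    exact K.add_mem (ha s hs r) (hb s hs r)
  zero_mem' := by
    intro s _ r
    simp
  smul_mem' := by
    intro c m hm s hs r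
    have := hm s hs (r * c)
    simpa [smul_eq_mul, mul_assoc] using this

/-- the left annihilator `{m : ∀ s ∈ S, ∀ r, m r s ∈ K}` modulo `K` -/
def annL (K : Ideal A) (S : Set A) : Ideal A where
  carrier := {m | ∀ s ∈ S, ∀ r : A, m * r * s ∈ K}
  add_mem' := by
    intro a b ha hb s hs r
    rw [add_mul, add_mul]
    exact K.add_mem (ha s hs r) (hb s hs r)
  zero_mem' := by
    intro s _ r
    simp
  smul_mem' := by
    intro c m hm s hs r
    have := K.mul_mem_left c (hm s hs r)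
    simpa [smul_eq_mul, mul_assoc] using this

theorem mem_annR {K : Ideal A} {S : Set A} {m : A} :
    m ∈ annR K S ↔ ∀ s ∈ S, ∀ r : A, s * r * m ∈ K := Iff.rfl

theorem mem_annL {K : Ideal A} {S : Set A} {m : A} :
    m ∈ annL K S ↔ ∀ s ∈ S, ∀ r : A, m * r * s ∈ K := Iff.rfl

theorem annR_right {K : Ideal A} (hK : ∀ k ∈ K, ∀ s : A, k * s ∈ K) {S : Set A}
    (m : A) (hm : m ∈ annR K S) (t : A) : m * t ∈ annR K S := by
  intro s hs r
  have := hK _ (hm s hs r) t
  simpa [mul_assoc] using this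

theorem annL_right {K : Ideal A} {S : Set A}
    (m : A) (hm : m ∈ annL K S) (t : A) : m * t ∈ annL K S := by
  intro s hs r
  have := hm s hs (t * r)
  simpa [mul_assoc] using this

/-- A nil two-sided ideal whose adjoint group has the normalizer condition is a Baer radical ring:
each smaller two-sided ideal `K` lies strictly below a two-sided ideal `M` with `M² ⊆ K`. -/
theorem exists_square_zero_layer (I K : Ideal A)
    (hI : ∀ k ∈ I, ∀ s : A, k * s ∈ I) (hK : ∀ k ∈ K, ∀ s : A, k * s ∈ K)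
    (hnil : ∀ x ∈ I, IsNilpotent x) (hN : NormalizerCondition (adj I))
    (hKI : K < I) :
    ∃ M : Ideal A, (∀ k ∈ M, ∀ s : A, k * s ∈ M) ∧ K < M ∧ M ≤ I ∧
      ∀ m ∈ M, ∀ m' ∈ M, m * m' ∈ K := by
  classical
  by_contra hcon
  -- semiprimeness of `I / K`
  have hsemi : ∀ a ∈ I, a ∉ K → ∃ r : A, a * r * a ∉ K := by
    intro a ha haK
    by_contra hno
    push Not at hno
    apply hcon
    let M₁ : Ideal A := I ⊓ annR K {a}
    have hM₁r : ∀ k ∈ M₁, ∀ s : A, k * s ∈ M₁ := by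
      rintro k ⟨hk1, hk2⟩ s
      exact ⟨hI k hk1 s, annR_right hK k hk2 s⟩
    have haM₁ : a ∈ M₁ := ⟨ha, by
      intro s hs r
      rw [Set.mem_singleton_iff] at hs
      subst hs
      exact hno r⟩
    refine ⟨M₁ ⊓ annL K (M₁ : Set A), ?_, ?_, ?_, ?_⟩
    · rintro k ⟨hk1, hk2⟩ s
      exact ⟨hM₁r k hk1 s, annL_right k hk2 s⟩
    · have haL : a ∈ annL K (M₁ : Set A) := by
        intro s hs r
        exact hs.2 a rfl r
      have hle : K ≤ M₁ ⊓ annL K (M₁ : Set A) := by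
        intro k hk
        have h1 : k ∈ annR K {a} := by
          intro s _ r
          exact K.mul_mem_left _ hk
        have h2 : k ∈ annL K (M₁ : Set A) := by
          intro s _ r
          exact hK _ (hK _ hk r) s
        exact ⟨⟨hKI.le hk, h1⟩, h2⟩
      have haM : a ∈ M₁ ⊓ annL K (M₁ : Set A) := ⟨haM₁, haL⟩
      exact SetLike.lt_iff_le_and_exists.2 ⟨hle, a, haM, haK⟩
    · rintro k ⟨⟨hk, _⟩, _⟩
      exact hk
    · rintro m ⟨_, hm⟩ m' ⟨hm', _⟩
      have := hm m' hm' 1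
      simpa using this
  -- an m-sequence
  obtain ⟨_, a₀, ha₀, ha₀K⟩ := SetLike.lt_iff_le_and_exists.1 hKI
  choose! f hf using hsemi
  let seq : ℕ → A := fun n => Nat.rec a₀ (fun _ a => a * f a * a) n
  have hseq0 : seq 0 = a₀ := rfl
  have hseqs : ∀ n, seq (n + 1) = seq n * f (seq n) * seq n := fun n => rfl
  have hseq : ∀ n, seq n ∈ I ∧ seq n ∉ K := by
    intro n
    induction n with
    | zero => exact ⟨ha₀, ha₀K⟩
    | succ n ih =>
      rw [hseqs n]
      exact ⟨I.mul_mem_left _ ih.1, hf _ ih.1 ih.2⟩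
  -- a prime ideal avoiding the sequence
  obtain ⟨P, hKP, hP⟩ := zorn_le_nonempty₀
    {P : Ideal A | (∀ k ∈ P, ∀ s : A, k * s ∈ P) ∧ ∀ n, seq n ∉ P} (by
      intro c hc hchain y hy
      refine ⟨sSup c, ⟨?_, ?_⟩, fun z hz => le_sSup hz⟩
      · intro k hk s
        rw [Submodule.mem_sSup_of_directed ⟨y, hy⟩ hchain.directedOn] at hk ⊢
        obtain ⟨Q, hQ, hkQ⟩ := hk
        exact ⟨Q, hQ, (hc hQ).1 k hkQ s⟩
      · intro n hn
        rw [Submodule.mem_sSup_of_directed ⟨y, hy⟩ hchain.directedOn] at hn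
        obtain ⟨Q, hQ, hkQ⟩ := hn
        exact (hc hQ).2 n hkQ) K ⟨hK, fun n => (hseq n).2⟩
  have hP1 := hP.prop
  have hmono : ∀ (Q : Ideal A) (i : ℕ), seq i ∈ Q → ∀ j, seq (i + j) ∈ Q := by
    intro Q i hi j
    induction j with
    | zero => exact hi
    | succ j ih =>
      have : seq (i + (j + 1)) = seq (i + j) * f (seq (i + j)) * seq (i + j) := hseqs (i + j)
      rw [this]
      exact Q.mul_mem_left _ ih
  have hbig : ∀ Q : Ideal A, (∀ k ∈ Q, ∀ s : A, k * s ∈ Q) → P < Q → ∃ n, seq n ∈ Q := by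
    intro Q hQ hPQ
    by_contra hno
    push Not at hno
    exact hPQ.not_ge (hP.le_of_ge ⟨hQ, hno⟩ hPQ.le)
  have hprime : ∀ a b : A, (∀ r : A, a * r * b ∈ P) → a ∈ P ∨ b ∈ P := by
    intro a b h
    by_contra hno
    push Not at hno
    let U : Ideal A := annL P {b}
    have hUr : ∀ k ∈ U, ∀ s : A, k * s ∈ U := fun k hk s => annL_right k hk s
    have hPU : P < U := by
      refine SetLike.lt_iff_le_and_exists.2 ⟨?_, a, ?_, hno.1⟩
      · intro k hk s _ r
        exact hP1.1 _ (hP1.1 _ hk r) s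
      · intro s hs r
        rw [Set.mem_singleton_iff] at hs
        subst hs
        exact h r
    let V : Ideal A := annR P (U : Set A)
    have hVr : ∀ k ∈ V, ∀ s : A, k * s ∈ V := fun k hk s => annR_right hP1.1 k hk s
    have hPV : P < V := by
      refine SetLike.lt_iff_le_and_exists.2 ⟨?_, b, ?_, hno.2⟩
      · intro k hk s _ r
        exact P.mul_mem_left _ hk
      · intro s hs r
        exact hs b rfl r
    obtain ⟨i, hi⟩ := hbig U hUr hPU
    obtain ⟨j, hj⟩ := hbig V hVr hPV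
    have h1 : seq (i + j) ∈ U := hmono U i hi j
    have h2 : seq (i + j) ∈ V := by rw [add_comm]; exact hmono V j hj i
    apply hP1.2 (i + j + 1)
    rw [hseqs]
    exact h2 _ h1 _
  -- pass to the quotient ring
  have : P.IsTwoSided := ⟨fun {a} b ha => hP1.1 a ha b⟩
  let π : A →+* A ⧸ P := Ideal.Quotient.mk P
  have hπ : Function.Surjective π := Ideal.Quotient.mk_surjective
  have hπ0 : ∀ x, π x = 0 ↔ x ∈ P := fun x => Ideal.Quotient.eq_zero_iff_mem
  let J : Ideal (A ⧸ P) := I.map π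
  have hJ : ∀ y, y ∈ J ↔ ∃ x, x ∈ I ∧ π x = y := fun y =>
    Ideal.mem_map_iff_of_surjective π hπ
  have hJr : ∀ j ∈ J, ∀ s : A ⧸ P, j * s ∈ J := by
    intro j hj s
    obtain ⟨x, hx, rfl⟩ := (hJ j).1 hj
    obtain ⟨s, rfl⟩ := hπ s
    exact (hJ _).2 ⟨x * s, hI x hx s, map_mul π x s⟩
  have hJnil : ∀ x ∈ J, IsNilpotent x := by
    intro y hy
    obtain ⟨x, hx, rfl⟩ := (hJ y).1 hy
    exact (hnil x hx).map π
  have hJprime : ∀ a b : A ⧸ P, (∀ r : A ⧸ P, a * r * b = 0) → a = 0 ∨ b = 0 := by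
    intro a b h
    obtain ⟨a, rfl⟩ := hπ a
    obtain ⟨b, rfl⟩ := hπ b
    rw [hπ0, hπ0]
    apply hprime
    intro r
    rw [← hπ0, map_mul, map_mul]
    exact h (π r)
  have hJne : ∃ y ∈ J, y ≠ 0 := by
    refine ⟨π (seq 0), (hJ _).2 ⟨_, (hseq 0).1, rfl⟩, ?_⟩
    rw [Ne, hπ0]
    exact hP1.2 0
  refine prime_not_normalizerCondition J hJr hJnil hJprime hJne ?_
  -- `adj J` is an image of `adj I`
  let φ₀ : adj I →* (A ⧸ P)ˣ := (Units.map (π : A →* A ⧸ P)).comp (adj I).subtype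
  have hφ₀ : ∀ u, φ₀ u ∈ adj J := by
    intro u
    rw [mem_adj]
    refine (hJ _).2 ⟨((u : Aˣ) : A) - 1, u.2, ?_⟩
    rw [map_sub, map_one]
    rfl
  refine normalizerCondition_of_surjective hN (φ₀.codRestrict (adj J) hφ₀) ?_
  rintro ⟨v, hv⟩
  obtain ⟨x, hx, hxv⟩ := (hJ _).1 hv
  obtain ⟨u, hu⟩ := exists_adj hnil x hx
  refine ⟨u, ?_⟩
  apply Subtype.ext
  apply Units.ext
  show π ((u : Aˣ) : A) = (v : A ⧸ P)
  rw [hu, map_add, map_one, hxv]
  noncomm_ring

/-- Hyperabelianity of the adjoint group of a nil ideal with the normalizer condition. -/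
theorem hyperabelian_adj (I : Ideal A) (hI : ∀ k ∈ I, ∀ s : A, k * s ∈ I)
    (hnil : ∀ x ∈ I, IsNilpotent x) (hN : NormalizerCondition (adj I))
    (N : Subgroup (adj I)) (hNn : N.Normal) (hne : N ≠ ⊤) :
    ∃ B : Subgroup (adj I), B.Normal ∧ N < B ∧ ∀ x ∈ B, ∀ y ∈ B, x * y * x⁻¹ * y⁻¹ ∈ N := by
  classical
  -- the set of two-sided ideals `K ≤ I` with `1 + K ≤ N`
  let good : Set (Ideal A) := {K | (∀ k ∈ K, ∀ s : A, k * s ∈ K) ∧ K ≤ I ∧
    ∀ u : adj I, ((u : Aˣ) : A) - 1 ∈ K → u ∈ N}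
  obtain ⟨K, -, hKmax⟩ := zorn_le_nonempty₀ good (by
      intro c hc hchain y hy
      refine ⟨sSup c, ⟨?_, sSup_le fun Q hQ => (hc hQ).2.1, ?_⟩, fun z hz => le_sSup hz⟩
      · intro k hk s
        rw [Submodule.mem_sSup_of_directed ⟨y, hy⟩ hchain.directedOn] at hk ⊢
        obtain ⟨Q, hQ, hkQ⟩ := hk
        exact ⟨Q, hQ, (hc hQ).1 k hkQ s⟩
      · intro u hu
        rw [Submodule.mem_sSup_of_directed ⟨y, hy⟩ hchain.directedOn] at hu
        obtain ⟨Q, hQ, huQ⟩ := hu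
        exact (hc hQ).2.2 u huQ) ⊥ ⟨by
          intro k hk s
          rw [Ideal.mem_bot] at hk
          rw [hk, zero_mul]
          exact Ideal.zero_mem _, bot_le, by
          intro u hu
          rw [Ideal.mem_bot, sub_eq_zero] at hu
          have : u = 1 := by
            apply Subtype.ext
            apply Units.ext
            simpa using hu
          rw [this]
          exact N.one_mem⟩
  obtain ⟨hKr, hKI, hKN⟩ := hKmax.prop
  have hKlt : K < I := by
    refine lt_of_le_of_ne hKI ?_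
    intro h
    apply hne
    rw [Subgroup.eq_top_iff']
    intro u
    apply hKN
    rw [h]
    exact u.2
  obtain ⟨M, hMr, hKM, hMI, hMM⟩ := exists_square_zero_layer I K hI hKr hnil hN hKlt
  -- the normal subgroup `1 + M`
  let T : Subgroup (adj I) := (adj M).subgroupOf (adj I)
  have hT : ∀ u : adj I, u ∈ T ↔ ((u : Aˣ) : A) - 1 ∈ M := fun u => Iff.rfl
  have hTn : T.Normal := by
    constructor
    intro u hu g
    rw [hT] at hu ⊢
    have e : (((g * u * g⁻¹ : adj I) : Aˣ) : A) - 1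
        = ((g : Aˣ) : A) * (((u : Aˣ) : A) - 1) * (((g : Aˣ)⁻¹ : Aˣ) : A) := by
      rw [mul_sub, sub_mul, mul_one, Units.mul_inv]
      simp
    rw [e]
    exact hMr _ (M.mul_mem_left _ hu) _
  refine ⟨N ⊔ T, inferInstance, ?_, ?_⟩
  · refine lt_of_le_of_ne le_sup_left ?_
    intro h
    have hTN : T ≤ N := by rw [h]; exact le_sup_right
    have : M ∈ good := ⟨hMr, hMI, fun u hu => hTN ((hT u).2 hu)⟩
    exact hKM.not_ge (hKmax.le_of_ge this hKM.le)
  · -- commutators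
    have hcomm : ∀ x ∈ T, ∀ y ∈ T, x * y * x⁻¹ * y⁻¹ ∈ N := by
      intro x hx y hy
      apply hKN
      rw [hT] at hx hy
      have e : (((x * y * x⁻¹ * y⁻¹ : adj I) : Aˣ) : A) - 1
          = ((((x : Aˣ) : A) - 1) * (((y : Aˣ) : A) - 1)
            - (((y : Aˣ) : A) - 1) * (((x : Aˣ) : A) - 1))
            * ((((x : Aˣ)⁻¹ : Aˣ) : A) * (((y : Aˣ)⁻¹ : Aˣ) : A)) := by
        have e1 : ((((x : Aˣ) : A) - 1) * (((y : Aˣ) : A) - 1)
            - (((y : Aˣ) : A) - 1) * (((x : Aˣ) : A) - 1))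
            = ((x : Aˣ) : A) * ((y : Aˣ) : A) - ((y : Aˣ) : A) * ((x : Aˣ) : A) := by
          noncomm_ring
        rw [e1, sub_mul]
        have e2 : ((y : Aˣ) : A) * ((x : Aˣ) : A) *
            ((((x : Aˣ)⁻¹ : Aˣ) : A) * (((y : Aˣ)⁻¹ : Aˣ) : A)) = 1 := by
          rw [mul_assoc, ← mul_assoc ((x : Aˣ) : A), Units.mul_inv, one_mul, Units.mul_inv]
        rw [e2]
        simp [mul_assoc]
      rw [e]
      exact hKr _ (K.sub_mem (hMM _ hx _ hy) (hMM _ hy _ hx)) _
    let q : adj I →* adj I ⧸ N := QuotientGroup.mk' N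
    have hq : ∀ z, q z = 1 ↔ z ∈ N := fun z => QuotientGroup.eq_one_iff z
    intro x hx y hy
    obtain ⟨n, hn, t, ht, rfl⟩ := Subgroup.mem_sup_of_normal_right.1 hx
    obtain ⟨n', hn', t', ht', rfl⟩ := Subgroup.mem_sup_of_normal_right.1 hy
    rw [← hq]
    simp only [map_mul, map_inv]
    rw [(hq n).2 hn, (hq n').2 hn', one_mul, one_mul]
    rw [← map_mul, ← map_inv, ← map_inv, ← map_mul, ← map_mul, hq]
    exact hcomm t ht t' ht'

end Run7.h78
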