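import Pool.Agent.Run7.h78.Adjoint

set_option autoImplicit false

open scoped commutatorElement

namespace Run7.h78

section basic

variable {G : Type*} [Group G]

/-- In a torsion-free group with the normalizer condition an element commuting with a proper power
of `x` commutes with `x`. -/
theorem commute_of_commute_pow (hN : NormalizerCondition G)
    (htf : ∀ g : G, g ≠ 1 → ¬ IsOfFinOrder g) {x y : G} {n : ℕ} (hn : 0 < n)
    (h : Commute (x ^ n) y) : Commute x y := by
  classical
  by_contra hcon
  let q : ℕ → G := fun n => Nat.rec y (fun _ z => ⁅z, x⁆) n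
  have hq0 : q 0 = y := rfl
  have hqs : ∀ k, q (k + 1) = ⁅q k, x⁆ := fun k => rfl
  -- all `q k` commute with `x ^ n`
  have hqc : ∀ k, Commute (x ^ n) (q k) := by
    intro k
    induction k with
    | zero => exact h
    | succ k ih =>
      rw [hqs k, commutatorElement_def]
      have h1 : Commute (x ^ n) x := (Commute.refl x).pow_left n
      exact ((ih.mul_right h1).mul_right ih.inv_right).mul_right h1.inv_right
  obtain ⟨m, hm⟩ := Pool.Agent.Helper794NC.seq_mem hN (fun _ => x) q hqs
  have hex : ∃ k, q (k + 1) = 1 := by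
    refine ⟨m, ?_⟩
    have : (Set.range (fun _ : ℕ => x)) = {x} := by
      ext z; simp [eq_comm]
    rw [this, ← Subgroup.zpowers_eq_closure] at hm
    obtain ⟨k, hk⟩ := Subgroup.mem_zpowers_iff.1 hm
    rw [hqs m, ← hk]
    exact commutatorElement_eq_one_iff_commute.2 ((Commute.refl x).zpow_left k)
  have hspec := Nat.find_spec hex
  have hmin := fun k => Nat.find_min hex (m := k)
  set k := Nat.find hex with hk
  have hk0 : k ≠ 0 := by
    intro h0
    rw [h0] at hspec
    change ⁅y, x⁆ = 1 at hspec
    exact hcon (commutatorElement_eq_one_iff_commute.1 hspec).symm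
  obtain ⟨l, hl⟩ := Nat.exists_eq_succ_of_ne_zero hk0
  have hv : q (l + 1) ≠ 1 := hmin l (by omega)
  -- `v = [u, x]` commutes with `x`
  have hvx : Commute (q (l + 1)) x := by
    have h1 : q (l + 1 + 1) = 1 := by
      have : l + 1 = k := hl.symm
      rw [this]; exact hspec
    rw [hqs (l + 1)] at h1
    exact commutatorElement_eq_one_iff_commute.1 h1
  have hux : q l * x * (q l)⁻¹ = q (l + 1) * x := by
    rw [hqs l, commutatorElement_def]; group
  have h2 : (q l * x * (q l)⁻¹) ^ n = q (l + 1) ^ n * x ^ n := by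
    rw [hux, hvx.mul_pow]
  rw [conj_pow] at h2
  have h3 : q l * x ^ n * (q l)⁻¹ = x ^ n := by
    rw [← (hqc l).eq]; group
  rw [h3] at h2
  have h4 : q (l + 1) ^ n = 1 := by
    have := h2.symm
    rwa [mul_eq_right] at this
  exact htf _ hv (isOfFinOrder_iff_pow_eq_one.2 ⟨n, hn, h4⟩)

/-- A group with the normalizer condition has a nontrivial centre as soon as, for some `x ≠ 1`,
there is no infinite strictly ascending chain of centralizers of nontrivial elements that centralize
the centralizer of `x`. -/
theorem exists_central_of_acc (hN : NormalizerCondition G) (x : G) (hx : x ≠ 1)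
    (hacc : ¬ ∃ v : ℕ → G, (∀ n, v n ≠ 1) ∧ (∀ n, ∀ c, Commute c x → Commute c (v n)) ∧
      (∀ n, ∀ c, Commute c (v n) → Commute c (v (n + 1))) ∧
      (∀ n, ∃ c, Commute c (v (n + 1)) ∧ ¬ Commute c (v n))) :
    ∃ z : G, z ≠ 1 ∧ ∀ g : G, Commute g z := by
  classical
  by_contra hcon
  push Not at hcon
  have hstep : ∀ w : G, w ≠ 1 → ∃ v : G, v ≠ 1 ∧ (∀ c : G, Commute c w → Commute c v) ∧
      ∃ c : G, Commute c v ∧ ¬ Commute c w := by
    intro w hw
    by_contra hno
    push Not at hno
    obtain ⟨g, hg⟩ := hcon w hw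
    exact hg (central_of_maximal_centralizer hN w hw hno g)
  choose! f hf1 hf2 hf3 using hstep
  apply hacc
  let v : ℕ → G := fun n => Nat.rec x (fun _ w => f w) n
  have hv0 : v 0 = x := rfl
  have hvs : ∀ n, v (n + 1) = f (v n) := fun n => rfl
  have hne : ∀ n, v n ≠ 1 := by
    intro n
    induction n with
    | zero => exact hx
    | succ n ih => rw [hvs n]; exact hf1 _ ih
  refine ⟨v, hne, ?_, ?_, ?_⟩
  · intro n
    induction n with
    | zero => intro c hc; exact hc
    | succ n ih => intro c hc; rw [hvs n]; exact hf2 _ (hne n) c (ih c hc)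
  · intro n c hc
    rw [hvs n]; exact hf2 _ (hne n) c hc
  · intro n
    rw [hvs n]; exact hf3 _ (hne n)

end basic

/-- The double centralizer of some nontrivial element has finite rank. -/
def FiniteRankDoubleCentralizer (G : Type*) [Group G] : Prop :=
  ∃ x : G, x ≠ 1 ∧ ∃ S : Finset G,
    (∀ s ∈ S, s ∈ Subgroup.centralizer (Subgroup.centralizer {x} : Set G)) ∧
    ∀ z ∈ Subgroup.centralizer (Subgroup.centralizer {x} : Set G),
      ∃ n : ℕ, 0 < n ∧ z ^ n ∈ Subgroup.closure (S : Set G)

section rank

variable {G : Type*} [Group G]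

theorem mem_dc {x z : G} : z ∈ Subgroup.centralizer (Subgroup.centralizer {x} : Set G) ↔
    ∀ c, Commute c x → Commute c z := by
  rw [Subgroup.mem_centralizer_iff]
  constructor
  · intro h c hc
    exact h c (Subgroup.mem_centralizer_singleton_iff.2 hc.eq)
  · intro h c hc
    exact (h c (Subgroup.mem_centralizer_singleton_iff.1 hc)).eq

theorem exists_central_of_finiteRank (hN : NormalizerCondition G)
    (htf : ∀ g : G, g ≠ 1 → ¬ IsOfFinOrder g) (h : FiniteRankDoubleCentralizer G) :
    ∃ z : G, z ≠ 1 ∧ ∀ g : G, Commute g z := by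
  classical
  obtain ⟨x, hx, S, hS, hfin⟩ := h
  refine exists_central_of_acc hN x hx ?_
  rintro ⟨v, hv1, hvx, hvm, hvs⟩
  -- the elements of `S` commute pairwise
  have hSc : ∀ a ∈ (S : Set G), ∀ b ∈ (S : Set G), a * b = b * a := by
    intro a ha b hb
    have h1 : Commute x b := mem_dc.1 (hS b hb) x (Commute.refl x)
    exact (mem_dc.1 (hS a ha) b h1.symm).eq.symm
  let K := Subgroup.closure (S : Set G)
  letI : CommGroup K := Subgroup.closureCommGroupOfComm hSc
  have hfg : Group.FG K := Group.closure_finset_fg S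
  have hfgA : AddGroup.FG (Additive K) := by
    exact GroupFG.iff_add_fg.1 hfg
  have hMF : Module.Finite ℤ (Additive K) := Module.Finite.iff_addGroup_fg.2 hfgA
  choose m hm0 hm using fun n => hfin (v n) (mem_dc.2 (hvx n))
  let w : ℕ → Additive K := fun n => Additive.ofMul ⟨v n ^ m n, hm n⟩
  have hmono : ∀ i j, i ≤ j → ∀ c, Commute c (v i) → Commute c (v j) := by
    intro i j hij
    induction j, hij using Nat.le_induction with
    | base => intro c hc; exact hc
    | succ j _ ih => intro c hc; exact hvm j c (ih c hc)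
  have hlin : LinearIndependent ℤ w := by
    rw [linearIndependent_iff']
    intro s g hsum
    by_contra hcon
    push Not at hcon
    have hex : ∃ i, i ∈ s ∧ g i ≠ 0 := hcon
    have hspec := Nat.find_spec hex
    have hmin := fun k => Nat.find_min hex (m := k)
    set i := Nat.find hex with hi
    obtain ⟨his, hgi⟩ := hspec
    let D : AddSubgroup (Additive K) := Subgroup.toAddSubgroup
      ((Subgroup.centralizer {c | Commute c (v (i + 1))}).comap K.subtype)
    have hDmem : ∀ a : K, Additive.ofMul a ∈ D ↔
        ∀ c, Commute c (v (i + 1)) → Commute c (a : G) := by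
      intro a
      change (a : G) ∈ Subgroup.centralizer {c | Commute c (v (i + 1))} ↔ _
      rw [Subgroup.mem_centralizer_iff]
      exact ⟨fun h c hc => h c hc, fun h c hc => (h c hc).eq⟩
    have hwD : ∀ j, i + 1 ≤ j → w j ∈ D := by
      intro j hj
      refine (hDmem _).2 fun c hc => ?_
      exact (hmono (i + 1) j hj c hc).pow_right (m j)
    have hrest : ∑ j ∈ s.erase i, g j • w j ∈ D := by
      refine AddSubgroup.sum_mem D fun j hj => ?_
      rw [Finset.mem_erase] at hj
      rcases lt_or_gt_of_ne hj.1 with h1 | h1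
      · have h2 : g j = 0 := by
          by_contra h3
          exact hmin j h1 ⟨hj.2, h3⟩
        rw [h2, zero_smul]
        exact D.zero_mem
      · exact D.zsmul_mem (hwD j h1) (g j)
    have hgiD : g i • w i ∈ D := by
      have h1 : g i • w i = -(∑ j ∈ s.erase i, g j • w j) := by
        rw [eq_neg_iff_add_eq_zero, Finset.add_sum_erase s (fun j => g j • w j) his, hsum]
      rw [h1]
      exact D.neg_mem hrest
    have hnat : ((g i).natAbs) • w i ∈ D := by
      rcases Int.natAbs_eq (g i) with h1 | h1
      · rw [h1, natCast_zsmul] at hgiD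
        exact hgiD
      · rw [h1, neg_smul, natCast_zsmul] at hgiD
        have := D.neg_mem hgiD
        rwa [neg_neg] at this
    obtain ⟨c, hc1, hc2⟩ := hvs i
    apply hc2
    have h5 : Commute c ((v i ^ m i) ^ (g i).natAbs) :=
      (hDmem ((⟨v i ^ m i, hm i⟩ : K) ^ (g i).natAbs)).1 hnat c hc1
    rw [← pow_mul] at h5
    exact (commute_of_commute_pow hN htf
      (Nat.mul_pos (hm0 i) (Int.natAbs_pos.2 hgi)) h5.symm).symm
  have := hlin.finite_of_isNoetherian
  exact not_finite ℕ

end rank

end Run7.h78
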