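import Pool.Agent.Run7.h78.DoubleCent

set_option autoImplicit false

open scoped commutatorElement

namespace Run7.h78

variable {G : Type*} [Group G]

/-- quotients inherit the normalizer condition (any universe) -/
theorem normalizerCondition_quot (hN : NormalizerCondition G) (K : Subgroup G) [K.Normal] :
    NormalizerCondition (G ⧸ K) :=
  normalizerCondition_of_surjective hN (QuotientGroup.mk' K) (QuotientGroup.mk'_surjective K)

/-- If every nontrivial torsion-free quotient of a torsion-free group with the normalizer condition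
has a nontrivial centre, then the group is hypercentral. -/
theorem hypercentral_of_quotients (hN : NormalizerCondition G)
    (htf : ∀ g : G, g ≠ 1 → ¬ IsOfFinOrder g)
    (hq : ∀ (K : Subgroup G) [K.Normal], K ≠ ⊤ →
      (∀ (g : G) (n : ℕ), 0 < n → g ^ n ∈ K → g ∈ K) →
      ∃ z : G ⧸ K, z ≠ 1 ∧ ∀ g : G ⧸ K, Commute g z) :
    ∀ N : Subgroup G, N.Normal → N ≠ ⊤ → ∃ z : G, z ∉ N ∧ ∀ g : G, g * z * g⁻¹ * z⁻¹ ∈ N := by
  classical
  let P : Set (Subgroup G) := {M | M.Normal ∧ (∀ (g : G) (n : ℕ), 0 < n → g ^ n ∈ M → g ∈ M) ∧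
    ∀ K : Subgroup G, K.Normal → ¬ M ≤ K → ∃ z ∈ M, z ∉ K ∧ ∀ g : G, g * z * g⁻¹ * z⁻¹ ∈ K}
  have hbot : (⊥ : Subgroup G) ∈ P := by
    refine ⟨inferInstance, ?_, ?_⟩
    · intro g n hn h
      rw [Subgroup.mem_bot] at h ⊢
      by_contra hg
      exact htf g hg (isOfFinOrder_iff_pow_eq_one.2 ⟨n, hn, h⟩)
    · intro K _ h
      exact absurd bot_le h
  obtain ⟨M, _, hM⟩ := zorn_le_nonempty₀ P (by
      intro c hc hchain y hy
      have hmem : ∀ g : G, g ∈ sSup c ↔ ∃ K ∈ c, g ∈ K := fun g =>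
        Subgroup.mem_sSup_of_directedOn ⟨y, hy⟩ hchain.directedOn
      refine ⟨sSup c, ⟨⟨?_⟩, ?_, ?_⟩, fun z hz => le_sSup hz⟩
      · intro n hn g
        obtain ⟨K, hK, hnK⟩ := (hmem n).1 hn
        exact (hmem _).2 ⟨K, hK, (hc hK).1.conj_mem n hnK g⟩
      · intro g n hn hg
        obtain ⟨K, hK, hnK⟩ := (hmem _).1 hg
        exact (hmem _).2 ⟨K, hK, (hc hK).2.1 g n hn hnK⟩
      · intro K hK hnle
        have hex : ∃ M ∈ c, ¬ M ≤ K := by
          by_contra hno
          push Not at hno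
          exact hnle (sSup_le hno)
        obtain ⟨M, hMc, hMK⟩ := hex
        obtain ⟨z, hz, hzK, hcen⟩ := (hc hMc).2.2 K hK hMK
        exact ⟨z, (hmem z).2 ⟨M, hMc, hz⟩, hzK, hcen⟩) ⊥ hbot
  obtain ⟨hMn, hMi, hMP⟩ := hM.prop
  have hMtop : M = ⊤ := by
    by_contra hne
    have := hMn
    obtain ⟨z, hz1, hzc⟩ := hq M hne hMi
    have hNq := normalizerCondition_quot hN M
    have htfq : ∀ g : G ⧸ M, g ≠ 1 → ¬ IsOfFinOrder g := by
      intro g hg hfin
      obtain ⟨g, rfl⟩ := QuotientGroup.mk'_surjective M g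
      obtain ⟨n, hn, h⟩ := isOfFinOrder_iff_pow_eq_one.1 hfin
      apply hg
      rw [← map_pow] at h
      exact (QuotientGroup.eq_one_iff g).2 (hMi g n hn ((QuotientGroup.eq_one_iff _).1 h))
    let M₂ : Subgroup G := (Subgroup.center (G ⧸ M)).comap (QuotientGroup.mk' M)
    have hm2 : ∀ g : G, g ∈ M₂ ↔ ∀ h : G ⧸ M, Commute h (QuotientGroup.mk' M g) := by
      intro g
      rw [Subgroup.mem_comap, Subgroup.mem_center_iff]
      rfl
    have hle : M ≤ M₂ := by
      intro g hg
      rw [hm2]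
      intro h
      have : QuotientGroup.mk' M g = 1 := (QuotientGroup.eq_one_iff g).2 hg
      rw [this]
      exact Commute.one_right h
    have hM₂ : M₂ ∈ P := by
      refine ⟨inferInstance, ?_, ?_⟩
      · intro g n hn hg
        rw [hm2] at hg ⊢
        intro h
        have h1 := hg h
        rw [map_pow] at h1
        exact (commute_of_commute_pow hNq htfq hn h1.symm).symm
      · intro K hK hnle
        by_cases hMK : M ≤ K
        · obtain ⟨g, hg, hgK⟩ := Set.not_subset.1 hnle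
          refine ⟨g, hg, hgK, fun h => hMK ?_⟩
          have h1 : Commute (QuotientGroup.mk' M h) (QuotientGroup.mk' M g) :=
            (hm2 g).1 hg (QuotientGroup.mk' M h)
          have h2 : QuotientGroup.mk' M (h * g * h⁻¹ * g⁻¹) = 1 := by
            rw [map_mul, map_mul, map_mul, map_inv, map_inv, h1.eq]
            group
          exact (QuotientGroup.eq_one_iff _).1 h2
        · obtain ⟨z, hz, hzK, hcen⟩ := hMP K hK hMK
          exact ⟨z, hle hz, hzK, hcen⟩
    have hback : M₂ ≤ M := hM.le_of_ge hM₂ hle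
    obtain ⟨g, rfl⟩ := QuotientGroup.mk'_surjective M z
    apply hz1
    exact (QuotientGroup.eq_one_iff g).2 (hback ((hm2 g).2 hzc))
  intro N hNn hNne
  obtain ⟨z, _, hzN, hcen⟩ := hMP N hNn (by rw [hMtop, top_le_iff]; exact hNne)
  exact ⟨z, hzN, hcen⟩

/-- hypercentral implies hyperabelian -/
theorem hyperabelian_layer {N : Subgroup G} (hNn : N.Normal) {z : G} (hz : z ∉ N)
    (hcen : ∀ g : G, g * z * g⁻¹ * z⁻¹ ∈ N) :
    ∃ A : Subgroup G, A.Normal ∧ N < A ∧ ∀ x ∈ A, ∀ y ∈ A, x * y * x⁻¹ * y⁻¹ ∈ N := by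
  let A : Subgroup G := (Subgroup.center (G ⧸ N)).comap (QuotientGroup.mk' N)
  have hA : ∀ g : G, g ∈ A ↔ ∀ h : G ⧸ N, Commute h (QuotientGroup.mk' N g) := by
    intro g
    rw [Subgroup.mem_comap, Subgroup.mem_center_iff]
    rfl
  have hone : ∀ g : G, QuotientGroup.mk' N g = 1 ↔ g ∈ N := fun g => QuotientGroup.eq_one_iff g
  refine ⟨A, inferInstance, ?_, ?_⟩
  · refine lt_of_le_of_ne ?_ ?_
    · intro g hg
      rw [hA]
      intro h
      rw [(hone g).2 hg]
      exact Commute.one_right h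
    · intro heq
      apply hz
      rw [heq, hA]
      intro h
      obtain ⟨h, rfl⟩ := QuotientGroup.mk'_surjective N h
      have h1 := (hone _).2 (hcen h)
      rw [map_mul, map_mul, map_mul, map_inv, map_inv] at h1
      rw [commute_iff_eq]
      exact commutatorElement_eq_one_iff_mul_comm.1 h1
  · intro x hx y _
    rw [← hone, map_mul, map_mul, map_mul, map_inv, map_inv]
    have h1 := (hA x).1 hx (QuotientGroup.mk' N y)
    rw [← h1.eq]
    group

end Run7.h78
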