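import Pool.Agent.Run7.h78.Hyper

set_option autoImplicit false

open scoped commutatorElement

namespace Run7.h78

variable {G : Type*} [Group G]

/-- subgroups inherit the normalizer condition -/
theorem normalizerCondition_subgroup (hN : NormalizerCondition G) (H : Subgroup G) :
    NormalizerCondition H := by
  classical
  intro K hK
  obtain ⟨M, _, hM⟩ := zorn_le_nonempty₀
    {M : Subgroup G | K.map H.subtype ≤ M ∧ M ⊓ H = K.map H.subtype} (by
      intro c hc hchain y hy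
      have hmem : ∀ g : G, g ∈ sSup c ↔ ∃ K ∈ c, g ∈ K := fun g =>
        Subgroup.mem_sSup_of_directedOn ⟨y, hy⟩ hchain.directedOn
      refine ⟨sSup c, ⟨(hc hy).1.trans (le_sSup hy), ?_⟩, fun z hz => le_sSup hz⟩
      apply le_antisymm
      · rintro g ⟨hg1, hg2⟩
        obtain ⟨L, hL, hgL⟩ := (hmem g).1 hg1
        rw [← (hc hL).2]
        exact ⟨hgL, hg2⟩
      · intro g hg
        refine ⟨(hmem g).2 ⟨y, hy, (hc hy).1 hg⟩, ?_⟩
        obtain ⟨k, _, rfl⟩ := hg
        exact k.2)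
    (K.map H.subtype) ⟨le_rfl, by
      apply inf_eq_left.2
      rintro _ ⟨k, _, rfl⟩
      exact k.2⟩
  obtain ⟨hKM, hMH⟩ := hM.prop
  have hMtop : M < ⊤ := by
    refine lt_top_iff_ne_top.2 fun h => ?_
    rw [h, top_inf_eq] at hMH
    apply hK.ne
    rw [Subgroup.eq_top_iff']
    intro x
    have hx : (x : G) ∈ K.map H.subtype := by rw [← hMH]; exact x.2
    obtain ⟨k, hk, hkx⟩ := hx
    have : k = x := Subtype.ext hkx
    rwa [← this]
  have hlt := hN M hMtop
  -- the normalizer of `M` meets `H` in something bigger than `K`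
  have hex : ∃ g ∈ Subgroup.normalizer (M : Set G), g ∈ H ∧ g ∉ K.map H.subtype := by
    by_contra hno
    push Not at hno
    have h1 : Subgroup.normalizer (M : Set G) ∈
        {M : Subgroup G | K.map H.subtype ≤ M ∧ M ⊓ H = K.map H.subtype} := by
      refine ⟨hKM.trans hlt.le, le_antisymm ?_ ?_⟩
      · rintro g ⟨hg1, hg2⟩
        exact hno g hg1 hg2
      · rw [← hMH]
        exact inf_le_inf_right H hlt.le
    exact hlt.not_ge (hM.le_of_ge h1 hlt.le)
  obtain ⟨g, hg, hgH, hgK⟩ := hex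
  refine lt_of_le_of_ne Subgroup.le_normalizer fun heq => ?_
  apply hgK
  refine ⟨⟨g, hgH⟩, ?_, rfl⟩
  have hnorm : (⟨g, hgH⟩ : H) ∈ Subgroup.normalizer (K : Set H) := by
    rw [Subgroup.mem_normalizer_iff]
    intro k
    have key : ∀ k : H, k ∈ K ↔ (k : G) ∈ M := by
      intro k
      constructor
      · intro hk
        exact hKM ⟨k, hk, rfl⟩
      · intro hk
        have : (k : G) ∈ M ⊓ H := ⟨hk, k.2⟩
        rw [hMH] at this
        obtain ⟨k', hk', h⟩ := this
        have : k' = k := Subtype.ext h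
        rwa [← this]
    rw [key, key]
    exact Subgroup.mem_normalizer_iff.1 hg k
  rw [heq]
  exact hnorm

/-- If every nontrivial torsion-free quotient of a torsion-free group with the normalizer condition
has a normal subgroup with nontrivial centre, then the group is hyperabelian. -/
theorem hyperabelian_of_quotients (hN : NormalizerCondition G)
    (htf : ∀ g : G, g ≠ 1 → ¬ IsOfFinOrder g)
    (hq : ∀ (K : Subgroup G) [K.Normal], K ≠ ⊤ →
      (∀ (g : G) (n : ℕ), 0 < n → g ^ n ∈ K → g ∈ K) →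
      ∃ J : Subgroup (G ⧸ K), J.Normal ∧ ∃ z ∈ J, z ≠ 1 ∧ ∀ g ∈ J, Commute g z) :
    ∀ N : Subgroup G, N.Normal → N ≠ ⊤ → ∃ A : Subgroup G, A.Normal ∧ N < A ∧
      ∀ x ∈ A, ∀ y ∈ A, x * y * x⁻¹ * y⁻¹ ∈ N := by
  classical
  let P : Set (Subgroup G) := {M | M.Normal ∧ (∀ (g : G) (n : ℕ), 0 < n → g ^ n ∈ M → g ∈ M) ∧
    ∀ K : Subgroup G, K.Normal → ¬ M ≤ K → ∃ A : Subgroup G, A.Normal ∧ A ≤ M ∧ ¬ A ≤ K ∧
      ∀ x ∈ A, ∀ y ∈ A, x * y * x⁻¹ * y⁻¹ ∈ K}
  have hbot : (⊥ : Subgroup G) ∈ P := by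
    refine ⟨inferInstance, ?_, ?_⟩
    · intro g n hn h
      rw [Subgroup.mem_bot] at h ⊢
      by_contra hg
      exact htf g hg (isOfFinOrder_iff_pow_eq_one.2 ⟨n, hn, h⟩)
    · intro K _ h
      exact absurd bot_le h
  obtain ⟨M, _, hM⟩ := zorn_le_nonempty₀ P (by
      intro c hc hchain y hy
      have hmem : ∀ g : G, g ∈ sSup c ↔ ∃ K ∈ c, g ∈ K := fun g =>
        Subgroup.mem_sSup_of_directedOn ⟨y, hy⟩ hchain.directedOn
      refine ⟨sSup c, ⟨⟨?_⟩, ?_, ?_⟩, fun z hz => le_sSup hz⟩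
      · intro n hn g
        obtain ⟨K, hK, hnK⟩ := (hmem n).1 hn
        exact (hmem _).2 ⟨K, hK, (hc hK).1.conj_mem n hnK g⟩
      · intro g n hn hg
        obtain ⟨K, hK, hnK⟩ := (hmem _).1 hg
        exact (hmem _).2 ⟨K, hK, (hc hK).2.1 g n hn hnK⟩
      · intro K hK hnle
        have hex : ∃ M ∈ c, ¬ M ≤ K := by
          by_contra hno
          push Not at hno
          exact hnle (sSup_le hno)
        obtain ⟨M, hMc, hMK⟩ := hex
        obtain ⟨A, hA, hAM, hAK, hcen⟩ := (hc hMc).2.2 K hK hMK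
        exact ⟨A, hA, hAM.trans (le_sSup hMc), hAK, hcen⟩) ⊥ hbot
  obtain ⟨hMn, hMi, hMP⟩ := hM.prop
  have hMtop : M = ⊤ := by
    by_contra hne
    have := hMn
    obtain ⟨J, hJ, z, hzJ, hz1, hzc⟩ := hq M hne hMi
    have hNq := normalizerCondition_quot hN M
    have htfq : ∀ g : G ⧸ M, g ≠ 1 → ¬ IsOfFinOrder g := by
      intro g hg hfin
      obtain ⟨g, rfl⟩ := QuotientGroup.mk'_surjective M g
      obtain ⟨n, hn, h⟩ := isOfFinOrder_iff_pow_eq_one.1 hfin
      apply hg
      rw [← map_pow] at h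
      exact (QuotientGroup.eq_one_iff g).2 (hMi g n hn ((QuotientGroup.eq_one_iff _).1 h))
    -- the isolator of the centre of `J`
    have hcomm : ∀ a b : G ⧸ M, (∃ n : ℕ, 0 < n ∧ a ^ n ∈ J ∧ ∀ g ∈ J, Commute g (a ^ n)) →
        (∃ n : ℕ, 0 < n ∧ b ^ n ∈ J ∧ ∀ g ∈ J, Commute g (b ^ n)) → Commute a b := by
      rintro a b ⟨n, hn, haJ, hac⟩ ⟨m, hm, hbJ, hbc⟩
      have h1 : Commute (a ^ n) (b ^ m) := hbc _ haJ
      have h2 : Commute a (b ^ m) := commute_of_commute_pow hNq htfq hn h1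
      exact (commute_of_commute_pow hNq htfq hm h2.symm).symm
    let I : Subgroup (G ⧸ M) :=
      { carrier := {a | ∃ n : ℕ, 0 < n ∧ a ^ n ∈ J ∧ ∀ g ∈ J, Commute g (a ^ n)}
        one_mem' := ⟨1, one_pos, by rw [one_pow]; exact J.one_mem, fun g _ => by
          rw [one_pow]; exact Commute.one_right g⟩
        mul_mem' := by
          rintro a b ha hb
          have hab := hcomm a b ha hb
          obtain ⟨n, hn, haJ, hac⟩ := ha
          obtain ⟨m, hm, hbJ, hbc⟩ := hb
          refine ⟨n * m, Nat.mul_pos hn hm, ?_, ?_⟩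
          · rw [hab.mul_pow, pow_mul, mul_comm n m, pow_mul b]
            exact J.mul_mem (J.pow_mem haJ m) (J.pow_mem hbJ n)
          · intro g hg
            rw [hab.mul_pow, pow_mul, mul_comm n m, pow_mul b]
            exact ((hac g hg).pow_right m).mul_right ((hbc g hg).pow_right n)
        inv_mem' := by
          rintro a ⟨n, hn, haJ, hac⟩
          refine ⟨n, hn, ?_, ?_⟩
          · rw [inv_pow]; exact J.inv_mem haJ
          · intro g hg
            rw [inv_pow]; exact (hac g hg).inv_right }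
    have hI : ∀ a, a ∈ I ↔ ∃ n : ℕ, 0 < n ∧ a ^ n ∈ J ∧ ∀ g ∈ J, Commute g (a ^ n) :=
      fun a => Iff.rfl
    have hIn : I.Normal := by
      refine ⟨fun a ha g => ?_⟩
      obtain ⟨n, hn, haJ, hac⟩ := (hI a).1 ha
      refine (hI _).2 ⟨n, hn, ?_, ?_⟩
      · rw [conj_pow]; exact hJ.conj_mem _ haJ g
      · intro h hh
        rw [conj_pow]
        have h1 := hac (g⁻¹ * h * g) (by
          have := hJ.conj_mem h hh g⁻¹
          rwa [inv_inv] at this)
        have h2 := h1.eq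
        rw [commute_iff_eq]
        calc h * (g * a ^ n * g⁻¹) = g * ((g⁻¹ * h * g) * a ^ n) * g⁻¹ := by group
          _ = g * (a ^ n * (g⁻¹ * h * g)) * g⁻¹ := by rw [h2]
          _ = g * a ^ n * g⁻¹ * h := by group
    let M₂ : Subgroup G := I.comap (QuotientGroup.mk' M)
    have hm2 : ∀ g : G, g ∈ M₂ ↔ QuotientGroup.mk' M g ∈ I := fun g => Iff.rfl
    have hle : M ≤ M₂ := by
      intro g hg
      rw [hm2]
      have : QuotientGroup.mk' M g = 1 := (QuotientGroup.eq_one_iff g).2 hg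
      rw [this]
      exact I.one_mem
    have hM₂ : M₂ ∈ P := by
      refine ⟨inferInstance, ?_, ?_⟩
      · intro g n hn hg
        rw [hm2, map_pow, hI] at hg
        obtain ⟨m, hm, h1, h2⟩ := hg
        rw [hm2, hI]
        rw [← pow_mul] at h1 h2
        exact ⟨n * m, Nat.mul_pos hn hm, h1, h2⟩
      · intro K hK hnle
        by_cases hMK : M ≤ K
        · refine ⟨M₂, inferInstance, le_rfl, hnle, fun x hx y hy => hMK ?_⟩
          have h1 : Commute (QuotientGroup.mk' M x) (QuotientGroup.mk' M y) :=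
            hcomm _ _ ((hI _).1 hx) ((hI _).1 hy)
          have h2 : QuotientGroup.mk' M (x * y * x⁻¹ * y⁻¹) = 1 := by
            rw [map_mul, map_mul, map_mul, map_inv, map_inv, h1.eq]
            group
          exact (QuotientGroup.eq_one_iff _).1 h2
        · obtain ⟨A, hA, hAM, hAK, hcen⟩ := hMP K hK hMK
          exact ⟨A, hA, hAM.trans hle, hAK, hcen⟩
    have hback : M₂ ≤ M := hM.le_of_ge hM₂ hle
    obtain ⟨g, rfl⟩ := QuotientGroup.mk'_surjective M z
    apply hz1
    refine (QuotientGroup.eq_one_iff g).2 (hback ((hm2 g).2 ((hI _).2 ⟨1, one_pos, ?_, ?_⟩)))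
    · rw [pow_one]; exact hzJ
    · rw [pow_one]; exact hzc
  intro N hNn hNne
  obtain ⟨A, hA, _, hAN, hcen⟩ := hMP N hNn (by rw [hMtop, top_le_iff]; exact hNne)
  have hone : ∀ g : G, QuotientGroup.mk' N g = 1 ↔ g ∈ N := fun g => QuotientGroup.eq_one_iff g
  have hmap : (A.map (QuotientGroup.mk' N)).Normal :=
    Subgroup.Normal.map hA _ (QuotientGroup.mk'_surjective N)
  refine ⟨(A.map (QuotientGroup.mk' N)).comap (QuotientGroup.mk' N), inferInstance, ?_, ?_⟩
  · refine lt_of_le_of_ne ?_ ?_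
    · intro g hg
      rw [Subgroup.mem_comap, (hone g).2 hg]
      exact Subgroup.one_mem _
    · intro heq
      apply hAN
      rw [heq]
      exact Subgroup.le_comap_map _ _
  · rintro x ⟨a, ha, hax⟩ y ⟨b, hb, hby⟩
    rw [← hone, map_mul, map_mul, map_mul, map_inv, map_inv, ← hax, ← hby, ← map_inv, ← map_inv,
      ← map_mul, ← map_mul, ← map_mul, hone]
    exact hcen a ha b hb

end Run7.h78
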