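import Pool.Agent.Run7.h347.Iface

set_option autoImplicit false

/-! Basics on groups with Hecke data: normal form and matrices. -/

open MatrixGroups

namespace Run7.h78.MP33H

open Run7.h347 Real

/-- nonnegative integer combinations of `1` and the golden ratio -/
def Phi : Set ℝ := {x | ∃ i j : ℕ, x = i + goldenRatio * j}

lemma gr_sq : goldenRatio * goldenRatio = goldenRatio + 1 := by
  rw [← sq]; exact goldenRatio_sq

lemma gr_pos : 0 < goldenRatio := goldenRatio_pos
lemma gr_gt : 1 < goldenRatio := one_lt_goldenRatio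
lemma gr_lt : goldenRatio < 2 := goldenRatio_lt_two

lemma Phi_zero : (0 : ℝ) ∈ Phi := ⟨0, 0, by simp⟩
lemma Phi_one : (1 : ℝ) ∈ Phi := ⟨1, 0, by simp⟩
lemma Phi_gr : goldenRatio ∈ Phi := ⟨0, 1, by simp⟩
lemma Phi_add {x y : ℝ} (hx : x ∈ Phi) (hy : y ∈ Phi) : x + y ∈ Phi := by
  obtain ⟨i, j, rfl⟩ := hx
  obtain ⟨i', j', rfl⟩ := hy
  exact ⟨i + i', j + j', by push_cast; ring⟩
lemma Phi_gr_mul {x : ℝ} (hx : x ∈ Phi) : goldenRatio * x ∈ Phi := by
  obtain ⟨i, j, rfl⟩ := hx
  refine ⟨j, i + j, ?_⟩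
  push_cast
  have := gr_sq
  linear_combination (j : ℝ) * this
lemma Phi_nonneg {x : ℝ} (hx : x ∈ Phi) : 0 ≤ x := by
  obtain ⟨i, j, rfl⟩ := hx
  have := gr_pos
  positivity
lemma Phi_cases {x : ℝ} (hx : x ∈ Phi) : x = 0 ∨ 1 ≤ x := by
  obtain ⟨i, j, rfl⟩ := hx
  have h1 := gr_gt
  rcases Nat.eq_zero_or_pos i with rfl | hi
  · rcases Nat.eq_zero_or_pos j with rfl | hj
    · left; simp
    · right
      have : (1 : ℝ) ≤ j := by exact_mod_cast hj
      push_cast
      nlinarith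
  · right
    have : (1 : ℝ) ≤ i := by exact_mod_cast hi
    have h2 : (0 : ℝ) ≤ j := Nat.cast_nonneg j
    nlinarith

section

variable {G : Type} [Group G] {S T : G} {D : G →* SL(2, ℝ)}

/-- entries of `D w` -/
def m00 (D : G →* SL(2, ℝ)) (w : G) : ℝ := (D w : Matrix (Fin 2) (Fin 2) ℝ) 0 0
def m01 (D : G →* SL(2, ℝ)) (w : G) : ℝ := (D w : Matrix (Fin 2) (Fin 2) ℝ) 0 1
def m10 (D : G →* SL(2, ℝ)) (w : G) : ℝ := (D w : Matrix (Fin 2) (Fin 2) ℝ) 1 0
def m11 (D : G →* SL(2, ℝ)) (w : G) : ℝ := (D w : Matrix (Fin 2) (Fin 2) ℝ) 1 1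

lemma m00_mul (v w : G) : m00 D (v * w) = m00 D v * m00 D w + m01 D v * m10 D w := by
  simp [m00, m01, m10, Matrix.mul_apply, Fin.sum_univ_two]
lemma m01_mul (v w : G) : m01 D (v * w) = m00 D v * m01 D w + m01 D v * m11 D w := by
  simp [m00, m01, m11, Matrix.mul_apply, Fin.sum_univ_two]
lemma m10_mul (v w : G) : m10 D (v * w) = m10 D v * m00 D w + m11 D v * m10 D w := by
  simp [m00, m11, m10, Matrix.mul_apply, Fin.sum_univ_two]
lemma m11_mul (v w : G) : m11 D (v * w) = m10 D v * m01 D w + m11 D v * m11 D w := by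
  simp [m01, m11, m10, Matrix.mul_apply, Fin.sum_univ_two]
lemma m00_one : m00 D 1 = 1 := by simp [m00]
lemma m01_one : m01 D 1 = 0 := by simp [m01]
lemma m10_one : m10 D 1 = 0 := by simp [m10]
lemma m11_one : m11 D 1 = 1 := by simp [m11]
lemma m_det (w : G) : m00 D w * m11 D w - m01 D w * m10 D w = 1 := by
  have := (D w).det_coe
  rw [Matrix.det_fin_two] at this
  exact this

lemma D_ext {v w : G} (h0 : m00 D v = m00 D w) (h1 : m01 D v = m01 D w) (h2 : m10 D v = m10 D w)
    (h3 : m11 D v = m11 D w) : D v = D w := by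
  ext i j
  fin_cases i <;> fin_cases j
  · exact h0
  · exact h1
  · exact h2
  · exact h3

variable (H : HeckeData G S T D)
include H

lemma S2_comm (w : G) : S ^ 2 * w = w * S ^ 2 := by
  have hw : w ∈ Subgroup.closure {S, T} := by rw [H.gen]; exact Subgroup.mem_top _
  have : Subgroup.closure {S, T} ≤ Subgroup.centralizer {S ^ 2} := by
    rw [Subgroup.closure_le]
    rintro y (rfl | rfl)
    · exact Subgroup.mem_centralizer_singleton_iff.2 (by group)
    · exact Subgroup.mem_centralizer_singleton_iff.2 H.cent.symm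
  exact (Subgroup.mem_centralizer_singleton_iff.1 (this hw)).symm

lemma S2_sq : (S ^ 2) * (S ^ 2) = 1 := by
  rw [← pow_add]; exact H.S4

lemma mS : m00 D S = 0 ∧ m01 D S = -1 ∧ m10 D S = 1 ∧ m11 D S = 0 := by
  simp [m00, m01, m10, m11, H.DS]

lemma mT : m00 D T = 1 ∧ m01 D T = goldenRatio ∧ m10 D T = 0 ∧ m11 D T = 1 := by
  simp [m00, m01, m10, m11, H.DT]

end

/-- the letters `a_k = U ^ (k+1) * S⁻¹` -/
def al {G : Type} [Group G] (S T : G) (k : Fin 4) : G := (T * S) ^ ((k : ℕ) + 1) * S⁻¹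

/-- their products -/
def pr {G : Type} [Group G] (S T : G) (L : List (Fin 4)) : G := (L.map (al S T)).prod

section

variable {G : Type} [Group G] {S T : G} {D : G →* SL(2, ℝ)}

lemma pr_nil : pr S T [] = 1 := rfl
lemma pr_cons (k : Fin 4) (L : List (Fin 4)) : pr S T (k :: L) = al S T k * pr S T L := by
  simp [pr]
lemma pr_append (L L' : List (Fin 4)) : pr S T (L ++ L') = pr S T L * pr S T L' := by
  simp [pr]
lemma pr_singleton (k : Fin 4) : pr S T [k] = al S T k := by simp [pr]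

lemma al0 : al S T 0 = T := by simp [al]

variable (H : HeckeData G S T D)
include H

lemma Seven (n : ℤ) (hn : Even n) (w : G) : S ^ n * w = w * S ^ n := by
  obtain ⟨k, rfl⟩ := hn
  have h1 : Commute (S ^ 2) w := S2_comm H w
  have h2 : S ^ (k + k) = (S ^ 2) ^ k := by
    rw [← two_mul, zpow_mul]; norm_cast
  rw [h2]
  exact (h1.zpow_left k).eq

lemma inv_S : S⁻¹ = S ^ 2 * S := by
  rw [inv_eq_iff_mul_eq_one, ← pow_succ, ← pow_succ']
  exact H.S4

omit H in
lemma al_succ (k : Fin 4) (hk : (k : ℕ) + 1 < 4) :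
    T * S * al S T k = al S T ⟨(k : ℕ) + 1, hk⟩ := by
  rw [al, al, ← mul_assoc, ← pow_succ']

lemma al3 : T * S * al S T 3 = S := by
  have h1 : T * S * al S T 3 = (T * S) ^ 5 * S⁻¹ := by
    rw [al, ← mul_assoc, ← pow_succ']; rfl
  rw [h1, H.U5]; group

/-- the set of elements in normal form -/
def NF (S T w : G) : Prop := ∃ (m l : ℤ) (L : List (Fin 4)), w = S ^ m * pr S T L * S ^ l

omit H in
lemma NF_S (n : ℤ) {w : G} (hw : NF S T w) : NF S T (S ^ n * w) := by
  obtain ⟨m, l, L, rfl⟩ := hw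
  exact ⟨n + m, l, L, by rw [zpow_add]; group⟩

lemma NF_U {w : G} (hw : NF S T w) : NF S T (T * S * w) := by
  obtain ⟨m, l, L, rfl⟩ := hw
  rcases Int.even_or_odd m with hm | hm
  · have h1 : T * S * (S ^ m * pr S T L * S ^ l) = S ^ m * (T * S * pr S T L) * S ^ l := by
      rw [← mul_assoc, ← mul_assoc, ← Seven H m hm (T * S)]; group
    rw [h1]
    cases L with
    | nil =>
      exact ⟨m, 1 + l, [0], by rw [pr_nil, pr_singleton, al0, zpow_add]; group⟩
    | cons k L =>
      by_cases hk : (k : ℕ) + 1 < 4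
      · exact ⟨m, l, ⟨(k : ℕ) + 1, hk⟩ :: L, by rw [pr_cons, pr_cons, ← al_succ k hk]; group⟩
      · have hk3 : k = 3 := by
          have := k.2
          ext; simp; omega
        subst hk3
        refine ⟨m + 1, l, L, ?_⟩
        rw [pr_cons, ← mul_assoc (T * S), al3 H, zpow_add]
        group
  · have hm1 : Even (m + 1) := by obtain ⟨k, rfl⟩ := hm; exact ⟨k + 1, by ring⟩
    refine ⟨m + 1, l, 0 :: L, ?_⟩
    rw [pr_cons, al0]
    have h1 : S ^ m = S ^ (m + 1) * S⁻¹ := by rw [zpow_add]; group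
    have h2 := Seven H (m + 1) hm1 (T * S)
    rw [h1]
    calc T * S * (S ^ (m + 1) * S⁻¹ * pr S T L * S ^ l)
        = (T * S * S ^ (m + 1)) * S⁻¹ * pr S T L * S ^ l := by group
      _ = (S ^ (m + 1) * (T * S)) * S⁻¹ * pr S T L * S ^ l := by rw [h2]
      _ = S ^ (m + 1) * (T * pr S T L) * S ^ l := by group

lemma NF_Upow (n : ℕ) {w : G} (hw : NF S T w) : NF S T ((T * S) ^ n * w) := by
  induction n with
  | zero => rwa [pow_zero, one_mul]
  | succ n ih => rw [pow_succ', mul_assoc]; exact NF_U H ih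

lemma U10 : (T * S) ^ 10 = 1 := by
  have : (T * S) ^ 10 = ((T * S) ^ 5) * ((T * S) ^ 5) := by rw [← pow_add]
  rw [this, H.U5]; exact S2_sq H

theorem NF_all (w : G) : NF S T w := by
  have hw : w ∈ Subgroup.closure {S, T} := by rw [H.gen]; exact Subgroup.mem_top _
  induction hw using Subgroup.closure_induction_left with
  | one => exact ⟨0, 0, [], by simp [pr_nil]⟩
  | mul_left x hx y _ ih =>
    rcases hx with rfl | rfl
    · have := NF_S (S := x) (T := T) 1 ih
      rwa [zpow_one] at this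
    · have h1 : x * y = x * S * (S ^ (-1 : ℤ) * y) := by group
      rw [h1]
      exact NF_U H (NF_S (-1) ih)
  | inv_mul_cancel x hx y _ ih =>
    rcases hx with rfl | rfl
    · have := NF_S (S := x) (T := T) (-1) ih
      rwa [zpow_neg_one] at this
    · have h2 : x⁻¹ = S ^ (1 : ℤ) * (x * S) ^ 9 := by
        have h3 := U10 H
        have h4 : (x * S) ^ 9 = (x * S)⁻¹ := by
          rw [eq_inv_iff_mul_eq_one, ← pow_succ]; exact h3
        rw [h4]; group
      rw [h2, mul_assoc]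
      exact NF_S 1 (NF_Upow H 9 ih)

end

end Run7.h78.MP33H
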