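import Pool.Agent.Run7.h78.MP33_HB

set_option autoImplicit false

/-! Matrices of the normal form; the stabiliser of the cusp. -/

open MatrixGroups

namespace Run7.h78.MP33H

open Run7.h347 Real

lemma Phi_mul {x y : ℝ} (hx : x ∈ Phi) (hy : y ∈ Phi) : x * y ∈ Phi := by
  obtain ⟨i, j, rfl⟩ := hx
  obtain ⟨i', j', rfl⟩ := hy
  refine ⟨i * i' + j * j', i * j' + j * i' + j * j', ?_⟩
  push_cast
  have := gr_sq
  linear_combination ((j : ℝ) * j') * this

section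

variable {G : Type} [Group G] {S T : G} {D : G →* SL(2, ℝ)}

/-- entries in `Phi`, diagonal at least one -/
structure PM (D : G →* SL(2, ℝ)) (w : G) : Prop where
  e00 : m00 D w ∈ Phi
  e01 : m01 D w ∈ Phi
  e10 : m10 D w ∈ Phi
  e11 : m11 D w ∈ Phi
  d0 : 1 ≤ m00 D w
  d1 : 1 ≤ m11 D w

lemma PM_one : PM D (1 : G) :=
  ⟨by rw [m00_one]; exact Phi_one, by rw [m01_one]; exact Phi_zero,
    by rw [m10_one]; exact Phi_zero, by rw [m11_one]; exact Phi_one,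
    by rw [m00_one], by rw [m11_one]⟩

lemma PM.mul {v w : G} (hv : PM D v) (hw : PM D w) : PM D (v * w) where
  e00 := by rw [m00_mul]; exact Phi_add (Phi_mul hv.e00 hw.e00) (Phi_mul hv.e01 hw.e10)
  e01 := by rw [m01_mul]; exact Phi_add (Phi_mul hv.e00 hw.e01) (Phi_mul hv.e01 hw.e11)
  e10 := by rw [m10_mul]; exact Phi_add (Phi_mul hv.e10 hw.e00) (Phi_mul hv.e11 hw.e10)
  e11 := by rw [m11_mul]; exact Phi_add (Phi_mul hv.e10 hw.e01) (Phi_mul hv.e11 hw.e11)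
  d0 := by
    rw [m00_mul]
    have h1 := hv.d0
    have h2 := hw.d0
    have h3 := Phi_nonneg (Phi_mul hv.e01 hw.e10)
    nlinarith
  d1 := by
    rw [m11_mul]
    have h1 := hv.d1
    have h2 := hw.d1
    have h3 := Phi_nonneg (Phi_mul hv.e10 hw.e01)
    nlinarith

variable (H : HeckeData G S T D)
include H

lemma mSi : m00 D S⁻¹ = 0 ∧ m01 D S⁻¹ = 1 ∧ m10 D S⁻¹ = -1 ∧ m11 D S⁻¹ = 0 := by
  obtain ⟨h0, h1, h2, h3⟩ := mS H
  have e : D (S⁻¹) = (D S)⁻¹ := map_inv D S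
  refine ⟨?_, ?_, ?_, ?_⟩
  · rw [m00, e, Matrix.SpecialLinearGroup.coe_inv, Matrix.adjugate_fin_two]
    have : (D S : Matrix (Fin 2) (Fin 2) ℝ) 1 1 = 0 := h3
    simp [this]
  · rw [m01, e, Matrix.SpecialLinearGroup.coe_inv, Matrix.adjugate_fin_two]
    have : (D S : Matrix (Fin 2) (Fin 2) ℝ) 0 1 = -1 := h1
    simp [this]
  · rw [m10, e, Matrix.SpecialLinearGroup.coe_inv, Matrix.adjugate_fin_two]
    have : (D S : Matrix (Fin 2) (Fin 2) ℝ) 1 0 = 1 := h2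
    simp [this]
  · rw [m11, e, Matrix.SpecialLinearGroup.coe_inv, Matrix.adjugate_fin_two]
    have : (D S : Matrix (Fin 2) (Fin 2) ℝ) 0 0 = 0 := h0
    simp [this]

lemma mU : m00 D (T * S) = goldenRatio ∧ m01 D (T * S) = -1 ∧ m10 D (T * S) = 1 ∧
    m11 D (T * S) = 0 := by
  obtain ⟨h0, h1, h2, h3⟩ := mS H
  obtain ⟨k0, k1, k2, k3⟩ := mT H
  rw [m00_mul, m01_mul, m10_mul, m11_mul, h0, h1, h2, h3, k0, k1, k2, k3]
  norm_num

lemma mal0 : m00 D (al S T 0) = 1 ∧ m01 D (al S T 0) = goldenRatio ∧ m10 D (al S T 0) = 0 ∧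
    m11 D (al S T 0) = 1 := by
  rw [al0]; exact mT H

lemma mal1 : m00 D (al S T 1) = goldenRatio ∧ m01 D (al S T 1) = goldenRatio ∧
    m10 D (al S T 1) = 1 ∧ m11 D (al S T 1) = goldenRatio := by
  obtain ⟨h0, h1, h2, h3⟩ := mU H
  obtain ⟨k0, k1, k2, k3⟩ := mal0 H
  have e : al S T 1 = T * S * al S T 0 := (al_succ 0 (by decide)).symm
  have g := gr_sq
  rw [e, m00_mul (T * S), m01_mul (T * S), m10_mul (T * S), m11_mul (T * S), h0, h1, h2, h3,
    k0, k1, k2, k3]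
  refine ⟨?_, ?_, ?_, ?_⟩ <;> linarith

lemma mal2 : m00 D (al S T 2) = goldenRatio ∧ m01 D (al S T 2) = 1 ∧
    m10 D (al S T 2) = goldenRatio ∧ m11 D (al S T 2) = goldenRatio := by
  obtain ⟨h0, h1, h2, h3⟩ := mU H
  obtain ⟨k0, k1, k2, k3⟩ := mal1 H
  have e : al S T 2 = T * S * al S T 1 := (al_succ 1 (by decide)).symm
  have g := gr_sq
  rw [e, m00_mul (T * S), m01_mul (T * S), m10_mul (T * S), m11_mul (T * S), h0, h1, h2, h3,
    k0, k1, k2, k3]
  refine ⟨?_, ?_, ?_, ?_⟩ <;> linarith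

lemma mal3 : m00 D (al S T 3) = 1 ∧ m01 D (al S T 3) = 0 ∧
    m10 D (al S T 3) = goldenRatio ∧ m11 D (al S T 3) = 1 := by
  obtain ⟨h0, h1, h2, h3⟩ := mU H
  obtain ⟨k0, k1, k2, k3⟩ := mal2 H
  have e : al S T 3 = T * S * al S T 2 := (al_succ 2 (by decide)).symm
  have g := gr_sq
  rw [e, m00_mul (T * S), m01_mul (T * S), m10_mul (T * S), m11_mul (T * S), h0, h1, h2, h3,
    k0, k1, k2, k3]
  refine ⟨?_, ?_, ?_, ?_⟩ <;> linarith

lemma PM_al (k : Fin 4) : PM D (al S T k) := by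
  have g := gr_gt.le
  fin_cases k
  · obtain ⟨h0, h1, h2, h3⟩ := mal0 H
    exact ⟨h0 ▸ Phi_one, h1 ▸ Phi_gr, h2 ▸ Phi_zero, h3 ▸ Phi_one, h0.ge, h3.ge⟩
  · obtain ⟨h0, h1, h2, h3⟩ := mal1 H
    exact ⟨h0 ▸ Phi_gr, h1 ▸ Phi_gr, h2 ▸ Phi_one, h3 ▸ Phi_gr, h0 ▸ g, h3 ▸ g⟩
  · obtain ⟨h0, h1, h2, h3⟩ := mal2 H
    exact ⟨h0 ▸ Phi_gr, h1 ▸ Phi_one, h2 ▸ Phi_gr, h3 ▸ Phi_gr, h0 ▸ g, h3 ▸ g⟩
  · obtain ⟨h0, h1, h2, h3⟩ := mal3 H
    exact ⟨h0 ▸ Phi_one, h1 ▸ Phi_zero, h2 ▸ Phi_gr, h3 ▸ Phi_one, h0.ge, h3.ge⟩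

lemma PM_pr (L : List (Fin 4)) : PM D (pr S T L) := by
  induction L with
  | nil => exact PM_one
  | cons k L ih => rw [pr_cons]; exact (PM_al H k).mul ih

lemma m10_al {k : Fin 4} (h : m10 D (al S T k) = 0) : k = 0 := by
  have g := gr_pos
  fin_cases k
  · rfl
  · have := (mal1 H).2.2.1
    rw [show (⟨1, by decide⟩ : Fin 4) = 1 from rfl] at h
    rw [h] at this; norm_num at this
  · have := (mal2 H).2.2.1
    rw [show (⟨2, by decide⟩ : Fin 4) = 2 from rfl] at h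
    rw [h] at this; exact absurd this g.ne
  · have := (mal3 H).2.2.1
    rw [show (⟨3, by decide⟩ : Fin 4) = 3 from rfl] at h
    rw [h] at this; exact absurd this g.ne

lemma m01_al {k : Fin 4} (h : m01 D (al S T k) = 0) : k = 3 := by
  have g := gr_pos
  fin_cases k
  · have := (mal0 H).2.1
    rw [show (⟨0, by decide⟩ : Fin 4) = 0 from rfl] at h
    rw [h] at this; exact absurd this g.ne
  · have := (mal1 H).2.1
    rw [show (⟨1, by decide⟩ : Fin 4) = 1 from rfl] at h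
    rw [h] at this; exact absurd this g.ne
  · have := (mal2 H).2.1
    rw [show (⟨2, by decide⟩ : Fin 4) = 2 from rfl] at h
    rw [h] at this; norm_num at this
  · rfl

lemma pr_m10 {L : List (Fin 4)} (h : m10 D (pr S T L) = 0) : pr S T L = T ^ L.length := by
  induction L with
  | nil => simp [pr]
  | cons k L ih =>
    rw [pr_cons, m10_mul] at h
    have h1 := Phi_nonneg (Phi_mul (PM_al H k).e10 (PM_pr H L).e00)
    have h2 := Phi_nonneg (Phi_mul (PM_al H k).e11 (PM_pr H L).e10)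
    have h3 : m10 D (al S T k) * m00 D (pr S T L) = 0 := by linarith
    have h4 : m11 D (al S T k) * m10 D (pr S T L) = 0 := by linarith
    have h5 : m10 D (al S T k) = 0 := by
      rcases mul_eq_zero.1 h3 with h | h
      · exact h
      · have := (PM_pr H L).d0; linarith
    have h6 : m10 D (pr S T L) = 0 := by
      rcases mul_eq_zero.1 h4 with h | h
      · have := (PM_al H k).d1; linarith
      · exact h
    rw [pr_cons, m10_al H h5, ih h6, al0, List.length_cons, pow_succ']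

lemma al3_eq : al S T 3 = S * T⁻¹ * S⁻¹ := by
  have := al3 H
  have h2 : al S T 3 = (T * S)⁻¹ * S := by rw [eq_inv_mul_iff_mul_eq]; exact this
  rw [h2, mul_inv_rev]
  have h3 := S2_comm H T⁻¹
  have h4 : S⁻¹ = S ^ 2 * S := inv_S H
  calc S⁻¹ * T⁻¹ * S = S⁻¹ * (T⁻¹ * S ^ 2) * S⁻¹ := by group
    _ = S⁻¹ * (S ^ 2 * T⁻¹) * S⁻¹ := by rw [h3]
    _ = S * T⁻¹ * S⁻¹ := by group

lemma pr_m01 {L : List (Fin 4)} (h : m01 D (pr S T L) = 0) :
    pr S T L = S * (T ^ L.length)⁻¹ * S⁻¹ := by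
  induction L with
  | nil => simp [pr]
  | cons k L ih =>
    rw [pr_cons, m01_mul] at h
    have h1 := Phi_nonneg (Phi_mul (PM_al H k).e00 (PM_pr H L).e01)
    have h2 := Phi_nonneg (Phi_mul (PM_al H k).e01 (PM_pr H L).e11)
    have h3 : m00 D (al S T k) * m01 D (pr S T L) = 0 := by linarith
    have h4 : m01 D (al S T k) * m11 D (pr S T L) = 0 := by linarith
    have h5 : m01 D (pr S T L) = 0 := by
      rcases mul_eq_zero.1 h3 with h | h
      · have := (PM_al H k).d0; linarith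
      · exact h
    have h6 : m01 D (al S T k) = 0 := by
      rcases mul_eq_zero.1 h4 with h | h
      · exact h
      · have := (PM_pr H L).d1; linarith
    rw [pr_cons, m01_al H h6, ih h5, al3_eq H, List.length_cons, pow_succ]
    group

lemma m_Sq (w : G) : m00 D (S ^ 2 * w) = - m00 D w ∧ m01 D (S ^ 2 * w) = - m01 D w ∧
    m10 D (S ^ 2 * w) = - m10 D w ∧ m11 D (S ^ 2 * w) = - m11 D w := by
  obtain ⟨h0, h1, h2, h3⟩ := mS H
  rw [sq, mul_assoc]
  simp only [m00_mul, m01_mul, m10_mul, m11_mul, h0, h1, h2, h3]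
  norm_num

lemma m_S (w : G) : m00 D (S * w) = - m10 D w ∧ m01 D (S * w) = - m11 D w ∧
    m10 D (S * w) = m00 D w ∧ m11 D (S * w) = m01 D w := by
  obtain ⟨h0, h1, h2, h3⟩ := mS H
  simp only [m00_mul, m01_mul, m10_mul, m11_mul, h0, h1, h2, h3]
  norm_num

lemma m_Sr (w : G) : m00 D (w * S) = m01 D w ∧ m01 D (w * S) = - m00 D w ∧
    m10 D (w * S) = m11 D w ∧ m11 D (w * S) = - m10 D w := by
  obtain ⟨h0, h1, h2, h3⟩ := mS H
  simp only [m00_mul, m01_mul, m10_mul, m11_mul, h0, h1, h2, h3]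
  norm_num

lemma m_T (n : ℤ) : m00 D (T ^ n) = 1 ∧ m01 D (T ^ n) = n * goldenRatio ∧ m10 D (T ^ n) = 0 ∧
    m11 D (T ^ n) = 1 := by
  obtain ⟨k0, k1, k2, k3⟩ := mT H
  induction n using Int.induction_on with
  | zero => simp [m00_one, m01_one, m10_one, m11_one]
  | succ n ih =>
    obtain ⟨h0, h1, h2, h3⟩ := ih
    rw [zpow_add, zpow_one, m00_mul, m01_mul, m10_mul, m11_mul, h0, h1, h2, h3, k0, k1, k2, k3]
    push_cast
    refine ⟨?_, ?_, ?_, ?_⟩ <;> ring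
  | pred n ih =>
    obtain ⟨h0, h1, h2, h3⟩ := ih
    have e : T ^ (-(n : ℤ) - 1) * T = T ^ (-(n : ℤ)) := by group
    have E0 : m00 D (T ^ (-(n : ℤ) - 1) * T) = 1 := by rw [e, h0]
    have E1 : m01 D (T ^ (-(n : ℤ) - 1) * T) = (-(n : ℤ) : ℤ) * goldenRatio := by rw [e, h1]
    have E2 : m10 D (T ^ (-(n : ℤ) - 1) * T) = 0 := by rw [e, h2]
    have E3 : m11 D (T ^ (-(n : ℤ) - 1) * T) = 1 := by rw [e, h3]
    rw [m00_mul, k0, k2] at E0
    rw [m01_mul, k1, k3] at E1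
    rw [m10_mul, k0, k2] at E2
    rw [m11_mul, k1, k3] at E3
    have F0 : m00 D (T ^ (-(n : ℤ) - 1)) = 1 := by linarith
    have F2 : m10 D (T ^ (-(n : ℤ) - 1)) = 0 := by linarith
    refine ⟨F0, ?_, F2, ?_⟩
    · rw [F0] at E1; push_cast at E1 ⊢; linarith
    · rw [F2] at E3; linarith

/-- even powers of `S` are `1` or `S²` -/
lemma S_even (i : ℤ) : S ^ (2 * i) = 1 ∨ S ^ (2 * i) = S ^ 2 := by
  have h4 : S ^ (4 : ℤ) = 1 := by exact_mod_cast H.S4
  rcases Int.even_or_odd i with ⟨j, rfl⟩ | ⟨j, rfl⟩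
  · left
    have : 2 * (j + j) = 4 * j := by ring
    rw [this, zpow_mul, h4, one_zpow]
  · right
    have : 2 * (2 * j + 1) = 4 * j + 2 := by ring
    rw [this, zpow_add, zpow_mul, h4, one_zpow, one_mul]; norm_cast

omit H in
lemma Sm_cases (m : ℤ) : ∃ i : ℤ, S ^ m = S ^ (2 * i) ∨ S ^ m = S ^ (2 * i) * S := by
  rcases Int.even_or_odd m with ⟨j, rfl⟩ | ⟨j, rfl⟩
  · exact ⟨j, Or.inl (by rw [two_mul])⟩
  · exact ⟨j, Or.inr (by rw [zpow_add, zpow_one])⟩

/-- reduced normal form -/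
lemma NF2 (w : G) : ∃ (i : ℤ) (L : List (Fin 4)), w = S ^ (2 * i) * pr S T L ∨
    w = S ^ (2 * i) * (pr S T L * S) ∨ w = S ^ (2 * i) * (S * pr S T L) ∨
    w = S ^ (2 * i) * (S * pr S T L * S) := by
  obtain ⟨m, l, L, rfl⟩ := NF_all H w
  obtain ⟨i, hi⟩ := Sm_cases (S := S) m
  obtain ⟨j, hj⟩ := Sm_cases (S := S) l
  have hc : ∀ v : G, S ^ (2 * j) * v = v * S ^ (2 * j) := fun v => Seven H _ (even_two_mul j) v
  have e : S ^ (2 * (i + j)) = S ^ (2 * i) * S ^ (2 * j) := by rw [← zpow_add]; ring_nf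
  refine ⟨i + j, L, ?_⟩
  rcases hi with hi | hi <;> rcases hj with hj | hj <;> rw [hi, hj, e]
  · left
    rw [mul_assoc (S ^ (2 * i)) (S ^ (2 * j)), hc, mul_assoc]
  · right; left
    rw [mul_assoc (S ^ (2 * i)) (S ^ (2 * j)), ← mul_assoc (S ^ (2 * j)) (pr S T L) S, hc (pr S T L)]
    simp only [mul_assoc]
  · right; right; left
    rw [mul_assoc (S ^ (2 * i)) (S ^ (2 * j)), hc]
    simp only [mul_assoc]
  · right; right; right
    rw [mul_assoc (S ^ (2 * i)) (S ^ (2 * j)), ← mul_assoc (S ^ (2 * j)) (S * pr S T L) S,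
      hc (S * pr S T L)]
    simp only [mul_assoc]

/-- the stabiliser of the cusp -/
theorem cusp (w : G) (h : m10 D w = 0) : ∃ i k : ℤ, w = S ^ (2 * i) * T ^ k := by
  have hev : ∀ (i : ℤ) (v : G), m10 D (S ^ (2 * i) * v) = 0 → m10 D v = 0 := by
    intro i v hv
    rcases S_even H i with e | e
    · rwa [e, one_mul] at hv
    · rw [e, (m_Sq H v).2.2.1] at hv; linarith
  obtain ⟨i, L, e | e | e | e⟩ := NF2 H w
  · have := hev i _ (e ▸ h)
    refine ⟨i, L.length, ?_⟩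
    rw [e, pr_m10 H this, zpow_natCast]
  · have := hev i _ (e ▸ h)
    rw [(m_Sr H _).2.2.1] at this
    have := (PM_pr H L).d1
    linarith
  · have := hev i _ (e ▸ h)
    rw [(m_S H _).2.2.1] at this
    have := (PM_pr H L).d0
    linarith
  · have := hev i _ (e ▸ h)
    rw [mul_assoc, (m_S H _).2.2.1, (m_Sr H _).1] at this
    refine ⟨i + 1, -(L.length : ℤ), ?_⟩
    have e2 : S ^ (2 * (i + 1)) = S ^ (2 * i) * S ^ 2 := by
      rw [mul_add, zpow_add]; norm_cast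
    rw [e, pr_m01 H this, e2, zpow_neg, zpow_natCast]
    have := S2_comm H (T ^ L.length)⁻¹
    group

theorem inj : Function.Injective D := by
  rw [injective_iff_map_eq_one]
  intro w hw
  have h00 : m00 D w = 1 := by simp [m00, hw]
  have h01 : m01 D w = 0 := by simp [m01, hw]
  have h10 : m10 D w = 0 := by simp [m10, hw]
  obtain ⟨i, k, rfl⟩ := cusp H w h10
  obtain ⟨t0, t1, t2, t3⟩ := m_T H k
  rcases S_even H i with e | e
  · rw [e, one_mul] at h01 ⊢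
    rw [t1] at h01
    have : (k : ℝ) = 0 := by
      rcases mul_eq_zero.1 h01 with h | h
      · exact h
      · exact absurd h gr_pos.ne'
    have : k = 0 := by exact_mod_cast this
    rw [this, zpow_zero]
  · rw [e, (m_Sq H _).1, t0] at h00
    norm_num at h00

end

end Run7.h78.MP33H
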