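import Pool.Agent.Run7.h78.MP33_HC

set_option autoImplicit false

/-! The character of order 20 and the commutator subgroup. -/

open MatrixGroups

namespace Run7.h78.MP33H

open Run7.h347 Real

/-- generators of the free group -/
abbrev s0 : FreeGroup (Fin 2) := FreeGroup.of 0
/-- generators of the free group -/
abbrev t0 : FreeGroup (Fin 2) := FreeGroup.of 1

/-- the relations -/
def hrels : Set (FreeGroup (Fin 2)) :=
  {s0 ^ 4, s0 ^ 2 * t0 * (s0 ^ 2)⁻¹ * t0⁻¹, (t0 * s0) ^ 5 * (s0 ^ 2)⁻¹}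

lemma lift_rels {K : Type} [Group K] {a b : K} (h1 : a ^ 4 = 1) (h2 : a ^ 2 * b = b * a ^ 2)
    (h3 : (b * a) ^ 5 = a ^ 2) : ∀ r ∈ hrels, FreeGroup.lift ![a, b] r = 1 := by
  rintro r (rfl | rfl | rfl)
  · simp [s0, h1]
  · simp [s0, t0, h2]
  · simp [s0, t0, h3]

/-- the presented group -/
abbrev HP : Type := PresentedGroup hrels

/-- generator -/
def Sp : HP := PresentedGroup.of 0
/-- generator -/
def Tp : HP := PresentedGroup.of 1

lemma Sp_mk : Sp = PresentedGroup.mk hrels s0 := rfl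
lemma Tp_mk : Tp = PresentedGroup.mk hrels t0 := rfl

lemma Sp4 : Sp ^ 4 = 1 := by
  rw [Sp_mk, ← map_pow]; exact PresentedGroup.one_of_mem (Or.inl rfl)

lemma Sp2 : Sp ^ 2 * Tp = Tp * Sp ^ 2 := by
  have : PresentedGroup.mk hrels (s0 ^ 2 * t0 * (s0 ^ 2)⁻¹ * t0⁻¹) = 1 :=
    PresentedGroup.one_of_mem (Or.inr (Or.inl rfl))
  rw [map_mul, map_mul, map_mul, map_inv, map_inv, map_pow, ← Sp_mk, ← Tp_mk] at this
  rw [← mul_inv_eq_one, mul_inv_rev, ← mul_assoc]
  exact this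

lemma Up5 : (Tp * Sp) ^ 5 = Sp ^ 2 := by
  have : PresentedGroup.mk hrels ((t0 * s0) ^ 5 * (s0 ^ 2)⁻¹) = 1 :=
    PresentedGroup.one_of_mem (Or.inr (Or.inr rfl))
  rw [map_mul, map_inv, map_pow, map_pow, map_mul, ← Sp_mk, ← Tp_mk] at this
  exact mul_inv_eq_one.1 this

lemma HPgen : Subgroup.closure {Sp, Tp} = ⊤ := by
  rw [← PresentedGroup.closure_range_of hrels]
  congr 1
  ext x
  constructor
  · rintro (rfl | rfl)
    · exact ⟨0, rfl⟩
    · exact ⟨1, rfl⟩
  · rintro ⟨i, rfl⟩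
    fin_cases i
    · exact Or.inl rfl
    · exact Or.inr rfl

section

variable {G : Type} [Group G] {S T : G} {D : G →* SL(2, ℝ)}

/-- the hom from the presented group -/
def toG {K : Type} [Group K] {a b : K} (h1 : a ^ 4 = 1) (h2 : a ^ 2 * b = b * a ^ 2)
    (h3 : (b * a) ^ 5 = a ^ 2) : HP →* K :=
  PresentedGroup.toGroup (lift_rels h1 h2 h3)

lemma toG_S {K : Type} [Group K] {a b : K} (h1 : a ^ 4 = 1) (h2 : a ^ 2 * b = b * a ^ 2)
    (h3 : (b * a) ^ 5 = a ^ 2) : toG h1 h2 h3 Sp = a := by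
  unfold toG Sp; rw [PresentedGroup.toGroup.of]; rfl

lemma toG_T {K : Type} [Group K] {a b : K} (h1 : a ^ 4 = 1) (h2 : a ^ 2 * b = b * a ^ 2)
    (h3 : (b * a) ^ 5 = a ^ 2) : toG h1 h2 h3 Tp = b := by
  unfold toG Tp; rw [PresentedGroup.toGroup.of]; rfl

variable (H : HeckeData G S T D)
include H

lemma exists_chi : ∃ χ : G →* Multiplicative (ZMod 20), χ S = Multiplicative.ofAdd 5 ∧
    χ T = Multiplicative.ofAdd 1 := by
  set q : HP →* G := toG H.S4 H.cent H.U5 with hq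
  have HH : HeckeData HP Sp Tp (D.comp q) := by
    refine ⟨HPgen, Sp4, Sp2, Up5, ?_, ?_⟩
    · rw [MonoidHom.comp_apply, hq, toG_S]; exact H.DS
    · rw [MonoidHom.comp_apply, hq, toG_T]; exact H.DT
  have hinj : Function.Injective q := by
    have := inj HH
    rw [MonoidHom.coe_comp] at this
    exact this.of_comp
  have hsurj : Function.Surjective q := by
    rw [← MonoidHom.range_eq_top, eq_top_iff, ← H.gen, Subgroup.closure_le]
    rintro x (rfl | rfl)
    · exact ⟨Sp, toG_S _ _ _⟩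
    · exact ⟨Tp, toG_T _ _ _⟩
  let e : HP ≃* G := MulEquiv.ofBijective q ⟨hinj, hsurj⟩
  have h1 : (Multiplicative.ofAdd (5 : ZMod 20)) ^ 4 = 1 := by
    rw [← ofAdd_nsmul, ← ofAdd_zero]; congr 1
  have h2 : (Multiplicative.ofAdd (5 : ZMod 20)) ^ 2 * Multiplicative.ofAdd 1 =
    Multiplicative.ofAdd 1 * (Multiplicative.ofAdd (5 : ZMod 20)) ^ 2 := mul_comm _ _
  have h3 : (Multiplicative.ofAdd 1 * Multiplicative.ofAdd (5 : ZMod 20)) ^ 5 =
    (Multiplicative.ofAdd (5 : ZMod 20)) ^ 2 := by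
    rw [← ofAdd_add, ← ofAdd_nsmul, ← ofAdd_nsmul]; congr 1
  refine ⟨(toG h1 h2 h3).comp e.symm.toMonoidHom, ?_, ?_⟩
  · rw [MonoidHom.comp_apply]
    have : e.symm.toMonoidHom S = Sp := by
      change e.symm S = Sp
      rw [MulEquiv.symm_apply_eq]; exact (toG_S H.S4 H.cent H.U5).symm
    rw [this, toG_S]
  · rw [MonoidHom.comp_apply]
    have : e.symm.toMonoidHom T = Tp := by
      change e.symm T = Tp
      rw [MulEquiv.symm_apply_eq]; exact (toG_T H.S4 H.cent H.U5).symm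
    rw [this, toG_T]

/-- the character -/
noncomputable def chi : G →* Multiplicative (ZMod 20) := (exists_chi H).choose
lemma chi_S : chi H S = Multiplicative.ofAdd 5 := (exists_chi H).choose_spec.1
lemma chi_T : chi H T = Multiplicative.ofAdd 1 := (exists_chi H).choose_spec.2

lemma chi_form (i k : ℤ) : chi H (S ^ (2 * i) * T ^ k) =
    Multiplicative.ofAdd (((10 * i + k : ℤ)) : ZMod 20) := by
  rw [map_mul, map_zpow, map_zpow, chi_S, chi_T, ← ofAdd_zsmul, ← ofAdd_zsmul, ← ofAdd_add]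
  congr 1
  simp only [zsmul_eq_mul]
  push_cast
  ring

omit H in
lemma ofAdd_int_eq_one {n : ℤ} : Multiplicative.ofAdd ((n : ZMod 20)) = 1 ↔ (20 : ℤ) ∣ n := by
  rw [← ofAdd_zero, Equiv.apply_eq_iff_eq, ZMod.intCast_zmod_eq_zero_iff_dvd]
  norm_num

lemma ab_ST : Abelianization.of S = (Abelianization.of T) ^ 5 := by
  have h5 : Abelianization.of ((T * S) ^ 5) = Abelianization.of (S ^ 2) := by rw [H.U5]
  have h4 : Abelianization.of (S ^ 4) = 1 := by rw [H.S4, map_one]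
  rw [map_pow, map_pow, map_mul, mul_pow] at h5
  rw [map_pow] at h4
  set a := Abelianization.of S
  set b := Abelianization.of T
  calc a = a ^ 4 * a := by rw [h4, one_mul]
    _ = a ^ 2 * (a ^ 4) * a ^ (-1 : ℤ) := by group
    _ = (b ^ 5 * a ^ 5) * a ^ 4 * a ^ (-1 : ℤ) := by rw [h5]
    _ = b ^ 5 * (a ^ 4 * a ^ 4) := by group
    _ = b ^ 5 := by rw [h4, mul_one, mul_one]

lemma ab_all (w : G) : ∃ k : ℤ, Abelianization.of w = (Abelianization.of T) ^ k := by
  have hw : w ∈ Subgroup.closure {S, T} := by rw [H.gen]; exact Subgroup.mem_top _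
  induction hw using Subgroup.closure_induction with
  | mem x hx =>
    rcases hx with rfl | rfl
    · exact ⟨5, by rw [ab_ST H]; norm_cast⟩
    · exact ⟨1, by rw [zpow_one]⟩
  | one => exact ⟨0, by simp⟩
  | mul x y _ _ hx hy =>
    obtain ⟨k, hk⟩ := hx
    obtain ⟨l, hl⟩ := hy
    exact ⟨k + l, by rw [map_mul, hk, hl, zpow_add]⟩
  | inv x _ hx =>
    obtain ⟨k, hk⟩ := hx
    exact ⟨-k, by rw [map_inv, hk, zpow_neg]⟩

omit H in
lemma mem_comm_iff (w : G) : w ∈ commutator G ↔ Abelianization.of w = 1 := by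
  change _ ↔ (QuotientGroup.mk w : G ⧸ commutator G) = 1
  rw [QuotientGroup.eq_one_iff]

lemma comm_iff (w : G) : w ∈ commutator G ↔ chi H w = 1 := by
  constructor
  · intro h
    exact Abelianization.commutator_subset_ker (chi H) h
  · intro h
    obtain ⟨k, hk⟩ := ab_all H w
    have h1 : w * T ^ (-k) ∈ commutator G := by
      rw [mem_comm_iff, map_mul, map_zpow, hk, zpow_neg, mul_inv_cancel]
    have h2 := Abelianization.commutator_subset_ker (chi H) h1
    rw [MonoidHom.mem_ker, map_mul, h, one_mul] at h2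
    have h3 := chi_form H 0 (-k)
    rw [mul_zero, zpow_zero, one_mul, h2] at h3
    have h4 := ofAdd_int_eq_one.1 h3.symm
    rw [mul_zero, zero_add, Int.dvd_neg] at h4
    obtain ⟨j, rfl⟩ := h4
    rw [mem_comm_iff, hk, zpow_mul]
    have h5 : Abelianization.of T ^ (20 : ℤ) = 1 := by
      have h6 := ab_ST H
      have h7 : Abelianization.of (S ^ 4) = 1 := by rw [H.S4, map_one]
      rw [map_pow, h6, ← pow_mul] at h7
      exact_mod_cast h7
    rw [h5, one_zpow]

lemma coset (w : G) : ∃ n ∈ commutator G, ∃ k : ℤ, w = n * T ^ k := by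
  obtain ⟨k, hk⟩ := ab_all H w
  refine ⟨w * T ^ (-k), ?_, k, by group⟩
  rw [mem_comm_iff, map_mul, map_zpow, hk, zpow_neg, mul_inv_cancel]

theorem part4 : commutator G ⊓ Subgroup.zpowers (S ^ 2) = ⊥ := by
  rw [eq_bot_iff]
  rintro x ⟨h1, k, rfl⟩
  simp only at h1 ⊢
  replace h1 : (S ^ 2) ^ k ∈ commutator G := h1
  rw [comm_iff H] at h1
  have e : (S ^ 2) ^ k = S ^ (2 * k) * T ^ (0 : ℤ) := by
    rw [zpow_zero, mul_one, zpow_mul]; norm_cast
  rw [e, chi_form, ofAdd_int_eq_one] at h1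
  rw [Subgroup.mem_bot]
  have h4 : S ^ (4 : ℤ) = 1 := by exact_mod_cast H.S4
  have h2 : ∃ j, k = 2 * j := ⟨k / 2, by omega⟩
  obtain ⟨j, rfl⟩ := h2
  have e2 : (S ^ 2) ^ (2 * j) = (S ^ (4 : ℤ)) ^ j := by
    rw [← zpow_mul, ← zpow_natCast, ← zpow_mul]; congr 1; push_cast; ring
  rw [e2, h4, one_zpow]

lemma S2_comm' : S ^ 2 * T = T * S ^ 2 := H.cent

lemma d_zpow (k : ℤ) : (S ^ 2 * T ^ 10) ^ k = S ^ (2 * k) * T ^ (10 * k) := by
  have h : Commute (S ^ 2) (T ^ 10) := S2_comm H _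
  rw [h.mul_zpow, zpow_mul, zpow_mul]
  norm_cast

lemma form_mem {i k : ℤ} (h : S ^ (2 * i) * T ^ k ∈ commutator G) :
    S ^ (2 * i) * T ^ k ∈ Subgroup.zpowers (S ^ 2 * T ^ 10) := by
  rw [comm_iff H, chi_form, ofAdd_int_eq_one] at h
  obtain ⟨j, hj⟩ : ∃ j, k = 10 * j := ⟨k / 10, by omega⟩
  subst hj
  refine ⟨j, ?_⟩
  simp only
  rw [d_zpow H]
  congr 1
  obtain ⟨l, hl⟩ : ∃ l, j = i + 2 * l := ⟨(j - i) / 2, by omega⟩
  subst hl
  have h4 : S ^ (4 : ℤ) = 1 := by exact_mod_cast H.S4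
  have : 2 * (i + 2 * l) = 2 * i + 4 * l := by ring
  rw [this, zpow_add, zpow_mul S 4, h4, one_zpow, mul_one]

lemma closure_form {w : G} (hw : w ∈ Subgroup.closure {T, S ^ 2}) :
    ∃ i k : ℤ, w = S ^ (2 * i) * T ^ k := by
  induction hw using Subgroup.closure_induction with
  | mem x hx =>
    rcases hx with rfl | rfl
    · exact ⟨0, 1, by simp⟩
    · exact ⟨1, 0, by rw [zpow_zero, mul_one, mul_one]; norm_cast⟩
  | one => exact ⟨0, 0, by simp⟩
  | mul x y _ _ hx hy =>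
    obtain ⟨i, k, rfl⟩ := hx
    obtain ⟨j, l, rfl⟩ := hy
    refine ⟨i + j, k + l, ?_⟩
    have := Seven H (2 * j) (even_two_mul j) (T ^ k)
    rw [mul_add, zpow_add, zpow_add]
    calc S ^ (2 * i) * T ^ k * (S ^ (2 * j) * T ^ l)
        = S ^ (2 * i) * (T ^ k * S ^ (2 * j)) * T ^ l := by group
      _ = S ^ (2 * i) * (S ^ (2 * j) * T ^ k) * T ^ l := by rw [this]
      _ = _ := by group
  | inv x _ hx =>
    obtain ⟨i, k, rfl⟩ := hx
    refine ⟨-i, -k, ?_⟩
    have := Seven H (2 * i) (even_two_mul i) (T ^ (k))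
    rw [this, mul_inv_rev, mul_neg, zpow_neg, zpow_neg]

theorem part6 : commutator G ⊓ Subgroup.closure {T, S ^ 2} =
    Subgroup.zpowers (S ^ 2 * T ^ 10) := by
  apply le_antisymm
  · rintro x ⟨h1, h2⟩
    obtain ⟨i, k, rfl⟩ := closure_form H h2
    exact form_mem H h1
  · rw [Subgroup.zpowers_le]
    constructor
    · change S ^ 2 * T ^ 10 ∈ commutator G
      rw [comm_iff H]
      have e : S ^ 2 * T ^ 10 = S ^ (2 * (1 : ℤ)) * T ^ (10 : ℤ) := by norm_cast
      rw [e, chi_form, ofAdd_int_eq_one]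
      norm_num
    · exact Subgroup.mul_mem _ (Subgroup.subset_closure (by simp))
        (Subgroup.pow_mem _ (Subgroup.subset_closure (by simp)) _)

/-- reduction modulo 10 -/
noncomputable def chi10 : G →* Multiplicative (ZMod 10) :=
  (AddMonoidHom.toMultiplicative (ZMod.castHom (show 10 ∣ 20 by norm_num)
    (ZMod 10)).toAddMonoidHom).comp (chi H)

lemma chi10_T : chi10 H T = Multiplicative.ofAdd 1 := by
  rw [chi10, MonoidHom.comp_apply, chi_T]
  rfl

theorem part5 : (commutator G ⊔ Subgroup.zpowers (S ^ 2)).index = 10 := by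
  have hker : commutator G ⊔ Subgroup.zpowers (S ^ 2) = (chi10 H).ker := by
    apply le_antisymm
    · rw [sup_le_iff]
      refine ⟨Abelianization.commutator_subset_ker _, ?_⟩
      rw [Subgroup.zpowers_le, MonoidHom.mem_ker, chi10, MonoidHom.comp_apply, map_pow, chi_S]
      rfl
    · intro w hw
      rw [MonoidHom.mem_ker, chi10, MonoidHom.comp_apply] at hw
      have hdec : ∀ x : ZMod 20, ZMod.castHom (show 10 ∣ 20 by norm_num) (ZMod 10) x = 0 →
          x = 0 ∨ x = 10 := by decide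
      have h1 := hdec (Multiplicative.toAdd (chi H w)) hw
      rcases h1 with h1 | h1
      · apply Subgroup.mem_sup_left
        rw [comm_iff H]; exact h1
      · have h2 : w * S ^ 2 ∈ commutator G := by
          rw [comm_iff H, map_mul, map_pow, chi_S]
          have h3 : chi H w = Multiplicative.ofAdd 10 := h1
          rw [h3]; rfl
        have h4 : w = w * S ^ 2 * (S ^ 2)⁻¹ := by group
        rw [h4]
        exact Subgroup.mul_mem_sup h2 (Subgroup.inv_mem _ (Subgroup.mem_zpowers _))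
  rw [hker, Subgroup.index_ker]
  have hs : (chi10 H).range = ⊤ := by
    rw [MonoidHom.range_eq_top]
    intro x
    refine ⟨T ^ (Multiplicative.toAdd x).val, ?_⟩
    rw [map_pow, chi10_T, ← ofAdd_nsmul]
    simp
  rw [hs]
  simp

end

end Run7.h78.MP33H
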