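import Pool.Agent.Run7.h78.MP33_HD
import Pool.Agent.Run7.h78.MP33_SURFACE

set_option autoImplicit false

/-! The free basis of the commutator subgroup. -/

open MatrixGroups

namespace Run7.h78.MP33H

open Run7.h347 Run7.h78.MP33S

section

variable {G : Type} [Group G] {S T : G} {D : G →* SL(2, ℝ)}

/-- conjugates of `S` -/
def sj (S T : G) (j : ℤ) : G := (T * S) ^ j * S * (T * S) ^ (-j)

/-- elements `s_j S⁻¹` -/
def zj (S T : G) (j : ℤ) : G := sj S T j * S⁻¹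

/-- the subgroup they generate -/
def KZ (S T : G) : Subgroup G := Subgroup.closure (Set.range (zj S T))

lemma zj_mem (j : ℤ) : zj S T j ∈ KZ S T := Subgroup.subset_closure ⟨j, rfl⟩

variable (H : HeckeData G S T D)
include H

lemma S2_inv : (S ^ 2)⁻¹ = S ^ 2 := inv_eq_of_mul_eq_one_left (S2_sq H)

lemma sj_inv (j : ℤ) : (sj S T j)⁻¹ = S ^ 2 * sj S T j := by
  have h := S2_comm H ((T * S) ^ j)
  have h2 := S2_inv H
  unfold sj
  calc ((T * S) ^ j * S * (T * S) ^ (-j))⁻¹ = (T * S) ^ j * (S ^ 2)⁻¹ * S * (T * S) ^ (-j) := by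
        group
    _ = ((T * S) ^ j * S ^ 2) * S * (T * S) ^ (-j) := by rw [h2]
    _ = (S ^ 2 * (T * S) ^ j) * S * (T * S) ^ (-j) := by rw [h]
    _ = _ := by group

lemma sj_per (j q : ℤ) : sj S T (j + 5 * q) = sj S T j := by
  have h5 : (T * S) ^ (5 : ℤ) = S ^ 2 := by exact_mod_cast H.U5
  have h : ∀ x : G, (S ^ 2) ^ q * x = x * (S ^ 2) ^ q := by
    intro x
    have : Commute (S ^ 2) x := S2_comm H x
    exact (this.zpow_left q).eq
  unfold sj
  have e1 : (T * S) ^ (j + 5 * q) = (T * S) ^ j * (S ^ 2) ^ q := by rw [zpow_add, zpow_mul, h5]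
  have e2 : (T * S) ^ (-(j + 5 * q)) = ((S ^ 2) ^ q)⁻¹ * (T * S) ^ (-j) := by
    rw [zpow_neg, e1, mul_inv_rev, zpow_neg]
  rw [e1, e2]
  calc (T * S) ^ j * (S ^ 2) ^ q * S * (((S ^ 2) ^ q)⁻¹ * (T * S) ^ (-j))
      = (T * S) ^ j * ((S ^ 2) ^ q * S) * ((S ^ 2) ^ q)⁻¹ * (T * S) ^ (-j) := by group
    _ = (T * S) ^ j * (S * (S ^ 2) ^ q) * ((S ^ 2) ^ q)⁻¹ * (T * S) ^ (-j) := by rw [h]
    _ = _ := by group

lemma zj_per (j q : ℤ) : zj S T (j + 5 * q) = zj S T j := by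
  rw [zj, zj, sj_per H]

omit H in
lemma zj_zero : zj S T 0 = 1 := by simp [zj, sj]

omit H in
lemma conj_closure {A : Set G} (g : G) (h : ∀ a ∈ A, g * a * g⁻¹ ∈ Subgroup.closure A) :
    ∀ n ∈ Subgroup.closure A, g * n * g⁻¹ ∈ Subgroup.closure A := by
  intro n hn
  induction hn using Subgroup.closure_induction with
  | mem x hx => exact h x hx
  | one => simp
  | mul x y _ _ hx hy =>
    have : g * (x * y) * g⁻¹ = (g * x * g⁻¹) * (g * y * g⁻¹) := by group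
    rw [this]; exact Subgroup.mul_mem _ hx hy
  | inv x _ hx =>
    have : g * x⁻¹ * g⁻¹ = (g * x * g⁻¹)⁻¹ := by group
    rw [this]; exact Subgroup.inv_mem _ hx

lemma KZ_S (n : G) (hn : n ∈ KZ S T) : S * n * S⁻¹ ∈ KZ S T := by
  refine conj_closure S ?_ n hn
  rintro _ ⟨j, rfl⟩
  have h1 : S * zj S T j * S⁻¹ = (zj S T j)⁻¹ := by
    have h := sj_inv H j
    have h3 := S2_comm H (sj S T j)
    have h2 := S2_inv H
    rw [zj, mul_inv_rev, inv_inv, h, h3, ← h2]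
    group
  rw [h1]
  exact Subgroup.inv_mem _ (zj_mem j)

lemma KZ_Si (n : G) (hn : n ∈ KZ S T) : S⁻¹ * n * S ∈ KZ S T := by
  have h := KZ_S H _ (KZ_S H _ (KZ_S H _ hn))
  have h4 : S * (S * (S * n * S⁻¹) * S⁻¹) * S⁻¹ = S⁻¹ * (S ^ 4) * n * (S ^ 4)⁻¹ * S := by
    simp only [pow_succ, pow_zero, one_mul, mul_assoc, mul_inv_rev, inv_mul_cancel_left,
      inv_mul_cancel, mul_one]
  rw [h4, H.S4] at h
  simpa using h

omit H in
lemma KZ_U (n : G) (hn : n ∈ KZ S T) : (T * S) * n * (T * S)⁻¹ ∈ KZ S T := by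
  refine conj_closure (T * S) ?_ n hn
  rintro _ ⟨j, rfl⟩
  have h1 : (T * S) * zj S T j * (T * S)⁻¹ = zj S T (j + 1) * (zj S T 1)⁻¹ := by
    unfold zj sj
    have : (T * S) ^ (j + 1) = (T * S) * (T * S) ^ j := by rw [add_comm, zpow_add, zpow_one]
    rw [this]
    generalize T * S = U
    group
  rw [h1]
  exact Subgroup.mul_mem _ (zj_mem _) (Subgroup.inv_mem _ (zj_mem 1))

omit H in
lemma KZ_Ui (n : G) (hn : n ∈ KZ S T) : (T * S)⁻¹ * n * (T * S) ∈ KZ S T := by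
  have := conj_closure (A := Set.range (zj S T)) (T * S)⁻¹ ?_ n hn
  · rwa [inv_inv] at this
  rintro _ ⟨j, rfl⟩
  have h1 : (T * S)⁻¹ * zj S T j * (T * S)⁻¹⁻¹ = zj S T (j - 1) * (zj S T (-1))⁻¹ := by
    unfold zj sj
    have : (T * S) ^ (j - 1) = (T * S)⁻¹ * (T * S) ^ j := by
      rw [sub_eq_add_neg, add_comm, zpow_add, zpow_neg_one]
    rw [this]
    generalize T * S = U
    group
  rw [h1]
  exact Subgroup.mul_mem _ (zj_mem _) (Subgroup.inv_mem _ (zj_mem _))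

lemma KZ_normal : (KZ S T).Normal := by
  constructor
  intro n hn g
  have hg : g ∈ Subgroup.closure {S, T} := by rw [H.gen]; exact Subgroup.mem_top _
  have key : ∀ g ∈ Subgroup.closure {S, T},
      (∀ n ∈ KZ S T, g * n * g⁻¹ ∈ KZ S T) ∧ (∀ n ∈ KZ S T, g⁻¹ * n * g ∈ KZ S T) := by
    intro g hg
    induction hg using Subgroup.closure_induction with
    | mem x hx =>
      rcases hx with rfl | rfl
      · exact ⟨KZ_S H, KZ_Si H⟩
      · constructor
        · intro n hn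
          have h := KZ_U _ (KZ_Si H _ hn)
          have e : x * S * (S⁻¹ * n * S) * (x * S)⁻¹ = x * n * x⁻¹ := by group
          rwa [e] at h
        · intro n hn
          have h := KZ_S H _ (KZ_Ui _ hn)
          have e : S * ((x * S)⁻¹ * n * (x * S)) * S⁻¹ = x⁻¹ * n * x := by group
          rwa [e] at h
    | one => simp
    | mul x y _ _ hx hy =>
      constructor
      · intro n hn
        have h := hx.1 _ (hy.1 _ hn)
        have e : x * (y * n * y⁻¹) * x⁻¹ = x * y * n * (x * y)⁻¹ := by group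
        rwa [e] at h
      · intro n hn
        have h := hy.2 _ (hx.2 _ hn)
        have e : y⁻¹ * (x⁻¹ * n * x) * y = (x * y)⁻¹ * n * (x * y) := by group
        rwa [e] at h
    | inv x _ hx =>
      rw [inv_inv]
      exact ⟨hx.2, hx.1⟩
  exact (key g hg).1 n hn

omit H in
lemma w1 (U : G) : (U ^ (1 : ℤ) * S * U ^ (-(1 : ℤ))) * (U ^ (2 : ℤ) * S * U ^ (-(2 : ℤ)))⁻¹ *
    (U ^ (3 : ℤ) * S * U ^ (-(3 : ℤ))) * (U ^ (4 : ℤ) * S * U ^ (-(4 : ℤ)))⁻¹ *
    (U ^ (5 : ℤ) * S * U ^ (-(5 : ℤ))) = U * S * U * S⁻¹ * U * S * U * S⁻¹ * U * S * (U ^ 5)⁻¹ := by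
  group

omit H in
lemma w1' (U : G) : (U ^ (1 : ℤ) * S * U ^ (-(1 : ℤ)))⁻¹ * (U ^ (2 : ℤ) * S * U ^ (-(2 : ℤ))) *
    (U ^ (3 : ℤ) * S * U ^ (-(3 : ℤ)))⁻¹ * (U ^ (4 : ℤ) * S * U ^ (-(4 : ℤ))) *
    (U ^ (5 : ℤ) * S * U ^ (-(5 : ℤ)))⁻¹ =
      U * S⁻¹ * U * S * U * S⁻¹ * U * S * U * S⁻¹ * (U ^ 5)⁻¹ := by
  group

lemma e1 : sj S T 1 * (sj S T 2)⁻¹ * sj S T 3 * (sj S T 4)⁻¹ * S = T ^ 5 := by
  have h5 : sj S T 0 = S := by simp [sj]
  have h5' : sj S T 5 = S := by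
    have := sj_per H 0 1
    rw [h5] at this; exact this
  have hc := S2_comm H (T ^ 2)
  have hs := S2_sq H
  calc sj S T 1 * (sj S T 2)⁻¹ * sj S T 3 * (sj S T 4)⁻¹ * S
      = sj S T 1 * (sj S T 2)⁻¹ * sj S T 3 * (sj S T 4)⁻¹ * sj S T 5 := by rw [h5']
    _ = (T * S) * S * (T * S) * S⁻¹ * (T * S) * S * (T * S) * S⁻¹ * (T * S) * S *
        ((T * S) ^ 5)⁻¹ := w1 (T * S)
    _ = T * (S ^ 2 * T ^ 2) * (S ^ 2 * T ^ 2) * (S ^ 2 * (S ^ 2)⁻¹) := by
        rw [H.U5]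
        simp only [pow_succ, pow_zero, one_mul, mul_assoc, mul_inv_cancel_left]
    _ = T * (T ^ 2 * S ^ 2) * (T ^ 2 * S ^ 2) := by rw [hc, mul_inv_cancel, mul_one]
    _ = T ^ 3 * (S ^ 2 * T ^ 2) * S ^ 2 := by group
    _ = T ^ 3 * (T ^ 2 * S ^ 2) * S ^ 2 := by rw [hc]
    _ = T ^ 5 * (S ^ 2 * S ^ 2) := by group
    _ = T ^ 5 := by rw [hs, mul_one]

lemma e2 : (sj S T 1)⁻¹ * sj S T 2 * (sj S T 3)⁻¹ * sj S T 4 * S⁻¹ = S ^ 2 * T ^ 5 := by
  have h5 : sj S T 0 = S := by simp [sj]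
  have h5' : sj S T 5 = S := by
    have := sj_per H 0 1
    rw [h5] at this; exact this
  have hc := S2_comm H (T ^ 2)
  have hc5 := S2_comm H (T ^ 5)
  have hc1 := H.cent
  calc (sj S T 1)⁻¹ * sj S T 2 * (sj S T 3)⁻¹ * sj S T 4 * S⁻¹
      = (sj S T 1)⁻¹ * sj S T 2 * (sj S T 3)⁻¹ * sj S T 4 * (sj S T 5)⁻¹ := by rw [h5']
    _ = (T * S) * S⁻¹ * (T * S) * S * (T * S) * S⁻¹ * (T * S) * S * (T * S) * S⁻¹ *
        ((T * S) ^ 5)⁻¹ := w1' (T * S)
    _ = T ^ 2 * (S ^ 2 * T ^ 2) * (S ^ 2 * T) * (S ^ 2)⁻¹ := by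
        rw [H.U5]
        simp only [pow_succ, pow_zero, one_mul, mul_assoc, mul_inv_cancel_left]
    _ = T ^ 2 * (T ^ 2 * S ^ 2) * (T * S ^ 2) * (S ^ 2)⁻¹ := by rw [hc, hc1]
    _ = T ^ 4 * (S ^ 2 * T) := by group
    _ = T ^ 4 * (T * S ^ 2) := by rw [hc1]
    _ = T ^ 5 * S ^ 2 := by group
    _ = S ^ 2 * T ^ 5 := hc5.symm

lemma KZ_sup : KZ S T ⊔ Subgroup.zpowers T = ⊤ := by
  rw [eq_top_iff, ← H.gen, Subgroup.closure_le]
  have hT : T ∈ KZ S T ⊔ Subgroup.zpowers T :=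
    Subgroup.mem_sup_right (Subgroup.mem_zpowers T)
  rintro x (rfl | rfl)
  · have h := e1 H
    have h2 : zj x T 1 * (zj x T 2)⁻¹ * zj x T 3 * (zj x T 4)⁻¹ * x = T ^ 5 := by
      rw [← h]; unfold zj; group
    have h3 : x = (zj x T 1 * (zj x T 2)⁻¹ * zj x T 3 * (zj x T 4)⁻¹)⁻¹ * T ^ 5 := by
      rw [← h2]; group
    have h4 : (zj x T 1 * (zj x T 2)⁻¹ * zj x T 3 * (zj x T 4)⁻¹)⁻¹ * T ^ 5 ∈
        KZ x T ⊔ Subgroup.zpowers T := by
      apply Subgroup.mul_mem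
      · apply Subgroup.mem_sup_left
        exact Subgroup.inv_mem _ (Subgroup.mul_mem _ (Subgroup.mul_mem _ (Subgroup.mul_mem _
          (zj_mem _) (Subgroup.inv_mem _ (zj_mem _))) (zj_mem _)) (Subgroup.inv_mem _ (zj_mem _)))
      · exact Subgroup.pow_mem _ hT _
    rw [← h3] at h4
    exact h4
  · exact hT

lemma KZ_eq : KZ S T = commutator G := by
  apply le_antisymm
  · rw [KZ, Subgroup.closure_le]
    rintro _ ⟨j, rfl⟩
    rw [SetLike.mem_coe, mem_comm_iff, zj, sj, map_mul, map_mul, map_mul, map_zpow, map_zpow,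
      zpow_neg, map_inv]
    set a := Abelianization.of (T * S) ^ j
    set b := Abelianization.of S
    rw [mul_comm a b]; group
  · have := KZ_normal H
    exact Subgroup.Normal.commutator_le_of_self_sup_commutative_eq_top (KZ_sup H) inferInstance

/-! ### ping-pong -/

/-- the half-open positive cone -/
def PP (D : G →* SL(2, ℝ)) (g : G) : Prop := 0 < m00 D g * m10 D g ∨ m10 D g = 0

omit H in
lemma col_ne (g : G) : m00 D g ≠ 0 ∨ m10 D g ≠ 0 := by
  by_contra h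
  push Not at h
  have := m_det (D := D) g
  rw [h.1, h.2] at this
  norm_num at this

lemma PP_S (g : G) : PP D (S * g) ↔ ¬ PP D g := by
  obtain ⟨m0, m1, m2, m3⟩ := m_S H g
  unfold PP
  rw [m0, m2]
  have hne := col_ne (D := D) g
  constructor
  · rintro (h | h) (h' | h')
    · nlinarith
    · rw [h'] at h; norm_num at h
    · rw [h] at h'; norm_num at h'
    · rcases hne with h'' | h''
      · exact h'' h
      · exact h'' h'
  · intro h
    push Not at h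
    obtain ⟨h1, h2⟩ := h
    by_cases h3 : m00 D g = 0
    · exact Or.inr h3
    · left
      have : m00 D g * m10 D g ≠ 0 := mul_ne_zero h3 h2
      have : m00 D g * m10 D g < 0 := lt_of_le_of_ne h1 this
      linarith

lemma PP_Si (g : G) : PP D (S⁻¹ * g) ↔ ¬ PP D g := by
  have := PP_S H (S⁻¹ * g)
  rw [mul_inv_cancel_left] at this
  rw [this, not_not]

lemma PP_al (k : Fin 4) {g : G} (h : PP D g) : PP D (al S T k * g) := by
  have P := PM_al H k
  have a0 := P.d0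
  have a1 := P.d1
  have a2 := Phi_nonneg P.e01
  have a3 := Phi_nonneg P.e10
  unfold PP at h ⊢
  rw [m00_mul, m10_mul]
  set a := m00 D (al S T k)
  set b := m01 D (al S T k)
  set c := m10 D (al S T k)
  set d := m11 D (al S T k)
  set x := m00 D g
  set y := m10 D g
  rcases h with h | h
  · left
    have e : (a * x + b * y) * (c * x + d * y) =
        a * c * x ^ 2 + b * d * y ^ 2 + (a * d + b * c) * (x * y) := by ring
    rw [e]
    have h1 : 0 ≤ a * c * x ^ 2 := by positivity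
    have h2 : 0 ≤ b * d * y ^ 2 := by positivity
    have h3 : 0 < a * d + b * c := by
      have : 0 < a * d := by positivity
      have : 0 ≤ b * c := by positivity
      linarith
    have h4 := mul_pos h3 h
    linarith
  · rw [h]
    simp only [mul_zero, add_zero]
    have hx : x ≠ 0 := by
      rcases col_ne (D := D) g with h' | h'
      · exact h'
      · exact absurd h h'
    by_cases hc : c = 0
    · right; rw [hc, zero_mul]
    · left
      have hc' : 0 < c := lt_of_le_of_ne a3 (Ne.symm hc)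
      have : a * x * (c * x) = a * c * x ^ 2 := by ring
      rw [this]; positivity

lemma PP_U (n : ℕ) (h1 : 1 ≤ n) (h4 : n ≤ 4) {g : G} (h : ¬ PP D g) : PP D ((T * S) ^ n * g) := by
  have h2 := PP_al H (⟨n - 1, by omega⟩ : Fin 4) ((PP_S H g).2 h)
  have e : al S T (⟨n - 1, by omega⟩ : Fin 4) * (S * g) = (T * S) ^ n * g := by
    unfold al
    simp only
    rw [show n - 1 + 1 = n by omega]
    group
  rwa [e] at h2

/-- the basis -/
def zz (S T : G) (i : Fin 4) : G := zj S T ((i : ℕ) + 1 : ℕ)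

/-- ping-pong sets -/
def XX (D : G →* SL(2, ℝ)) (S T : G) (i : Fin 4) : Set G :=
  {g | ¬ PP D (((T * S) ^ ((i : ℕ) + 1))⁻¹ * g)}

/-- ping-pong sets -/
def YY (D : G →* SL(2, ℝ)) (S T : G) (i : Fin 4) : Set G := {g | S⁻¹ * g ∈ XX D S T i}

lemma XX_disj_aux {i j : Fin 4} (hij : i < j) (g : G) (hi : g ∈ XX D S T i)
    (hj : g ∈ XX D S T j) : False := by
  unfold XX at hi hj
  simp only [Set.mem_ofPred_eq] at hi hj
  apply hi
  have hij' : (i : ℕ) < (j : ℕ) := hij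
  have hj4 := j.2
  have h := PP_U H ((j : ℕ) - (i : ℕ)) (by omega) (by omega) hj
  have e : (T * S) ^ ((j : ℕ) - (i : ℕ)) * (((T * S) ^ ((j : ℕ) + 1))⁻¹ * g) =
      ((T * S) ^ ((i : ℕ) + 1))⁻¹ * g := by
    have : (T * S) ^ ((j : ℕ) + 1) = (T * S) ^ ((i : ℕ) + 1) * (T * S) ^ ((j : ℕ) - (i : ℕ)) := by
      rw [← pow_add]; congr 1; omega
    rw [this]; group
  rwa [e] at h

lemma XX_disj : Pairwise (Function.onFun Disjoint (XX D S T)) := by
  intro i j hij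
  rw [Function.onFun, Set.disjoint_left]
  intro g hi hj
  rcases lt_or_gt_of_ne hij with h | h
  · exact XX_disj_aux H h g hi hj
  · exact XX_disj_aux H h g hj hi

lemma XX_PP {i : Fin 4} {g : G} (hi : g ∈ XX D S T i) : PP D g := by
  unfold XX at hi
  simp only [Set.mem_ofPred_eq] at hi
  have h := PP_U H ((i : ℕ) + 1) (by omega) (by have := i.2; omega) hi
  rwa [mul_inv_cancel_left] at h

theorem zz_inj : Function.Injective (FreeGroup.lift (zz S T)) := by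
  apply FreeGroup.injective_lift_of_ping_pong (zz S T) (XX D S T) (YY D S T)
  · intro i
    refine ⟨(T * S) ^ ((i : ℕ) + 1) * S, ?_⟩
    unfold XX
    simp only [Set.mem_ofPred_eq, inv_mul_cancel_left]
    unfold PP
    rw [(mS H).1, (mS H).2.2.1]
    norm_num
  · exact XX_disj H
  · intro i j hij
    rw [Function.onFun, Set.disjoint_left]
    intro g hi hj
    exact Set.disjoint_left.1 (XX_disj H hij) hi hj
  · intro i j
    rw [Set.disjoint_left]
    intro g hi hj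
    have h1 := XX_PP H hi
    have h2 : PP D (S⁻¹ * g) := XX_PP H hj
    exact (PP_Si H g).1 h2 h1
  · rintro i _ ⟨g, hg, rfl⟩
    simp only [YY, XX, Set.mem_compl_iff, Set.mem_ofPred_eq, not_not, smul_eq_mul] at hg ⊢
    have e : ((T * S) ^ ((i : ℕ) + 1))⁻¹ * (zz S T i * g) =
        S * (((T * S) ^ ((i : ℕ) + 1))⁻¹ * (S⁻¹ * g)) := by
      unfold zz zj sj
      rw [zpow_neg, zpow_natCast]
      group
    rw [e, PP_S H, not_not]
    exact hg
  · rintro i _ ⟨g, hg, rfl⟩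
    simp only [YY, XX, Set.mem_compl_iff, Set.mem_ofPred_eq, not_not, smul_eq_mul] at hg ⊢
    have e : ((T * S) ^ ((i : ℕ) + 1))⁻¹ * (S⁻¹ * ((zz S T)⁻¹ i * g)) =
        S⁻¹ * (((T * S) ^ ((i : ℕ) + 1))⁻¹ * g) := by
      rw [Pi.inv_apply]
      unfold zz zj sj
      rw [zpow_neg, zpow_natCast]
      group
    rw [e, PP_Si H, not_not]
    exact hg

end

/-- change of basis -/
def Ab : FreeGroup (Gen 2) →* FreeGroup (Fin 4) :=
  FreeGroup.lift (fun
    | Sum.inl i => ![FreeGroup.of 0 * (FreeGroup.of 1)⁻¹,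
        FreeGroup.of 2 * (FreeGroup.of 1)⁻¹ * FreeGroup.of 0 * (FreeGroup.of 3)⁻¹] i
    | Sum.inr i => ![FreeGroup.of 2 * (FreeGroup.of 1)⁻¹, (FreeGroup.of 3)⁻¹] i)

/-- change of basis -/
def Bb : FreeGroup (Fin 4) →* FreeGroup (Gen 2) :=
  FreeGroup.lift ![(FreeGroup.of (Sum.inr 0))⁻¹ * FreeGroup.of (Sum.inl 1) *
      (FreeGroup.of (Sum.inr 1))⁻¹,
    (FreeGroup.of (Sum.inl 0))⁻¹ * ((FreeGroup.of (Sum.inr 0))⁻¹ * FreeGroup.of (Sum.inl 1) *
      (FreeGroup.of (Sum.inr 1))⁻¹),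
    FreeGroup.of (Sum.inr 0) * (FreeGroup.of (Sum.inl 0))⁻¹ * ((FreeGroup.of (Sum.inr 0))⁻¹ *
      FreeGroup.of (Sum.inl 1) * (FreeGroup.of (Sum.inr 1))⁻¹),
    (FreeGroup.of (Sum.inr 1))⁻¹]

lemma BA : Bb.comp Ab = MonoidHom.id _ := by
  ext x
  rcases x with i | i <;> fin_cases i
  · simp [Ab, Bb]; group
  · simp [Ab, Bb]; group
  · simp [Ab, Bb]; group
  · simp [Ab, Bb]

lemma AB : Ab.comp Bb = MonoidHom.id _ := by
  ext x
  fin_cases x
  · simp [Ab, Bb]; group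
  · simp [Ab, Bb]; group
  · simp [Ab, Bb]; group
  · simp [Ab, Bb]

/-- change of basis -/
def AbE : FreeGroup (Gen 2) ≃* FreeGroup (Fin 4) := MonoidHom.toMulEquiv Ab Bb BA AB

section

variable {G : Type} [Group G] {S T : G} {D : G →* SL(2, ℝ)}

variable (H : HeckeData G S T D)
include H

lemma range_zz : (FreeGroup.lift (zz S T)).range = commutator G := by
  rw [← KZ_eq H]
  apply le_antisymm
  · rw [FreeGroup.range_lift_eq_closure, Subgroup.closure_le]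
    rintro _ ⟨i, rfl⟩
    exact zj_mem _
  · rw [KZ, Subgroup.closure_le]
    rintro _ ⟨j, rfl⟩
    have hj : j = j % 5 + 5 * (j / 5) := (Int.emod_add_mul_ediv j 5).symm
    rw [hj, zj_per H]
    have h0 : 0 ≤ j % 5 := Int.emod_nonneg _ (by norm_num)
    have h5 : j % 5 < 5 := Int.emod_lt_of_pos _ (by norm_num)
    rcases (by omega : j % 5 = 0 ∨ j % 5 = 1 ∨ j % 5 = 2 ∨ j % 5 = 3 ∨ j % 5 = 4) with
      h | h | h | h | h
    · rw [h, zj_zero]; exact Subgroup.one_mem _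
    · rw [h]; exact ⟨FreeGroup.of 0, by rw [FreeGroup.lift_apply_of]; rfl⟩
    · rw [h]; exact ⟨FreeGroup.of 1, by rw [FreeGroup.lift_apply_of]; rfl⟩
    · rw [h]; exact ⟨FreeGroup.of 2, by rw [FreeGroup.lift_apply_of]; rfl⟩
    · rw [h]; exact ⟨FreeGroup.of 3, by rw [FreeGroup.lift_apply_of]; rfl⟩

theorem part3 : ∃ f : FreeGroup (Gen 2) ≃* commutator G,
    ((f (relator 2) : commutator G) : G) = S ^ 2 * T ^ 10 := by
  let f0 : FreeGroup (Fin 4) ≃* commutator G :=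
    (MonoidHom.ofInjective (zz_inj H)).trans (MulEquiv.subgroupCongr (range_zz H))
  refine ⟨AbE.trans f0, ?_⟩
  have h1 : ∀ x, ((f0 x : commutator G) : G) = FreeGroup.lift (zz S T) x := fun x => rfl
  rw [MulEquiv.trans_apply, h1]
  have h2 : AbE (relator 2) = Ab (relator 2) := rfl
  have h3 : Ab (relator 2) = w2 (FreeGroup.of 0 * (FreeGroup.of 1)⁻¹)
      (FreeGroup.of 2 * (FreeGroup.of 1)⁻¹)
      (FreeGroup.of 2 * (FreeGroup.of 1)⁻¹ * FreeGroup.of 0 * (FreeGroup.of 3)⁻¹)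
      (FreeGroup.of 3)⁻¹ := by
    unfold Ab; rw [lift_rel2]; rfl
  rw [h2, h3]
  unfold w2
  simp only [map_mul, map_inv, FreeGroup.lift_apply_of]
  have z0 : zz S T 0 = sj S T 1 * S⁻¹ := rfl
  have z1 : zz S T 1 = sj S T 2 * S⁻¹ := rfl
  have z2 : zz S T 2 = sj S T 3 * S⁻¹ := rfl
  have z3 : zz S T 3 = sj S T 4 * S⁻¹ := rfl
  rw [z0, z1, z2, z3]
  have E1 := e1 H
  have E2 := e2 H
  have hc := S2_comm H (T ^ 5)
  have E3 : (S ^ 2 * T ^ 10) = T ^ 5 * (S ^ 2 * T ^ 5) := by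
    rw [← mul_assoc, ← hc, mul_assoc, ← pow_add]
  rw [E3, ← E2, ← E1]
  group

end

end Run7.h78.MP33H
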