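import Pool.Agent.Run7.h347.Free

set_option autoImplicit false

/-! Syllable normal form for the twist `thF` on `F3`. -/

namespace Run7.h78.MP33

open Run7.h347 FreeGroup

/-- letters of type `0` (`false`) and `1` (`true`), with sign -/
abbrev Y : Type := Bool × Bool

/-- the letter of the free group -/
def lett (y : Y) : Fin 3 × Bool := (if y.1 then 1 else 0, y.2)

/-- the type of a letter -/
def ty (y : Y) : ℤ := if y.1 then 1 else 0

/-- the word of a power of the third generator -/
def dl (n : ℤ) : List (Fin 3 × Bool) := List.replicate n.natAbs (2, decide (0 ≤ n))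

lemma lett_ne (y : Y) : (lett y).1 ≠ 2 := by
  rcases y with ⟨_ | _, _⟩ <;> simp [lett]

lemma dl_zero : dl 0 = [] := rfl

lemma mk_dl (n : ℤ) : FreeGroup.mk (dl n) = xD ^ n := by
  rcases Int.natAbs_eq n with h | h
  · by_cases h0 : 0 ≤ n
    · rw [dl, decide_eq_true h0]
      conv_rhs => rw [h, zpow_natCast]
      apply FreeGroup.toWord_injective
      rw [xD, toWord_of_pow, toWord_mk, reduce_replicate]
    · exfalso; omega
  · by_cases h0 : 0 ≤ n
    · have : n = 0 := by omega
      subst this
      rw [dl_zero, zpow_zero]; rfl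
    · rw [dl, decide_eq_false h0]
      conv_rhs => rw [h, zpow_neg, zpow_natCast]
      rw [← inv_inj, inv_inv, inv_mk]
      apply FreeGroup.toWord_injective
      rw [xD, toWord_of_pow, toWord_mk]
      have : invRev (List.replicate n.natAbs ((2 : Fin 3), false)) =
          List.replicate n.natAbs ((2 : Fin 3), true) := by
        simp [invRev]
      rw [this, reduce_replicate]

lemma dl_isReduced (n : ℤ) : IsReduced (dl n) := by
  have : reduce (dl n) = dl n := by rw [dl, reduce_replicate]
  exact IsReduced.of_reduce_eq this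

/-- evaluation of a list of syllables (last syllable first) -/
def evR : List (Y × ℤ) → ℤ → F3
  | [], n0 => xD ^ n0
  | (y, n) :: l, n0 => evR l n0 * FreeGroup.mk [lett y] * xD ^ n

/-- the word of a list of syllables -/
def wd : List (Y × ℤ) → ℤ → List (Fin 3 × Bool)
  | [], n0 => dl n0
  | (y, n) :: l, n0 => wd l n0 ++ (lett y :: dl n)

/-- no cancellation between consecutive letters -/
def Rd : List (Y × ℤ) → Prop
  | [] => True
  | [_] => True
  | (y, _) :: (z, m) :: l => (m = 0 → z.1 = y.1 → z.2 = y.2) ∧ Rd ((z, m) :: l)

lemma mk_wd (l : List (Y × ℤ)) (n0 : ℤ) : FreeGroup.mk (wd l n0) = evR l n0 := by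
  induction l with
  | nil => exact mk_dl n0
  | cons a l ih =>
    obtain ⟨y, n⟩ := a
    rw [wd, evR, ← ih, ← mk_dl, ← mul_mk, ← List.singleton_append, ← mul_mk, mul_assoc]

lemma Rd.tail {a : Y × ℤ} {l : List (Y × ℤ)} (h : Rd (a :: l)) : Rd l := by
  cases l with
  | nil => trivial
  | cons b l => exact h.2

lemma wd_isReduced (l : List (Y × ℤ)) (n0 : ℤ) (h : Rd l) : IsReduced (wd l n0) := by
  induction l with
  | nil => exact dl_isReduced n0
  | cons a l ih =>
    obtain ⟨y, n⟩ := a
    have h1 := ih h.tail
    have h2 : IsReduced (lett y :: dl n) := by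
      rcases Nat.eq_zero_or_pos n.natAbs with hn | hn
      · rw [dl, hn]; exact IsReduced.singleton
      · obtain ⟨k, hk⟩ := Nat.exists_eq_succ_of_ne_zero hn.ne'
        have h3 := dl_isReduced n
        rw [dl, hk, List.replicate_succ] at h3 ⊢
        rw [isReduced_cons_cons]
        exact ⟨fun h => absurd h (lett_ne y), h3⟩
    rw [wd]
    unfold FreeGroup.IsReduced at h1 h2 ⊢
    rw [List.isChain_append]
    refine ⟨h1, h2, ?_⟩
    intro c hc d hd hcd
    simp only [List.head?_cons, Option.mem_def, Option.some.injEq] at hd
    subst hd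
    -- the last letter of `wd l n0`
    cases l with
    | nil =>
      exfalso
      have : c ∈ dl n0 := List.mem_of_getLast? hc
      rw [dl, List.mem_replicate] at this
      rw [this.2] at hcd
      exact lett_ne y hcd.symm
    | cons b l =>
      obtain ⟨z, m⟩ := b
      by_cases hm : m = 0
      · subst hm
        rw [wd, dl_zero, List.getLast?_append_of_ne_nil _ (by simp)] at hc
        simp only [List.getLast?_singleton, Option.mem_def, Option.some.injEq] at hc
        subst hc
        have h3 := h.1 rfl
        have h4 : z.1 = y.1 := by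
          rcases z with ⟨_ | _, _⟩ <;> rcases y with ⟨_ | _, _⟩ <;> simp [lett] at hcd ⊢
        exact h3 h4
      · exfalso
        have hne : dl m ≠ [] := by
          rw [dl]; simp [hm]
        have hc' : c ∈ (dl m).getLast? := by
          rw [wd, List.append_cons, List.getLast?_append_of_ne_nil _ hne] at hc
          exact hc
        have : c ∈ dl m := List.mem_of_getLast? hc'
        rw [dl, List.mem_replicate] at this
        rw [this.2] at hcd
        exact lett_ne y hcd.symm

lemma toWord_evR (l : List (Y × ℤ)) (n0 : ℤ) (h : Rd l) : (evR l n0).toWord = wd l n0 := by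
  rw [← mk_wd, toWord_mk, (wd_isReduced l n0 h).reduce_eq]

lemma exists_evR (g : F3) : ∃ l n0, Rd l ∧ g = evR l n0 := by
  obtain ⟨w, rfl⟩ : ∃ w, FreeGroup.mk w = g := ⟨g.toWord, mk_toWord⟩
  induction w using List.reverseRecOn with
  | nil => exact ⟨[], 0, trivial, by rw [evR, zpow_zero]; rfl⟩
  | append_singleton w c ih =>
    obtain ⟨l, n0, hl, hw⟩ := ih
    rw [← mul_mk, hw]
    obtain ⟨i, b⟩ := c
    by_cases hi : i = 2
    · subst hi
      have hc : FreeGroup.mk [((2 : Fin 3), b)] = xD ^ (if b then (1 : ℤ) else -1) := by
        cases b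
        · rw [← inv_inj, inv_mk]; simp [invRev, xD]; rfl
        · simp [xD]; rfl
      rw [hc]
      cases l with
      | nil => exact ⟨[], n0 + (if b then (1 : ℤ) else -1), trivial, by rw [evR, evR, zpow_add]⟩
      | cons a l =>
        obtain ⟨y, n⟩ := a
        refine ⟨(y, n + (if b then (1 : ℤ) else -1)) :: l, n0, ?_, ?_⟩
        · cases l with
          | nil => trivial
          | cons b l => exact hl
        · rw [evR, evR, zpow_add]; group
    · obtain ⟨y, hy⟩ : ∃ y : Y, lett y = (i, b) := by
        fin_cases i
        · exact ⟨(false, b), rfl⟩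
        · exact ⟨(true, b), rfl⟩
        · exact absurd rfl hi
      rw [← hy]
      cases l with
      | nil => exact ⟨[(y, 0)], n0, trivial, by simp only [evR, zpow_zero, mul_one]⟩
      | cons a l =>
        obtain ⟨z, m⟩ := a
        by_cases hm : m = 0 ∧ z.1 = y.1 ∧ z.2 ≠ y.2
        · obtain ⟨rfl, h1, h2⟩ := hm
          refine ⟨l, n0, hl.tail, ?_⟩
          have h3 : FreeGroup.mk [lett z] * FreeGroup.mk [lett y] = 1 := by
            obtain ⟨z1, z2⟩ := z
            obtain ⟨y1, y2⟩ := y
            simp only at h1 h2
            subst h1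
            have : y2 = !z2 := by cases z2 <;> cases y2 <;> simp_all
            subst this
            rw [mul_mk]
            apply FreeGroup.toWord_injective
            rw [toWord_mk, toWord_one]
            simp [lett]
          rw [evR, zpow_zero, mul_one, mul_assoc, h3, mul_one]
        · refine ⟨(y, 0) :: (z, m) :: l, n0, ⟨?_, hl⟩, ?_⟩
          · intro h1 h2
            by_contra h3
            exact hm ⟨h1, h2, h3⟩
          · conv_rhs => rw [evR, zpow_zero, mul_one]

end Run7.h78.MP33
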