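import Pool.Agent.Run7.h78.MP33_T1

set_option autoImplicit false

/-! The effect of the twist on syllables, and the block lemma. -/

namespace Run7.h78.MP33

open Run7.h347 FreeGroup

/-- exponents after the twist; `s`: type at the left end, `t`: type at the right end -/
def tr (K s : ℤ) : ℤ → List (Y × ℤ) → ℤ → List (Y × ℤ) × ℤ
  | t, [], n0 => ([], n0 + K * (t - s))
  | t, (y, n) :: l, n0 =>
    ((y, n + K * (t - ty y)) :: (tr K s (ty y) l n0).1, (tr K s (ty y) l n0).2)

lemma tr_Rd (K s : ℤ) (l : List (Y × ℤ)) : ∀ (t n0 : ℤ), Rd l → Rd (tr K s t l n0).1 := by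
  induction l with
  | nil => intro t n0 _; trivial
  | cons a l ih =>
    intro t n0 h
    obtain ⟨y, n⟩ := a
    have h1 := ih (ty y) n0 h.tail
    cases l with
    | nil => trivial
    | cons b l =>
      obtain ⟨z, m⟩ := b
      refine ⟨?_, h1⟩
      intro h2 h3
      have h4 : ty y = ty z := by rw [ty, ty, h3]
      rw [h4, sub_self, mul_zero, add_zero] at h2
      exact h.1 h2 h3

lemma thF_xD (K : ℤ) : thF K xD = xD := by
  simp [thF, xD]

lemma thF_xE (K : ℤ) : thF K xE = xE := by
  simp [thF, xE]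

lemma thF_xF (K : ℤ) : thF K xF = xD ^ K * xF * xD ^ (-K) := by
  simp only [thF, xF, lift_apply_of]
  rfl

lemma thF_lett (K : ℤ) (y : Y) :
    thF K (FreeGroup.mk [lett y]) = xD ^ (K * ty y) * FreeGroup.mk [lett y] * xD ^ (-(K * ty y)) := by
  have h0 : FreeGroup.mk [((0 : Fin 3), true)] = xE := rfl
  have h0' : FreeGroup.mk [((0 : Fin 3), false)] = xE⁻¹ := rfl
  have h1 : FreeGroup.mk [((1 : Fin 3), true)] = xF := rfl
  have h1' : FreeGroup.mk [((1 : Fin 3), false)] = xF⁻¹ := rfl
  rcases y with ⟨_ | _, _ | _⟩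
  · simp [lett, ty, h0', thF_xE]
  · simp [lett, ty, h0, thF_xE]
  · simp only [lett, ty, if_true, h1', mul_one, MonoidHom.map_inv, thF_xF]
    group
  · simp only [lett, ty, if_true, h1, mul_one, thF_xF]

lemma tr_eval (K s : ℤ) (l : List (Y × ℤ)) : ∀ (t n0 : ℤ),
    xD ^ (-(K * s)) * thF K (evR l n0) * xD ^ (K * t) =
      evR (tr K s t l n0).1 (tr K s t l n0).2 := by
  induction l with
  | nil =>
    intro t n0
    simp only [evR, tr, MonoidHom.map_zpow, thF_xD]
    rw [← zpow_add, ← zpow_add]
    congr 1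
    ring
  | cons a l ih =>
    intro t n0
    obtain ⟨y, n⟩ := a
    simp only [evR, tr, MonoidHom.map_mul, MonoidHom.map_zpow, thF_xD]
    rw [← ih (ty y) n0, thF_lett]
    have : n + K * (t - ty y) = -(K * ty y) + n + K * t := by ring
    rw [this, zpow_add, zpow_add]
    simp only [mul_assoc]

/-- all letters have the same type `t`, which is also the type of both ends -/
def Const (s t : ℤ) (l : List (Y × ℤ)) : Prop := (∀ a ∈ l, ty a.1 = t) ∧ s = t

lemma ty_cases (y : Y) : ty y = 0 ∨ ty y = 1 := by
  rcases y with ⟨_ | _, _⟩ <;> simp [ty]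

lemma exists_block (s : ℤ) (hs : s = 0 ∨ s = 1) (l : List (Y × ℤ)) : ∀ (t : ℤ),
    (t = 0 ∨ t = 1) → ∀ n0 : ℤ, ¬ Const s t l → ∃ C : ℕ, ∀ K : ℕ,
      ∃ (u v : List (Fin 3 × Bool)) (N : ℤ),
        wd (tr K s t l n0).1 (tr K s t l n0).2 = u ++ dl N ++ v ∧
        (∀ c ∈ u.getLast?, c.1 ≠ 2) ∧ (∀ c ∈ v.head?, c.1 ≠ 2) ∧ (K : ℤ) - C ≤ |N| := by
  induction l with
  | nil =>
    intro t ht n0 hc
    have hst : s ≠ t := fun h => hc ⟨by simp, h⟩
    refine ⟨n0.natAbs, fun K => ⟨[], [], n0 + K * (t - s), by simp [tr, wd], by simp, by simp, ?_⟩⟩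
    rcases hs with rfl | rfl <;> rcases ht with rfl | rfl <;> simp at hst ⊢
    · rcases abs_cases (n0 + (K : ℤ)) with h | h <;> rcases abs_cases n0 with h' | h' <;> omega
    · rcases abs_cases (n0 + -(K : ℤ)) with h | h <;> rcases abs_cases n0 with h' | h' <;> omega
  | cons a l ih =>
    intro t ht n0 hc
    obtain ⟨y, n⟩ := a
    by_cases hy : ty y = t
    · have hc' : ¬ Const s (ty y) l := by
        intro h
        apply hc
        rw [hy] at h
        refine ⟨?_, h.2⟩
        intro b hb
        rcases List.mem_cons.1 hb with rfl | hb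
        · exact hy
        · exact h.1 b hb
      obtain ⟨C, hC⟩ := ih (ty y) (ty_cases y) n0 hc'
      refine ⟨C, fun K => ?_⟩
      obtain ⟨u, v, N, h1, h2, h3, h4⟩ := hC K
      refine ⟨u, v ++ (lett y :: dl (n + K * (t - ty y))), N, ?_, h2, ?_, h4⟩
      · simp only [tr, wd]
        rw [h1]
        simp only [List.append_assoc]
      · cases v with
        | nil =>
          intro c hc
          simp only [List.nil_append, List.head?_cons, Option.mem_def, Option.some.injEq] at hc
          subst hc
          exact lett_ne y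
        | cons w v =>
          intro c hc
          apply h3
          simpa using hc
    · refine ⟨n.natAbs, fun K => ⟨wd (tr K s (ty y) l n0).1 (tr K s (ty y) l n0).2 ++ [lett y], [],
        n + K * (t - ty y), ?_, ?_, by simp, ?_⟩⟩
      · simp [tr, wd]
      · intro c hc
        simp only [List.getLast?_append, List.getLast?_singleton, Option.some_or, Option.mem_def,
          Option.some.injEq] at hc
        subst hc
        exact lett_ne y
      · rcases ty_cases y with hty | hty <;> rcases ht with rfl | rfl <;> simp [hty] at hy ⊢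
        · rcases abs_cases (n + (K : ℤ)) with h | h <;> rcases abs_cases n with h' | h' <;> omega
        · rcases abs_cases (n + -(K : ℤ)) with h | h <;> rcases abs_cases n with h' | h' <;> omega

end Run7.h78.MP33
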