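import Pool.Agent.Run7.h78.MP33_T2
import Pool.Agent.Run7.h347.Sub

set_option autoImplicit false

/-! Slides along words without two consecutive letters `D`. -/

namespace Run7.h78.MP33

open Run7.h347 FreeGroup

/-- no two consecutive letters of index `2` in the reduced word -/
def NoDD (g : F3) : Prop := g.toWord.IsChain fun a b => ¬ (a.1 = 2 ∧ b.1 = 2)

lemma toWord_mul_of_reduced {A B : F3} (h : FreeGroup.IsReduced (A.toWord ++ B.toWord)) :
    (A * B).toWord = A.toWord ++ B.toWord := by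
  rw [toWord_mul, h.reduce_eq]

lemma split_end (g : F3)
    (h : ¬ ∃ (w : List (Fin 3 × Bool)) (c d : Fin 3 × Bool),
      g.toWord = w ++ [c, d] ∧ c.1 = 2 ∧ d.1 = 2) :
    ∃ (u : List (Fin 3 × Bool)) (a : ℤ), g.toWord = u ++ dl a ∧ |a| ≤ 1 ∧
      (∀ c ∈ u.getLast?, c.1 ≠ 2) := by
  rcases List.eq_nil_or_concat' g.toWord with h0 | ⟨w, d, hw⟩
  · exact ⟨[], 0, by rw [h0]; rfl, by simp, by simp⟩
  · by_cases hd : d.1 = 2
    · obtain ⟨i, b⟩ := d
      simp only at hd
      subst hd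
      refine ⟨w, if b then 1 else -1, ?_, ?_, ?_⟩
      · rw [hw]
        cases b <;> rfl
      · cases b <;> simp
      · intro c hc hc2
        obtain ⟨w', rfl⟩ : ∃ w', w = w' ++ [c] := by
          rcases List.eq_nil_or_concat' w with h1 | ⟨w', c', h1⟩
          · rw [h1] at hc; simp at hc
          · rw [h1] at hc
            simp only [List.getLast?_append, List.getLast?_singleton, Option.some_or,
              Option.mem_def, Option.some.injEq] at hc
            exact ⟨w', by rw [h1, hc]⟩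
        exact h ⟨w', c, (2, b), by rw [hw]; simp, hc2, rfl⟩
    · refine ⟨w ++ [d], 0, by rw [hw, dl_zero, List.append_nil], by simp, ?_⟩
      intro c hc
      simp only [List.getLast?_append, List.getLast?_singleton, Option.some_or,
        Option.mem_def, Option.some.injEq] at hc
      rw [← hc]; exact hd

lemma slide_left (p : F3) (hp : NoDD p) (A : F3) (hA : ∀ c ∈ A.toWord.getLast?, c.1 ≠ 2) :
    ¬ ∃ (w : List (Fin 3 × Bool)) (c d : Fin 3 × Bool),
      (p⁻¹ * A).toWord = w ++ [c, d] ∧ c.1 = 2 ∧ d.1 = 2 := by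
  rintro ⟨w, c, d, hw, hc, hd⟩
  have hinv : ((p⁻¹ * A)⁻¹).toWord = (d.1, !d.2) :: (c.1, !c.2) :: invRev w := by
    rw [toWord_inv, hw]
    simp [invRev]
  have hp' : p = A * (p⁻¹ * A)⁻¹ := by group
  have hred : FreeGroup.IsReduced (A.toWord ++ ((p⁻¹ * A)⁻¹).toWord) := by
    have h1 : FreeGroup.IsReduced A.toWord := isReduced_toWord
    have h2 : FreeGroup.IsReduced ((p⁻¹ * A)⁻¹).toWord := isReduced_toWord
    unfold FreeGroup.IsReduced at h1 h2 ⊢
    rw [List.isChain_append]
    refine ⟨h1, h2, ?_⟩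
    intro x hx y hy hxy
    rw [hinv] at hy
    simp only [List.head?_cons, Option.mem_def, Option.some.injEq] at hy
    exfalso
    apply hA x hx
    rw [hxy, ← hy]
    exact hd
  have htw : p.toWord = A.toWord ++ ((d.1, !d.2) :: (c.1, !c.2) :: invRev w) := by
    conv_lhs => rw [hp']
    rw [toWord_mul_of_reduced hred, hinv]
  unfold NoDD at hp
  rw [htw, List.isChain_append] at hp
  have h3 := hp.2.1
  rw [List.isChain_cons_cons] at h3
  exact h3.1 ⟨hd, hc⟩

lemma getLast_invRev (v : List (Fin 3 × Bool)) (hv : ∀ c ∈ v.head?, c.1 ≠ 2) :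
    ∀ c ∈ (invRev v).getLast?, c.1 ≠ 2 := by
  intro c hc
  cases v with
  | nil => simp [invRev] at hc
  | cons d v =>
    have : (invRev (d :: v)) = invRev v ++ [(d.1, !d.2)] := by simp [invRev]
    rw [this] at hc
    simp only [List.getLast?_append, List.getLast?_singleton, Option.some_or,
      Option.mem_def, Option.some.injEq] at hc
    rw [← hc]
    exact hv d (by simp)

lemma head_invRev (v : List (Fin 3 × Bool)) (hv : ∀ c ∈ v.getLast?, c.1 ≠ 2) :
    ∀ c ∈ (invRev v).head?, c.1 ≠ 2 := by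
  intro c hc
  rcases List.eq_nil_or_concat' v with h | ⟨w, d, hw⟩
  · rw [h] at hc; simp [invRev] at hc
  · have : (invRev v) = (d.1, !d.2) :: invRev w := by rw [hw]; simp [invRev]
    rw [this] at hc
    simp only [List.head?_cons, Option.mem_def, Option.some.injEq] at hc
    rw [← hc]
    exact hv d (by rw [hw]; simp)

lemma countP_dl (n : ℤ) : (dl n).countP (fun y => decide (y.1 = 2)) = n.natAbs := by
  rw [dl, List.countP_replicate]
  simp

lemma isReduced_block (u v : List (Fin 3 × Bool)) (N : ℤ) (hN : N ≠ 0)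
    (hu : FreeGroup.IsReduced u) (hv : FreeGroup.IsReduced v)
    (hu2 : ∀ c ∈ u.getLast?, c.1 ≠ 2) (hv2 : ∀ c ∈ v.head?, c.1 ≠ 2) :
    FreeGroup.IsReduced (u ++ dl N ++ v) := by
  have hd := dl_isReduced N
  have hne : dl N ≠ [] := by rw [dl]; simp [hN]
  have hmem : ∀ c ∈ dl N, c.1 = 2 := by
    intro c hc
    rw [dl, List.mem_replicate] at hc
    rw [hc.2]
  unfold FreeGroup.IsReduced at hu hv hd ⊢
  rw [List.isChain_append]
  refine ⟨?_, hv, ?_⟩
  · rw [List.isChain_append]
    refine ⟨hu, hd, ?_⟩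
    intro x hx y hy hxy
    exfalso
    exact hu2 x hx (hxy.trans (hmem y (List.mem_of_head? hy)))
  · intro x hx y hy hxy
    exfalso
    rw [List.getLast?_append_of_ne_nil _ hne] at hx
    exact hv2 y hy (hxy.symm.trans (hmem x (List.mem_of_getLast? hx)))

theorem nrm2_block (Y p q : F3) (hp : NoDD p) (hq : NoDD q) (u v : List (Fin 3 × Bool)) (N : ℤ)
    (hY : Y.toWord = u ++ dl N ++ v) (hu : ∀ c ∈ u.getLast?, c.1 ≠ 2)
    (hv : ∀ c ∈ v.head?, c.1 ≠ 2) : |N| - 2 ≤ (nrm2 (p⁻¹ * Y * q) : ℤ) := by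
  have hred : FreeGroup.IsReduced (u ++ dl N ++ v) := by rw [← hY]; exact isReduced_toWord
  have hur : FreeGroup.IsReduced u := redSub hred ⟨[], dl N ++ v, by simp⟩
  have hvr : FreeGroup.IsReduced v := redSub hred ⟨u ++ dl N, [], by simp⟩
  have hU : (FreeGroup.mk u).toWord = u := by rw [toWord_mk, hur.reduce_eq]
  have hV : (FreeGroup.mk v).toWord = v := by rw [toWord_mk, hvr.reduce_eq]
  have hYe : Y = FreeGroup.mk u * xD ^ N * FreeGroup.mk v := by
    rw [← mk_dl, mul_mk, mul_mk, ← hY, mk_toWord]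
  obtain ⟨u', a, h1, h2, h3⟩ := split_end (p⁻¹ * FreeGroup.mk u)
    (slide_left p hp _ (by rw [hU]; exact hu))
  obtain ⟨v', b, h4, h5, h6⟩ := split_end (q⁻¹ * (FreeGroup.mk v)⁻¹)
    (slide_left q hq _ (by rw [toWord_inv, hV]; exact getLast_invRev v hv))
  have h7 : p⁻¹ * FreeGroup.mk u = FreeGroup.mk u' * xD ^ a := by
    rw [← mk_dl, mul_mk, ← h1, mk_toWord]
  have h8 : q⁻¹ * (FreeGroup.mk v)⁻¹ = FreeGroup.mk v' * xD ^ b := by
    rw [← mk_dl, mul_mk, ← h4, mk_toWord]
  have hu'r : FreeGroup.IsReduced u' := by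
    have : FreeGroup.IsReduced (u' ++ dl a) := by rw [← h1]; exact isReduced_toWord
    exact redSub this ⟨[], dl a, by simp⟩
  have hv'r : FreeGroup.IsReduced v' := by
    have : FreeGroup.IsReduced (v' ++ dl b) := by rw [← h4]; exact isReduced_toWord
    exact redSub this ⟨[], dl b, by simp⟩
  have hv'i : FreeGroup.IsReduced (invRev v') := by
    have h9 : (FreeGroup.mk v').toWord = v' := by rw [toWord_mk, hv'r.reduce_eq]
    have h10 : ((FreeGroup.mk v')⁻¹).toWord = invRev v' := by rw [toWord_inv, h9]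
    rw [← h10]; exact isReduced_toWord
  have hW : p⁻¹ * Y * q = FreeGroup.mk u' * xD ^ (a + N - b) * FreeGroup.mk (invRev v') := by
    calc p⁻¹ * Y * q = (p⁻¹ * FreeGroup.mk u) * xD ^ N * (q⁻¹ * (FreeGroup.mk v)⁻¹)⁻¹ := by
          rw [hYe]; group
      _ = (FreeGroup.mk u' * xD ^ a) * xD ^ N * (FreeGroup.mk v' * xD ^ b)⁻¹ := by rw [h7, h8]
      _ = FreeGroup.mk u' * xD ^ (a + N - b) * (FreeGroup.mk v')⁻¹ := by
          rw [zpow_sub, zpow_add]; group
      _ = FreeGroup.mk u' * xD ^ (a + N - b) * FreeGroup.mk (invRev v') := by rw [inv_mk]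
  by_cases hM : a + N - b = 0
  · have : |N| ≤ 2 := by
      rw [abs_le] at h2 h5 ⊢
      omega
    have h0 : (0 : ℤ) ≤ (nrm2 (p⁻¹ * Y * q) : ℤ) := by positivity
    linarith
  · have hr := isReduced_block u' (invRev v') (a + N - b) hM hu'r hv'i h3 (head_invRev v' h6)
    have hw : (p⁻¹ * Y * q).toWord = u' ++ dl (a + N - b) ++ invRev v' := by
      rw [hW, ← mk_dl, mul_mk, mul_mk, toWord_mk, hr.reduce_eq]
    have hcount : (a + N - b).natAbs ≤ nrm2 (p⁻¹ * Y * q) := by
      rw [nrm2, hw, List.countP_append, List.countP_append, countP_dl]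
      omega
    have h11 : ((a + N - b).natAbs : ℤ) ≤ (nrm2 (p⁻¹ * Y * q) : ℤ) := by exact_mod_cast hcount
    have h12 : ((a + N - b).natAbs : ℤ) = |a + N - b| := Int.natCast_natAbs _
    rw [h12] at h11
    rw [abs_le] at h2 h5
    rcases abs_cases (a + N - b) with h | h <;> rcases abs_cases N with h' | h' <;> omega

end Run7.h78.MP33
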