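import Pool.Agent.Run7.h78.MP33_T3

set_option autoImplicit false

/-! Subgroups without consecutive letters `D`; change of basis; the dichotomy. -/

namespace Run7.h78.MP33

open Run7.h347 FreeGroup

/-- reduced and no two consecutive letters of index `2` -/
def RR (c d : Fin 3 × Bool) : Prop := (c.1 = d.1 → c.2 = d.2) ∧ ¬ (c.1 = 2 ∧ d.1 = 2)

lemma noDD_of_block (bl : Bool × Bool → List (Fin 3 × Bool)) (g : Bool → F3)
    (hne : ∀ a, bl a ≠ []) (h1 : ∀ a, (bl a).IsChain RR)
    (h2 : ∀ a b : Bool × Bool, (a.1 = b.1 → a.2 = b.2) →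
      ∀ x ∈ (bl a).getLast?, ∀ y ∈ (bl b).head?, RR x y)
    (h3 : ∀ i, FreeGroup.mk (bl (i, true)) = g i)
    (h4 : ∀ i, FreeGroup.mk (bl (i, false)) = (g i)⁻¹)
    {x : F3} (hx : x ∈ Subgroup.closure (Set.range g)) : NoDD x := by
  rw [← range_lift_eq_closure] at hx
  obtain ⟨w, rfl⟩ := hx
  have hflat : ∀ L : List (Bool × Bool),
      FreeGroup.mk ((L.map bl).flatten) = lift g (FreeGroup.mk L) := by
    intro L
    induction L with
    | nil => simp; rfl
    | cons a L ih =>
      rw [List.map_cons, List.flatten_cons, ← mul_mk, ih, ← List.singleton_append (x := a) (l := L),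
        ← mul_mk, MonoidHom.map_mul]
      congr 1
      obtain ⟨i, b⟩ := a
      cases b
      · rw [h4]; simp
      · rw [h3]; simp
  have hchain : ((w.toWord.map bl).flatten).IsChain RR := by
    rw [List.isChain_flatten (by
      intro h
      obtain ⟨a, _, ha⟩ := List.mem_map.1 h
      exact hne a ha)]
    refine ⟨?_, ?_⟩
    · intro l hl
      obtain ⟨a, _, rfl⟩ := List.mem_map.1 hl
      exact h1 a
    · rw [List.isChain_map]
      have hw : FreeGroup.IsReduced w.toWord := isReduced_toWord
      exact List.IsChain.imp (fun a b hab => h2 a b hab) hw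
  have hred : FreeGroup.IsReduced ((w.toWord.map bl).flatten) :=
    List.IsChain.imp (fun a b hab => hab.1) hchain
  have htw : (lift g w).toWord = (w.toWord.map bl).flatten := by
    conv_lhs => rw [← mk_toWord (x := w), ← hflat, toWord_mk]
    exact hred.reduce_eq
  unfold NoDD
  rw [htw]
  exact List.IsChain.imp (fun a b hab => hab.2) hchain

lemma mk_true (i : Fin 3) : FreeGroup.mk [(i, true)] = FreeGroup.of i := rfl

lemma mk_false (i : Fin 3) : FreeGroup.mk [(i, false)] = (FreeGroup.of i)⁻¹ := rfl

lemma range_bool (g : Bool → F3) : Set.range g = {g false, g true} := by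
  ext x
  constructor
  · rintro ⟨b, rfl⟩
    cases b <;> simp
  · rintro (rfl | rfl)
    · exact ⟨_, rfl⟩
    · exact ⟨_, rfl⟩

lemma noDD_1 {x : F3} (hx : x ∈ Subgroup.closure {xD * xE, xF}) : NoDD x := by
  refine noDD_of_block (fun a => if a.1 then [(1, a.2)] else
    if a.2 then [(2, true), (0, true)] else [(0, false), (2, false)])
    (fun i => if i then xF else xD * xE) ?_ ?_ ?_ ?_ ?_ (by rw [range_bool]; exact hx)
  · rintro ⟨_ | _, _ | _⟩ <;> simp
  · rintro ⟨_ | _, _ | _⟩ <;> simp [RR]
  · rintro ⟨_ | _, _ | _⟩ ⟨_ | _, _ | _⟩ <;> simp [RR]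
  · rintro (_ | _)
    · simp only [Bool.false_eq_true, if_false, if_true]
      rw [← List.singleton_append, ← mul_mk, mk_true, mk_true]; rfl
    · rfl
  · rintro (_ | _)
    · simp only [Bool.false_eq_true, if_false]
      rw [← List.singleton_append, ← mul_mk, mk_false, mk_false, mul_inv_rev]; rfl
    · rfl

lemma noDD_2 {x : F3} (hx : x ∈ Subgroup.closure {xE, xD⁻¹ * xF}) : NoDD x := by
  refine noDD_of_block (fun a => if a.1 then
      (if a.2 then [(2, false), (1, true)] else [(1, false), (2, true)]) else [(0, a.2)])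
    (fun i => if i then xD⁻¹ * xF else xE) ?_ ?_ ?_ ?_ ?_ (by rw [range_bool]; exact hx)
  · rintro ⟨_ | _, _ | _⟩ <;> simp
  · rintro ⟨_ | _, _ | _⟩ <;> simp [RR]
  · rintro ⟨_ | _, _ | _⟩ ⟨_ | _, _ | _⟩ <;> simp [RR]
  · rintro (_ | _)
    · rfl
    · simp only [if_true]
      rw [← List.singleton_append, ← mul_mk, mk_false, mk_true]; rfl
  · rintro (_ | _)
    · rfl
    · simp only [if_true, Bool.false_eq_true, if_false]
      rw [← List.singleton_append, ← mul_mk, mk_false, mk_true, mul_inv_rev, inv_inv]; rfl

lemma noDD_3 {x : F3} (hx : x ∈ Subgroup.closure {xE * xD, xF}) : NoDD x := by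
  refine noDD_of_block (fun a => if a.1 then [(1, a.2)] else
    if a.2 then [(0, true), (2, true)] else [(2, false), (0, false)])
    (fun i => if i then xF else xE * xD) ?_ ?_ ?_ ?_ ?_ (by rw [range_bool]; exact hx)
  · rintro ⟨_ | _, _ | _⟩ <;> simp
  · rintro ⟨_ | _, _ | _⟩ <;> simp [RR]
  · rintro ⟨_ | _, _ | _⟩ ⟨_ | _, _ | _⟩ <;> simp [RR]
  · rintro (_ | _)
    · simp only [Bool.false_eq_true, if_false, if_true]
      rw [← List.singleton_append, ← mul_mk, mk_true, mk_true]; rfl
    · rfl
  · rintro (_ | _)
    · simp only [Bool.false_eq_true, if_false]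
      rw [← List.singleton_append, ← mul_mk, mk_false, mk_false, mul_inv_rev]; rfl
    · rfl

lemma noDD_4 {x : F3} (hx : x ∈ Subgroup.closure {xE, xF * xD}) : NoDD x := by
  refine noDD_of_block (fun a => if a.1 then
      (if a.2 then [(1, true), (2, true)] else [(2, false), (1, false)]) else [(0, a.2)])
    (fun i => if i then xF * xD else xE) ?_ ?_ ?_ ?_ ?_ (by rw [range_bool]; exact hx)
  · rintro ⟨_ | _, _ | _⟩ <;> simp
  · rintro ⟨_ | _, _ | _⟩ <;> simp [RR]
  · rintro ⟨_ | _, _ | _⟩ ⟨_ | _, _ | _⟩ <;> simp [RR]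
  · rintro (_ | _)
    · rfl
    · simp only [if_true]
      rw [← List.singleton_append, ← mul_mk, mk_true, mk_true]; rfl
  · rintro (_ | _)
    · rfl
    · simp only [if_true, Bool.false_eq_true, if_false]
      rw [← List.singleton_append, ← mul_mk, mk_false, mk_false, mul_inv_rev]; rfl

/-- `NoDD` is stable under multiplication by `E` or `F` on the right. -/
lemma noDD_mul (p : F3) (hp : NoDD p) (i : Fin 3) (hi : i ≠ 2) : NoDD (p * FreeGroup.of i) := by
  have hr : FreeGroup.IsReduced p.toWord := isReduced_toWord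
  rcases List.eq_nil_or_concat' p.toWord with h | ⟨w, c, hw⟩
  · have : p = 1 := toWord_eq_nil_iff.1 h
    rw [this, one_mul]
    unfold NoDD
    rw [toWord_of]
    exact List.isChain_singleton _
  · by_cases hc : c = (i, false)
    · have hw' : (p * FreeGroup.of i).toWord = w := by
        have h1 : p = FreeGroup.mk w * (FreeGroup.of i)⁻¹ := by
          rw [← mk_false, mul_mk, ← hc, ← hw, mk_toWord]
        have h2 : FreeGroup.IsReduced w := by
          rw [hw] at hr
          exact redSub hr ⟨[], [c], by simp⟩
        conv_lhs => rw [h1]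
        rw [inv_mul_cancel_right, toWord_mk, h2.reduce_eq]
      unfold NoDD at hp ⊢
      rw [hw']
      rw [hw] at hp
      exact chainSub hp ⟨[], [c], by simp⟩
    · have hred : FreeGroup.IsReduced (p.toWord ++ (FreeGroup.of i).toWord) := by
        rw [toWord_of]
        unfold FreeGroup.IsReduced at hr ⊢
        rw [List.isChain_append]
        refine ⟨hr, List.isChain_singleton _, ?_⟩
        intro x hx y hy hxy
        simp only [List.head?_cons, Option.mem_def, Option.some.injEq] at hy
        rw [hw] at hx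
        simp only [List.getLast?_append, List.getLast?_singleton, Option.some_or,
          Option.mem_def, Option.some.injEq] at hx
        subst hx hy
        by_contra hcon
        apply hc
        obtain ⟨c1, c2⟩ := c
        simp only at hxy hcon
        subst hxy
        cases c2
        · rfl
        · exact absurd rfl hcon
      have htw := toWord_mul_of_reduced hred
      unfold NoDD at hp ⊢
      rw [htw, toWord_of, List.isChain_append]
      refine ⟨hp, List.isChain_singleton _, ?_⟩
      intro x _ y hy hxy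
      simp only [List.head?_cons, Option.mem_def, Option.some.injEq] at hy
      subst hy
      exact hi hxy.2

end Run7.h78.MP33
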