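import Pool.Agent.Run7.h78.MP33_T4

set_option autoImplicit false

/-! The dichotomy and the key statement for a single piece. -/

namespace Run7.h78.MP33

open Run7.h347 FreeGroup

/-- the word of `Y` contains a long block of letters `D` -/
def Blk (x : F3) (B : ℤ) : Prop :=
  ∃ (u v : List (Fin 3 × Bool)) (N : ℤ), x.toWord = u ++ dl N ++ v ∧
    (∀ c ∈ u.getLast?, c.1 ≠ 2) ∧ (∀ c ∈ v.head?, c.1 ≠ 2) ∧ B ≤ |N|

lemma not_noDD_of_blk {x : F3} {B : ℤ} (h : Blk x B) (hB : 2 ≤ B) : ¬ NoDD x := by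
  obtain ⟨u, v, N, h1, _, _, h2⟩ := h
  intro hx
  unfold NoDD at hx
  rw [h1] at hx
  have h3 : (dl N).IsChain fun a b => ¬ (a.1 = 2 ∧ b.1 = 2) :=
    chainSub hx ⟨u, v, rfl⟩
  have hN : 2 ≤ N.natAbs := by rcases abs_cases N with h | h <;> omega
  obtain ⟨k, hk⟩ := Nat.exists_eq_add_of_le hN
  rw [dl, hk, add_comm 2 k] at h3
  have : List.replicate (k + 2) ((2 : Fin 3), decide (0 ≤ N)) =
      (2, decide (0 ≤ N)) :: (2, decide (0 ≤ N)) :: List.replicate k (2, decide (0 ≤ N)) := rfl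
  rw [this, List.isChain_cons_cons] at h3
  exact h3.1 ⟨rfl, rfl⟩

lemma const_mem (l : List (Y × ℤ)) (n0 : ℤ) :
    (∀ t : ℤ, (∀ a ∈ l, ty a.1 = t) → (t = 0 → evR l n0 ∈ Subgroup.closure {xE, xD}) ∧
      (t = 1 → evR l n0 ∈ Subgroup.closure {xF, xD})) := by
  intro t
  induction l with
  | nil =>
    intro _
    refine ⟨fun _ => ?_, fun _ => ?_⟩
    · exact Subgroup.zpow_mem _ (Subgroup.subset_closure (by simp)) _
    · exact Subgroup.zpow_mem _ (Subgroup.subset_closure (by simp)) _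
  | cons a l ih =>
    intro h
    obtain ⟨y, n⟩ := a
    have h1 := ih fun b hb => h b (List.mem_cons_of_mem _ hb)
    have h2 : ty y = t := h (y, n) List.mem_cons_self
    refine ⟨fun ht => ?_, fun ht => ?_⟩
    · rw [evR]
      refine Subgroup.mul_mem _ (Subgroup.mul_mem _ (h1.1 ht) ?_)
        (Subgroup.zpow_mem _ (Subgroup.subset_closure (by simp)) _)
      rw [ht] at h2
      rcases y with ⟨_ | _, _ | _⟩
      · show xE⁻¹ ∈ _
        exact Subgroup.inv_mem _ (Subgroup.subset_closure (Set.mem_insert _ _))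
      · exact Subgroup.subset_closure (by left; rfl)
      · simp [ty] at h2
      · simp [ty] at h2
    · rw [evR]
      refine Subgroup.mul_mem _ (Subgroup.mul_mem _ (h1.2 ht) ?_)
        (Subgroup.zpow_mem _ (Subgroup.subset_closure (by simp)) _)
      rw [ht] at h2
      rcases y with ⟨_ | _, _ | _⟩
      · simp [ty] at h2
      · simp [ty] at h2
      · show xF⁻¹ ∈ _
        exact Subgroup.inv_mem _ (Subgroup.subset_closure (Set.mem_insert _ _))
      · exact Subgroup.subset_closure (by left; rfl)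

/-- the dichotomy -/
lemma alt (s t : ℤ) (hs : s = 0 ∨ s = 1) (ht : t = 0 ∨ t = 1) (x : F3) :
    (s = 0 ∧ t = 0 ∧ x ∈ Subgroup.closure {xE, xD}) ∨
    (s = 1 ∧ t = 1 ∧ x ∈ Subgroup.closure {xF, xD}) ∨
    ∃ C : ℕ, ∀ K : ℕ, Blk (xD ^ (-(K * s)) * thF K x * xD ^ (K * t)) (K - C) := by
  obtain ⟨l, n0, hl, rfl⟩ := exists_evR x
  by_cases hc : Const s t l
  · obtain ⟨h1, h2⟩ := hc
    subst h2
    rcases hs with h | h
    · exact Or.inl ⟨h, h, (const_mem l n0 s h1).1 h⟩
    · exact Or.inr (Or.inl ⟨h, h, (const_mem l n0 s h1).2 h⟩)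
  · right; right
    obtain ⟨C, hC⟩ := exists_block s hs l t ht n0 hc
    refine ⟨C, fun K => ?_⟩
    obtain ⟨u, v, N, h1, h2, h3, h4⟩ := hC K
    refine ⟨u, v, N, ?_, h2, h3, h4⟩
    rw [tr_eval, toWord_evR _ _ (tr_Rd _ _ _ _ _ hl), h1]

/-- the change of basis `E ↦ D E`, `F ↦ E`, `D ↦ (D E)⁻¹ F` -/
def al : F3 →* F3 := FreeGroup.lift ![xD * xE, xE, (xD * xE)⁻¹ * xF]

/-- its inverse -/
def be : F3 →* F3 := FreeGroup.lift ![xF, xE * xD, xE * xF⁻¹]

lemma al_xE : al xE = xD * xE := by simp only [al, xE, lift_apply_of]; rfl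
lemma al_xF : al xF = xE := by simp only [al, xF, lift_apply_of]; rfl
lemma al_xD : al xD = (xD * xE)⁻¹ * xF := by simp only [al, xD, lift_apply_of]; rfl
lemma be_xE : be xE = xF := by simp only [be, xE, lift_apply_of]; rfl
lemma be_xF : be xF = xE * xD := by simp only [be, xF, lift_apply_of]; rfl
lemma be_xD : be xD = xE * xF⁻¹ := by simp only [be, xD, lift_apply_of]; rfl

lemma hom_ext {f g : F3 →* F3} (hE : f xE = g xE) (hF : f xF = g xF) (hD : f xD = g xD) :
    f = g := by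
  apply FreeGroup.ext_hom
  intro i
  fin_cases i
  · exact hE
  · exact hF
  · exact hD

lemma be_al (x : F3) : be (al x) = x := by
  have : be.comp al = MonoidHom.id F3 := by
    apply hom_ext
    · simp only [MonoidHom.comp_apply, al_xE, MonoidHom.map_mul, be_xD, be_xE, MonoidHom.id_apply]
      group
    · simp only [MonoidHom.comp_apply, al_xF, be_xE, MonoidHom.id_apply]
    · simp only [MonoidHom.comp_apply, al_xD, MonoidHom.map_mul, MonoidHom.map_inv, be_xD, be_xE,
        be_xF, MonoidHom.id_apply]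
      group
  exact DFunLike.congr_fun this x

lemma tgF_xE (k : ℤ) : tgF k xE = xE := by simp only [tgF, xE, lift_apply_of]; rfl
lemma tgF_xF (k : ℤ) : tgF k xF = xF := by simp only [tgF, xF, lift_apply_of]; rfl
lemma tgF_xD (k : ℤ) : tgF k xD = xE⁻¹ * gam ^ k * xE * xD * gam ^ (-k) := by
  simp only [tgF, xD, lift_apply_of]; rfl

lemma al_gam : al gam = xD := by
  rw [gam, MonoidHom.map_mul, MonoidHom.map_inv, al_xE, al_xF]; group

lemma al_tgF (k : ℤ) (x : F3) : al (tgF k x) = thF k (al x) := by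
  have : al.comp (tgF k) = (thF k).comp al := by
    apply hom_ext
    · simp only [MonoidHom.comp_apply, tgF_xE, al_xE, MonoidHom.map_mul, thF_xE, thF_xD]
    · simp only [MonoidHom.comp_apply, tgF_xF, al_xF, thF_xE]
    · simp only [MonoidHom.comp_apply, tgF_xD, al_xD, MonoidHom.map_mul, MonoidHom.map_inv,
        MonoidHom.map_zpow, al_gam, al_xE, thF_xE, thF_xD, thF_xF]
      group
  exact DFunLike.congr_fun this x

/-- type of an end for the twist along `D` -/
def s1 (e : Ed) : ℤ := if (e.1 = 0 ↔ e.2 = 1) then 1 else 0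
/-- type of an end for the twist along `gam` -/
def s2 (e : Ed) : ℤ := if e.1 = 0 then 0 else 1

lemma s1_cases (e : Ed) : s1 e = 0 ∨ s1 e = 1 := by unfold s1; split_ifs <;> simp
lemma s2_cases (e : Ed) : s2 e = 0 ∨ s2 e = 1 := by unfold s2; split_ifs <;> simp

lemma thV_eq (K : ℤ) (e : Ed) : thV K e = xD ^ (-(K * s1 e)) := by
  unfold thV s1; split_ifs <;> simp

lemma tgV_eq (k : ℤ) (e : Ed) : tgV k e = gam ^ (-(k * s2 e)) := by
  unfold tgV s2; split_ifs <;> simp

lemma thP_eq (K : ℤ) (e : Ed) (m : F3) (f : Ed) :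
    thP K e m f = xD ^ (-(K * s1 e)) * thF K m * xD ^ (K * s1 (einv f)) := by
  rw [thP, thV_eq, thV_eq, zpow_neg _ (K * s1 (einv f)), inv_inv]

lemma tgP_eq (k : ℤ) (e : Ed) (m : F3) (f : Ed) :
    tgP k e m f = gam ^ (-(k * s2 e)) * tgF k m * gam ^ (k * s2 (einv f)) := by
  rw [tgP, tgV_eq, tgV_eq, zpow_neg _ (k * s2 (einv f)), inv_inv]

lemma al_tgP (k : ℤ) (e : Ed) (m : F3) (f : Ed) :
    al (tgP k e m f) = xD ^ (-(k * s2 e)) * thF k (al m) * xD ^ (k * s2 (einv f)) := by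
  rw [tgP_eq, MonoidHom.map_mul, MonoidHom.map_mul, MonoidHom.map_zpow, MonoidHom.map_zpow, al_gam,
    al_tgF]

lemma map_closure_le {f : F3 →* F3} {a b : F3} {H : Subgroup F3} (ha : f a ∈ H) (hb : f b ∈ H)
    {x : F3} (hx : x ∈ Subgroup.closure {a, b}) : f x ∈ H := by
  have : Subgroup.closure {a, b} ≤ H.comap f := by
    rw [Subgroup.closure_le]
    rintro y (rfl | rfl)
    · exact ha
    · exact hb
  exact this hx

lemma eq_of_closure {f g : F3 →* F3} {a b : F3} (ha : f a = g a) (hb : f b = g b)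
    {x : F3} (hx : x ∈ Subgroup.closure {a, b}) : f x = g x := by
  have : Subgroup.closure {a, b} ≤ f.eqLocus g := by
    rw [Subgroup.closure_le]
    rintro y (rfl | rfl)
    · exact ha
    · exact hb
  exact this hx

/-- intersection of two subgroups by a retraction `r` -/
lemma mem_of_retract {r : F3 →* F3} {a b c d z : F3} (ha : r a = a) (hb : r b = b)
    (hc : r c ∈ Subgroup.zpowers z) (hd : r d ∈ Subgroup.zpowers z) {x : F3}
    (h1 : x ∈ Subgroup.closure {a, b}) (h2 : x ∈ Subgroup.closure {c, d}) :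
    x ∈ Subgroup.zpowers z := by
  have h3 : r x = MonoidHom.id F3 x := eq_of_closure ha hb h1
  have h4 : r x ∈ Subgroup.zpowers z := map_closure_le hc hd h2
  rwa [h3] at h4

end Run7.h78.MP33
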