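import Pool.Agent.Run7.h78.MP33_T5

set_option autoImplicit false

/-! The key statement for a single piece. -/

namespace Run7.h78.MP33

open Run7.h347 FreeGroup

lemma units_ne {u : ℤˣ} (h : u ≠ 1) : u = -1 := (Int.units_eq_one_or u).resolve_left h

/-- when the types of all ends agree, the two ends are on the same line -/
lemma pinch_ends {e f : Ed} (h2 : s2 e = s2 (einv f)) (h1 : s1 e = s1 (einv f)) : f = einv e := by
  obtain ⟨e1, e2⟩ := e
  obtain ⟨f1, f2⟩ := f
  have hf : e1 = f1 := by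
    fin_cases e1 <;> fin_cases f1 <;> simp [s2, einv] at h2 ⊢
  subst hf
  simp only [s1, einv] at h1 ⊢
  rcases Int.units_eq_one_or e2 with rfl | rfl <;> rcases Int.units_eq_one_or f2 with rfl | rfl
  · by_cases h : e1 = 0
    · simp [h] at h1
    · simp [h] at h1
  · simp
  · simp
  · by_cases h : e1 = 0
    · simp [h] at h1
    · simp [h] at h1

lemma ge_of {e : Ed} :
    (s2 e = 0 → s1 e = 0 → ge e = xE) ∧ (s2 e = 0 → s1 e = 1 → ge e = xF) ∧
    (s2 e = 1 → s1 e = 0 → ge e = xE * xD) ∧ (s2 e = 1 → s1 e = 1 → ge e = xF * xD) := by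
  obtain ⟨e1, e2⟩ := e
  unfold s1 s2 ge hd
  refine ⟨?_, ?_, ?_, ?_⟩ <;> (intro h2 h1; split_ifs at h1 h2 ⊢ <;> simp_all)

lemma tgF_id (k : ℤ) {x : F3} (hx : x ∈ Subgroup.closure {xE, xF}) : tgF k x = x := by
  have : tgF k x = MonoidHom.id F3 x :=
    eq_of_closure (by rw [tgF_xE]; rfl) (by rw [tgF_xF]; rfl) hx
  exact this

lemma tgF_gam (k : ℤ) : tgF k gam = gam := by
  rw [gam, MonoidHom.map_mul, MonoidHom.map_inv, tgF_xE, tgF_xF]

lemma tgF_xExD (k : ℤ) : tgF k (xE * xD) = gam ^ k * (xE * xD) * gam ^ (-k) := by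
  rw [MonoidHom.map_mul, tgF_xE, tgF_xD]; group

lemma tgF_conj (k : ℤ) {x : F3} (hx : x ∈ Subgroup.closure {xE * xD, gam}) :
    tgF k x = gam ^ k * x * gam ^ (-k) := by
  have : tgF k x = (MulAut.conj (gam ^ k)).toMonoidHom x := by
    refine eq_of_closure ?_ ?_ hx
    · rw [tgF_xExD, zpow_neg]; rfl
    · rw [tgF_gam]
      show gam = gam ^ k * gam * (gam ^ k)⁻¹
      group
  rw [this, zpow_neg]
  rfl

lemma lift_E (a b c : F3) : (FreeGroup.lift ![a, b, c] : F3 →* F3) xE = a := by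
  rw [xE, lift_apply_of]; rfl
lemma lift_F (a b c : F3) : (FreeGroup.lift ![a, b, c] : F3 →* F3) xF = b := by
  rw [xF, lift_apply_of]; rfl
lemma lift_D (a b c : F3) : (FreeGroup.lift ![a, b, c] : F3 →* F3) xD = c := by
  rw [xD, lift_apply_of]; rfl

lemma mem_l {a b : F3} : a ∈ Subgroup.closure {a, b} := Subgroup.subset_closure (by simp)
lemma mem_r {a b : F3} : b ∈ Subgroup.closure {a, b} := Subgroup.subset_closure (by simp)

theorem key (e : Ed) (m : F3) (f : Ed) (hNP : NonPinch e m f) :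
    ∃ k0 : ℕ, ∀ k : ℕ, k0 ≤ k → ∃ C : ℕ, ∀ K : ℕ,
      Blk (thP K e (tgP k e m f) f) ((K : ℤ) - C) := by
  rcases alt (s2 e) (s2 (einv f)) (s2_cases e) (s2_cases _) (al m) with
    ⟨h1, h2, h3⟩ | ⟨h1, h2, h3⟩ | ⟨C2, hC2⟩
  · -- both ends of type 0 for `gam`
    have hm : m ∈ Subgroup.closure {xE, xF} := by
      rw [← be_al m]
      refine map_closure_le ?_ ?_ h3
      · rw [be_xE]; exact mem_r
      · rw [be_xD]; exact Subgroup.mul_mem _ mem_l (Subgroup.inv_mem _ mem_r)
    refine ⟨0, fun k _ => ?_⟩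
    have htg : tgP k e m f = m := by
      rw [tgP_eq, h1, h2, mul_zero, neg_zero, zpow_zero, one_mul, mul_one, tgF_id _ hm]
    rw [htg]
    rcases alt (s1 e) (s1 (einv f)) (s1_cases e) (s1_cases _) m with
      ⟨h4, h5, h6⟩ | ⟨h4, h5, h6⟩ | ⟨C, hC⟩
    · exfalso
      apply hNP (pinch_ends (h1.trans h2.symm) (h4.trans h5.symm))
      rw [ge_of.1 h1 h4]
      refine mem_of_retract (r := FreeGroup.lift ![xE, 1, xD]) ?_ ?_ ?_ ?_ h6 hm
      · rw [lift_E]
      · rw [lift_D]
      · rw [lift_E]; exact Subgroup.mem_zpowers _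
      · rw [lift_F]; exact Subgroup.one_mem _
    · exfalso
      apply hNP (pinch_ends (h1.trans h2.symm) (h4.trans h5.symm))
      rw [ge_of.2.1 h1 h4]
      refine mem_of_retract (r := FreeGroup.lift ![1, xF, xD]) ?_ ?_ ?_ ?_ h6 hm
      · rw [lift_F]
      · rw [lift_D]
      · rw [lift_E]; exact Subgroup.one_mem _
      · rw [lift_F]; exact Subgroup.mem_zpowers _
    · exact ⟨C, fun K => by rw [thP_eq]; exact hC K⟩
  · -- both ends of type 1 for `gam`
    have hm : m ∈ Subgroup.closure {xE * xD, gam} := by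
      rw [← be_al m]
      refine map_closure_le ?_ ?_ h3
      · rw [be_xF]; exact mem_l
      · rw [be_xD]; exact mem_r
    refine ⟨0, fun k _ => ?_⟩
    have htg : tgP k e m f = m := by
      rw [tgP_eq, h1, h2, mul_one, tgF_conj _ hm]; group
    rw [htg]
    rcases alt (s1 e) (s1 (einv f)) (s1_cases e) (s1_cases _) m with
      ⟨h4, h5, h6⟩ | ⟨h4, h5, h6⟩ | ⟨C, hC⟩
    · exfalso
      apply hNP (pinch_ends (h1.trans h2.symm) (h4.trans h5.symm))
      rw [ge_of.2.2.1 h1 h4]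
      have h7 : al m ∈ Subgroup.closure {xD * xE, xF} := by
        refine map_closure_le ?_ ?_ h6
        · rw [al_xE]; exact mem_l
        · rw [al_xD]; exact Subgroup.mul_mem _ (Subgroup.inv_mem _ mem_l) mem_r
      have h8 : al m ∈ Subgroup.zpowers xF := by
        refine mem_of_retract (r := FreeGroup.lift ![xD * xE, xF, 1]) ?_ ?_ ?_ ?_ h7 h3
        · rw [MonoidHom.map_mul, lift_E, lift_D, one_mul]
        · rw [lift_F]
        · rw [lift_F]; exact Subgroup.mem_zpowers _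
        · rw [lift_D]; exact Subgroup.one_mem _
      obtain ⟨j, hj⟩ := Subgroup.mem_zpowers_iff.1 h8
      rw [← be_al m, ← hj, MonoidHom.map_zpow, be_xF]
      exact Subgroup.zpow_mem _ (Subgroup.mem_zpowers _) _
    · exfalso
      apply hNP (pinch_ends (h1.trans h2.symm) (h4.trans h5.symm))
      rw [ge_of.2.2.2 h1 h4]
      have h7 : al m ∈ Subgroup.closure {xE, xD⁻¹ * xF} := by
        refine map_closure_le ?_ ?_ h6
        · rw [al_xF]; exact mem_l
        · rw [al_xD, mul_inv_rev, mul_assoc]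
          exact Subgroup.mul_mem _ (Subgroup.inv_mem _ mem_l) mem_r
      have h8 : al m ∈ Subgroup.zpowers (xD⁻¹ * xF) := by
        refine mem_of_retract (r := FreeGroup.lift ![xE, xD⁻¹ * xF, 1]) ?_ ?_ ?_ ?_ h7 h3
        · rw [lift_E]
        · rw [MonoidHom.map_mul, MonoidHom.map_inv, lift_D, lift_F, inv_one, one_mul]
        · rw [lift_F]; exact Subgroup.mem_zpowers _
        · rw [lift_D]; exact Subgroup.one_mem _
      obtain ⟨j, hj⟩ := Subgroup.mem_zpowers_iff.1 h8
      rw [← be_al m, ← hj, MonoidHom.map_zpow, MonoidHom.map_mul, MonoidHom.map_inv, be_xD, be_xF]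
      have h9 : (xE * xF⁻¹)⁻¹ * (xE * xD) = xF * xD := by group
      rw [h9]
      exact Subgroup.zpow_mem _ (Subgroup.mem_zpowers _) _
    · exact ⟨C, fun K => by rw [thP_eq]; exact hC K⟩
  · -- the twist along `gam` produces long blocks
    refine ⟨C2 + 2, fun k hk => ?_⟩
    have hB := hC2 k
    rw [← al_tgP] at hB
    have hnd := not_noDD_of_blk hB (by omega)
    rcases alt (s1 e) (s1 (einv f)) (s1_cases e) (s1_cases _) (tgP k e m f) with
      ⟨h4, h5, h6⟩ | ⟨h4, h5, h6⟩ | ⟨C, hC⟩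
    · exfalso
      apply hnd
      apply noDD_1
      refine map_closure_le ?_ ?_ h6
      · rw [al_xE]; exact mem_l
      · rw [al_xD]; exact Subgroup.mul_mem _ (Subgroup.inv_mem _ mem_l) mem_r
    · exfalso
      apply hnd
      apply noDD_2
      refine map_closure_le ?_ ?_ h6
      · rw [al_xF]; exact mem_l
      · rw [al_xD, mul_inv_rev, mul_assoc]
        exact Subgroup.mul_mem _ (Subgroup.inv_mem _ mem_l) mem_r
    · exact ⟨C, fun K => by rw [thP_eq]; exact hC K⟩

end Run7.h78.MP33
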