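import Pool.Agent.Helper794_NC.Seq

set_option autoImplicit false

open scoped commutatorElement

namespace Run7.h78

variable {G : Type*} [Group G]

/-- In a group with the normalizer condition, an element `w` whose centralizer is maximal among the
centralizers of nontrivial elements is central. -/
theorem central_of_maximal_centralizer (hN : NormalizerCondition G) (w : G) (hw : w ≠ 1)
    (hmax : ∀ v : G, v ≠ 1 → (∀ c : G, Commute c w → Commute c v) →
      ∀ c : G, Commute c v → Commute c w) :
    ∀ c : G, Commute c w := by
  classical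
  by_contra hcon
  set C : Subgroup G := Subgroup.centralizer {w} with hC
  have hmemC : ∀ c : G, c ∈ C ↔ Commute c w := by
    intro c
    rw [hC, Subgroup.mem_centralizer_singleton_iff]
    rfl
  have hCtop : C < ⊤ := by
    refine lt_top_iff_ne_top.2 fun h => hcon fun c => ?_
    rw [← hmemC, h]
    exact Subgroup.mem_top _
  have hlt := hN C hCtop
  obtain ⟨g, hgN, hgC⟩ := SetLike.exists_of_lt hlt
  -- the sequence `w, [w,g], [w,g,g], …`
  let q : ℕ → G := fun n => Nat.rec w (fun _ x => ⁅x, g⁆) n
  have hq0 : q 0 = w := rfl
  have hqs : ∀ n, q (n + 1) = ⁅q n, g⁆ := fun n => rfl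
  have hinv : ∀ n, q n ≠ 1 ∧ ∀ c : G, Commute c w → Commute c (q n) := by
    intro n
    induction n with
    | zero => exact ⟨hw, fun c hc => hc⟩
    | succ n ih =>
      obtain ⟨hne, hcent⟩ := ih
      have hgq : ¬ Commute g (q n) := by
        intro h
        exact hgC ((hmemC g).2 (hmax (q n) hne hcent g h))
      refine ⟨?_, ?_⟩
      · rw [hqs n]
        intro h
        exact hgq (commutatorElement_eq_one_iff_commute.1 h).symm
      · intro c hc
        rw [hqs n, commutatorElement_def]
        -- `g c g⁻¹`-type conjugates of `c` lie in `C`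
        have h1 : Commute c (q n) := hcent c hc
        have h2 : Commute c (g * (q n)⁻¹ * g⁻¹) := by
          have hc' : g⁻¹ * c * g ∈ C := by
            have := (Subgroup.mem_normalizer_iff.1 hgN (g⁻¹ * c * g)).2
            apply this
            have h3 : g * (g⁻¹ * c * g) * g⁻¹ = c := by group
            rw [h3]
            exact (hmemC c).2 hc
          have h4 : Commute (g⁻¹ * c * g) (q n)⁻¹ := (hcent _ ((hmemC _).1 hc')).inv_right
          have h5 := h4.map (MulAut.conj g).toMonoidHom
          simp only [MulEquiv.toMonoidHom_eq_coe, MonoidHom.coe_coe, MulAut.conj_apply] at h5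
          have h6 : g * (g⁻¹ * c * g) * g⁻¹ = c := by group
          rwa [h6] at h5
        have h7 : q n * g * (q n)⁻¹ * g⁻¹ = q n * (g * (q n)⁻¹ * g⁻¹) := by group
        rw [h7]
        exact h1.mul_right h2
  obtain ⟨n, hn⟩ := Pool.Agent.Helper794NC.seq_mem hN (fun _ => g) q hqs
  have hz : q n ∈ Subgroup.zpowers g := by
    have : (Set.range (fun _ : ℕ => g)) = {g} := by
      ext x; simp [eq_comm]
    rwa [this, ← Subgroup.zpowers_eq_closure] at hn
  obtain ⟨k, hk⟩ := Subgroup.mem_zpowers_iff.1 hz
  apply (hinv (n + 1)).1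
  rw [hqs n, ← hk]
  exact commutatorElement_eq_one_iff_commute.2 ((Commute.refl g).zpow_left k)

end Run7.h78
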